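import Mathlib

set_option autoImplicit false

open Finset MvPolynomial

namespace Pool.Agent.Results.MP_96e433_lc.FewBarred

/-- Polynomials over `F` in the variables `x e` and their twins `xbar e`, where `e = (i, j)`
ranges over the pairs of a pigeon `i` and a hole `j`. -/
abbrev Poly (F : Type*) [CommRing F] (m n : ℕ) : Type _ :=
  MvPolynomial ((Fin m × Fin n) × Bool) F

section Defs

variable (F : Type*) [Field F] (m n : ℕ)

/-- The variable `x_{ij}`, `e = (i, j)`. -/
noncomputable def x (e : Fin m × Fin n) : Poly F m n := X (e, true)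

/-- The twin variable of `x_{ij}`, `e = (i, j)`. -/
noncomputable def xbar (e : Fin m × Fin n) : Poly F m n := X (e, false)

/-- The ideal `I` generated by the Boolean axioms. -/
noncomputable def boolIdeal : Ideal (Poly F m n) :=
  Ideal.span {p | ∃ e, p = x F m n e ^ 2 - x F m n e ∨ p = x F m n e + xbar F m n e - 1}

/-- The encodings of the clauses of `fPHP`: injectivity and functionality, and totality for the
pigeons of `S`. -/
def fPHP (S : Finset (Fin m)) : Set (Poly F m n) :=
  {p | ∃ i i' j, i ≠ i' ∧ p = x F m n (i, j) * x F m n (i', j)} ∪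
  {p | ∃ i j j', j ≠ j' ∧ p = x F m n (i, j) * x F m n (i, j')} ∪
  {p | ∃ i ∈ S, p = ∏ j, xbar F m n (i, j)}

variable {F m n}

/-- A semantic polynomial calculus refutation `M 0, …, M l` of `P` over the ideal `J`. -/
structure IsRefutation (J : Ideal (Poly F m n)) (P : Set (Poly F m n)) (l : ℕ)
    (M : ℕ → Finset (Poly F m n)) : Prop where
  zero : M 0 = ∅
  one_mem : 1 ∈ M l
  step : ∀ t < l, ∃ p ∈ P ∪ {0}, ∀ q ∈ M (t + 1),
    q ∈ Ideal.span (M t : Set (Poly F m n)) ⊔ J ⊔ Ideal.span {p}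

open Classical in
/-- The distinct monomials which occur in the polynomials of a configuration. -/
noncomputable def monos (C : Finset (Poly F m n)) : Finset (((Fin m × Fin n) × Bool) →₀ ℕ) :=
  C.biUnion fun p => p.support

/-- The monomial space of `M 0, …, M l`. -/
noncomputable def MSp (l : ℕ) (M : ℕ → Finset (Poly F m n)) : ℕ :=
  (range (l + 1)).sup fun t => (monos (M t)).card

/-- `μ` is a partial matching: two of its edges which share the pigeon or the hole are equal. -/
def IsPartialMatching (μ : Finset (Fin m × Fin n)) : Prop :=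
  ∀ e ∈ μ, ∀ f ∈ μ, (e.1 = f.1 ∨ e.2 = f.2) → e = f

variable (F) in
/-- The 0-1 point of `μ`: `x e = 1` and `xbar e = 0` for `e ∈ μ`, `x e = 0` and `xbar e = 1` for
`e ∉ μ`. -/
def point (μ : Finset (Fin m × Fin n)) : (Fin m × Fin n) × Bool → F :=
  fun v => if (decide (v.1 ∈ μ)) = v.2 then 1 else 0

variable (F m n)

/-- The ideal of all polynomials which vanish at all partial matchings. -/
noncomputable def matchIdeal : Ideal (Poly F m n) :=
  ⨅ (μ : Finset (Fin m × Fin n)) (_ : IsPartialMatching μ), RingHom.ker (eval (point F μ))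

/-- The polynomials `p` for which there is a pigeon `i` in `S` such that `p` vanishes at all partial
matchings which match `i`. -/
def pigeonAxioms (S : Finset (Fin m)) : Set (Poly F m n) :=
  {p | ∃ i ∈ S, ∀ μ : Finset (Fin m × Fin n), IsPartialMatching μ → (∃ j, (i, j) ∈ μ) →
      eval (point F μ) p = 0}

variable {m n}

open Classical in
/-- The edges `e` such that the variable `xbar e` occurs in the monomial `d`. -/
noncomputable def minus (d : ((Fin m × Fin n) × Bool) →₀ ℕ) : Finset (Fin m × Fin n) :=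
  univ.filter fun e => d (e, false) ≠ 0

open Classical in
/-- The edges `e` such that `xbar e` occurs in some monomial of `A`. -/
noncomputable def bars (A : Finset (((Fin m × Fin n) × Bool) →₀ ℕ)) : Finset (Fin m × Fin n) :=
  A.biUnion minus

/-- The holes `j` such that `(i, j)` is in `E`. -/
def row (E : Finset (Fin m × Fin n)) (i : Fin m) : Finset (Fin n) :=
  univ.filter fun j => (i, j) ∈ E

/-- Outside some `r` pigeons, the set `E` has at most `D` edges, where the first `k` edges of each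
pigeon are not counted. -/
def Small (r k D : ℕ) (E : Finset (Fin m × Fin n)) : Prop :=
  ∃ R : Finset (Fin m), R.card ≤ r ∧ ∑ i ∈ univ \ R, ((row E i).card - k) ≤ D

/-- The monomial `d` is a multiple of an encoded clause of `fPHP` or of some `x e * xbar e`. -/
def Multiple (d : ((Fin m × Fin n) × Bool) →₀ ℕ) : Prop :=
  (∃ i i' j, i ≠ i' ∧ d ((i, j), true) ≠ 0 ∧ d ((i', j), true) ≠ 0) ∨
  (∃ i j j', j ≠ j' ∧ d ((i, j), true) ≠ 0 ∧ d ((i, j'), true) ≠ 0) ∨
  (∃ i, ∀ j, d ((i, j), false) ≠ 0) ∨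
  ∃ e, d (e, true) ≠ 0 ∧ d (e, false) ≠ 0

variable {F} in
open Classical in
/-- The distinct monomials of `M 0, …, M l` which are neither multiples of an encoded clause or of
some `x e * xbar e` nor have a small set of barred variables. -/
noncomputable def long (r k D l : ℕ) (M : ℕ → Finset (Poly F m n)) :
    Finset (((Fin m × Fin n) × Bool) →₀ ℕ) :=
  ((range (l + 1)).biUnion fun t => monos (M t)).filter fun d =>
    ¬ Multiple d ∧ ¬ Small r k D (minus d)

end Defs

section Nibble

variable {m n : ℕ}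

/-- The pigeon `i` is not matched by `β`. -/
def FreePigeon (β : Finset (Fin m × Fin n)) (i : Fin m) : Prop := ∀ j, (i, j) ∉ β

/-- The hole `j` is not matched by `β`. -/
def FreeHole (β : Finset (Fin m × Fin n)) (j : Fin n) : Prop := ∀ i, (i, j) ∉ β

open Classical in
/-- The edges of `C` at free pigeons and in the slots from `a` on. -/
noncomputable def Yc (a : ℕ) (β C : Finset (Fin m × Fin n)) : ℕ :=
  (C.filter fun e => a ≤ e.2.val / 2 ∧ FreePigeon β e.1).card

open Classical in
noncomputable def zc (a : ℕ) (β C : Finset (Fin m × Fin n)) (i : Fin m) : ℕ :=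
  (C.filter fun e => (a ≤ e.2.val / 2 ∧ FreePigeon β e.1) ∧ e.1 = i).card

open Classical in
noncomputable def phi (u : ℝ) (a : ℕ) (β C : Finset (Fin m × Fin n)) : ℝ :=
  if ∃ e ∈ β, e ∈ C then 0 else u ^ Yc a β C

/-- The hole of the slot `a` and the coin `b`. -/
def hol (a : ℕ) (b : Bool) : ℕ := 2 * a + (if b = true then 1 else 0)

open Classical in
noncomputable def addE (a : ℕ) (β : Finset (Fin m × Fin n)) (p : Fin m × Bool) :
    Finset (Fin m × Fin n) :=
  if h : hol a p.2 < n ∧ FreePigeon β p.1 then insert (p.1, ⟨hol a p.2, h.1⟩) β else β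

open Classical in
noncomputable def kc (a : ℕ) (β C : Finset (Fin m × Fin n)) (p : Fin m × Bool) : ℝ :=
  if ∃ h : hol a p.2 < n, FreePigeon β p.1 ∧ (p.1, (⟨hol a p.2, h⟩ : Fin n)) ∈ C then 1 else 0

theorem free_insert {β : Finset (Fin m × Fin n)} {i i' : Fin m} {j : Fin n} :
    FreePigeon (insert (i, j) β) i' ↔ FreePigeon β i' ∧ i' ≠ i := by
  classical
  unfold FreePigeon
  constructor
  · intro h
    refine ⟨fun j' hj' => h j' (mem_insert_of_mem hj'), ?_⟩
    rintro rfl
    exact h j (mem_insert_self _ _)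
  · rintro ⟨h1, h2⟩ j' hj'
    rw [mem_insert] at hj'
    rcases hj' with hj' | hj'
    · exact h2 (Prod.mk.inj hj').1
    · exact h1 j' hj'

theorem Yc_insert (a : ℕ) (β C : Finset (Fin m × Fin n)) (i : Fin m) (j : Fin n) :
    Yc a (insert (i, j) β) C + zc a β C i = Yc a β C := by
  classical
  have h := card_filter_add_card_filter_not
    (s := C.filter fun e => a ≤ e.2.val / 2 ∧ FreePigeon β e.1) (p := fun e => e.1 = i)
  rw [filter_filter, filter_filter] at h
  have h1 : Yc a (insert (i, j) β) C =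
      (C.filter fun e => (a ≤ e.2.val / 2 ∧ FreePigeon β e.1) ∧ ¬ e.1 = i).card := by
    unfold Yc
    congr 1
    refine filter_congr fun e _ => ?_
    rw [free_insert]
    tauto
  unfold zc
  rw [h1]
  unfold Yc
  omega

theorem zc_le (a : ℕ) (β C : Finset (Fin m × Fin n)) (i : Fin m) : zc a β C i ≤ Yc a β C := by
  classical
  unfold zc Yc
  refine card_le_card ?_
  intro e he
  rw [mem_filter] at *
  exact ⟨he.1, he.2.1⟩

theorem zc_le_n (a : ℕ) (β C : Finset (Fin m × Fin n)) (i : Fin m) : zc a β C i ≤ n := by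
  classical
  unfold zc
  have h : (C.filter fun e => (a ≤ e.2.val / 2 ∧ FreePigeon β e.1) ∧ e.1 = i).card ≤
      (univ : Finset (Fin n)).card := by
    refine card_le_card_of_injOn Prod.snd (fun _ _ => mem_coe.2 (mem_univ _)) ?_
    intro e he f hf hef
    rw [mem_coe, mem_filter] at he hf
    exact Prod.ext (he.2.2.trans hf.2.2.symm) hef
  rwa [card_univ, Fintype.card_fin] at h

theorem sum_zc (a : ℕ) (β C : Finset (Fin m × Fin n)) : ∑ i, zc a β C i = Yc a β C := by
  classical
  unfold zc Yc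
  rw [card_eq_sum_card_fiberwise (f := Prod.fst) (t := univ) (fun _ _ => mem_coe.2 (mem_univ _))]
  refine sum_congr rfl fun i _ => ?_
  rw [filter_filter]

theorem sum_kc (a : ℕ) (β C : Finset (Fin m × Fin n)) :
    (Yc a β C : ℝ) ≤ Yc (a + 1) β C + ∑ p, kc a β C p := by
  classical
  have h1 : Yc a β C = Yc (a + 1) β C +
      (C.filter fun e => (a ≤ e.2.val / 2 ∧ FreePigeon β e.1) ∧ ¬ (a + 1 ≤ e.2.val / 2)).card := by
    have h := card_filter_add_card_filter_not
      (s := C.filter fun e => a ≤ e.2.val / 2 ∧ FreePigeon β e.1)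
      (p := fun e => a + 1 ≤ e.2.val / 2)
    rw [filter_filter, filter_filter] at h
    have h2 : Yc (a + 1) β C = (C.filter fun e => (a ≤ e.2.val / 2 ∧ FreePigeon β e.1) ∧
        (a + 1 ≤ e.2.val / 2)).card := by
      unfold Yc
      congr 1
      refine filter_congr fun e _ => ?_
      constructor
      · rintro ⟨h3, h4⟩
        exact ⟨⟨by omega, h4⟩, h3⟩
      · rintro ⟨⟨h3, h4⟩, h5⟩
        exact ⟨h5, h4⟩
    rw [h2]
    unfold Yc
    omega
  have h2 : ∑ p, kc a β C p = ((univ.filter fun p : Fin m × Bool =>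
      ∃ h : hol a p.2 < n, FreePigeon β p.1 ∧ (p.1, (⟨hol a p.2, h⟩ : Fin n)) ∈ C).card : ℝ) := by
    unfold kc
    rw [sum_boole]
  have h3 : (C.filter fun e => (a ≤ e.2.val / 2 ∧ FreePigeon β e.1) ∧
      ¬ (a + 1 ≤ e.2.val / 2)).card ≤ (univ.filter fun p : Fin m × Bool =>
      ∃ h : hol a p.2 < n, FreePigeon β p.1 ∧ (p.1, (⟨hol a p.2, h⟩ : Fin n)) ∈ C).card := by
    refine card_le_card_of_injOn (fun e => (e.1, decide (e.2.val % 2 = 1))) ?_ ?_
    · intro e he
      rw [mem_coe, mem_filter] at he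
      rw [mem_coe, mem_filter]
      have hh : hol a (decide (e.2.val % 2 = 1)) = e.2.val := by
        unfold hol
        by_cases h4 : e.2.val % 2 = 1
        · simp only [h4, decide_true, if_true]
          omega
        · simp only [h4, decide_false]
          simp
          omega
      refine ⟨mem_univ _, ?_⟩
      simp only
      refine ⟨by rw [hh]; exact e.2.isLt, he.2.1.2, ?_⟩
      have h5 : (⟨hol a (decide (e.2.val % 2 = 1)), by rw [hh]; exact e.2.isLt⟩ : Fin n) = e.2 :=
        Fin.ext hh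
      rw [h5]
      exact he.1
    · intro e he f hf hef
      rw [mem_coe, mem_filter] at he hf
      simp only [Prod.mk.injEq] at hef
      have h4 : e.2.val % 2 = 1 ↔ f.2.val % 2 = 1 := by simpa using hef.2
      refine Prod.ext hef.1 (Fin.ext ?_)
      omega
  rw [h2, h1]
  push_cast
  have h4 : (((C.filter fun e => (a ≤ e.2.val / 2 ∧ FreePigeon β e.1) ∧
      ¬ (a + 1 ≤ e.2.val / 2)).card : ℕ) : ℝ) ≤ ((univ.filter fun p : Fin m × Bool =>
      ∃ h : hol a p.2 < n, FreePigeon β p.1 ∧ (p.1, (⟨hol a p.2, h⟩ : Fin n)) ∈ C).card : ℕ) := by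
    exact_mod_cast h3
  linarith

theorem phi_le {u : ℝ} (hu0 : 0 < u) (hu1 : u ≤ 1) (a : ℕ) (β C : Finset (Fin m × Fin n))
    (hk : ¬ ∃ e ∈ β, e ∈ C) (p : Fin m × Bool) :
    phi u (a + 1) (addE a β p) C ≤ u ^ Yc (a + 1) β C * (1 - kc a β C p) +
      (u ^ (Yc (a + 1) β C - zc (a + 1) β C p.1) - u ^ Yc (a + 1) β C) := by
  classical
  have hmono : u ^ Yc (a + 1) β C ≤ u ^ (Yc (a + 1) β C - zc (a + 1) β C p.1) :=
    pow_le_pow_of_le_one hu0.le hu1 (Nat.sub_le _ _)
  by_cases h : hol a p.2 < n ∧ FreePigeon β p.1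
  · unfold addE
    rw [dif_pos h]
    by_cases hC : (p.1, (⟨hol a p.2, h.1⟩ : Fin n)) ∈ C
    · have h1 : kc a β C p = 1 := by
        unfold kc
        rw [if_pos ⟨h.1, h.2, hC⟩]
      have h2 : phi u (a + 1) (insert (p.1, (⟨hol a p.2, h.1⟩ : Fin n)) β) C = 0 := by
        unfold phi
        rw [if_pos ⟨_, mem_insert_self _ _, hC⟩]
      rw [h1, h2]
      linarith
    · have h1 : kc a β C p = 0 := by
        unfold kc
        rw [if_neg]
        rintro ⟨h2, _, h4⟩
        exact hC h4
      have h2 : phi u (a + 1) (insert (p.1, (⟨hol a p.2, h.1⟩ : Fin n)) β) C =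
          u ^ (Yc (a + 1) β C - zc (a + 1) β C p.1) := by
        unfold phi
        rw [if_neg]
        · have h3 := Yc_insert (a + 1) β C p.1 (⟨hol a p.2, h.1⟩ : Fin n)
          congr 1
          omega
        · rintro ⟨e, he, heC⟩
          rw [mem_insert] at he
          rcases he with rfl | he
          · exact hC heC
          · exact hk ⟨e, he, heC⟩
      rw [h1, h2]
      linarith
  · unfold addE
    rw [dif_neg h]
    have h1 : kc a β C p = 0 := by
      unfold kc
      rw [if_neg]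
      rintro ⟨h2, h3, _⟩
      exact h ⟨h2, h3⟩
    have h2 : phi u (a + 1) β C = u ^ Yc (a + 1) β C := by
      unfold phi
      rw [if_neg hk]
    rw [h1, h2]
    linarith

theorem step_one (hmn : n < m) {D : ℕ} (a : ℕ) (β C : Finset (Fin m × Fin n)) (hC : C.card ≤ D) :
    ∑ p, phi (1 - 1 / (16 * m)) (a + 1) (addE a β p) C ≤
      2 * m * ((1 + D / (12 * m ^ 2)) * phi (1 - 1 / (16 * m)) a β C) := by
  classical
  have hm : (0 : ℝ) < m := by exact_mod_cast (by omega : 0 < m)
  have hm1 : (1 : ℝ) ≤ m := by exact_mod_cast (by omega : 1 ≤ m)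
  set x : ℝ := 1 / (16 * m) with hx
  have hx0 : 0 < x := by positivity
  have hxm : x * m = 1 / 16 := by rw [hx]; field_simp
  have hx1 : x ≤ 1 / 16 := by
    rw [hx]
    exact one_div_le_one_div_of_le (by norm_num) (by linarith)
  set u : ℝ := 1 - x with hu
  have hu0 : 0 < u := by rw [hu]; linarith
  have hu1 : u ≤ 1 := by rw [hu]; linarith
  have bern : ∀ k : ℕ, 1 - k * x ≤ u ^ k := by
    intro k
    have h := one_add_mul_le_pow (a := -x) (by linarith) k
    have e : (1 : ℝ) + -x = u := by rw [hu]; ring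
    rw [e] at h
    linarith
  by_cases hk : ∃ e ∈ β, e ∈ C
  · have h1 : ∀ p, phi u (a + 1) (addE a β p) C = 0 := by
      intro p
      unfold phi
      rw [if_pos]
      obtain ⟨e, he, heC⟩ := hk
      refine ⟨e, ?_, heC⟩
      unfold addE
      split_ifs
      · exact mem_insert_of_mem he
      · exact he
    have h2 : phi u a β C = 0 := by unfold phi; rw [if_pos hk]
    rw [h2, sum_congr rfl fun p _ => h1 p]
    simp
  have hphi : phi u a β C = u ^ Yc a β C := by unfold phi; rw [if_neg hk]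
  rw [hphi]
  refine (sum_le_sum fun p _ => phi_le hu0 hu1 a β C hk p).trans ?_
  set Y' := Yc (a + 1) β C with hY'
  have hUp : 0 < u ^ Y' := pow_pos hu0 _
  -- the removal of rows
  have hrow : ∀ i, u ^ (Y' - zc (a + 1) β C i) - u ^ Y' ≤
      u ^ Y' * (16 / 15 * x * zc (a + 1) β C i) := by
    intro i
    set z := zc (a + 1) β C i with hz
    have hzY : z ≤ Y' := zc_le _ _ _ _
    have hzn : (z : ℝ) ≤ m := by
      have := zc_le_n (a + 1) β C i
      exact_mod_cast (by omega : z ≤ m)
    have h1 : u ^ Y' = u ^ (Y' - z) * u ^ z := by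
      rw [← pow_add]
      congr 1
      omega
    have h2 := bern z
    have h3 : (z : ℝ) * x ≤ 1 / 16 := by
      calc (z : ℝ) * x ≤ m * x := mul_le_mul_of_nonneg_right hzn hx0.le
        _ = 1 / 16 := by rw [mul_comm]; exact hxm
    have h4 : (0 : ℝ) ≤ z * x := by positivity
    have h5 : 1 - u ^ z ≤ u ^ z * (16 / 15 * x * z) := by nlinarith
    have h6 : 0 < u ^ (Y' - z) := pow_pos hu0 _
    rw [h1]
    nlinarith
  have hsplit : ∑ p : Fin m × Bool, (u ^ Y' * (1 - kc a β C p) +
      (u ^ (Y' - zc (a + 1) β C p.1) - u ^ Y')) ≤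
      u ^ Y' * (2 * m - ∑ p, kc a β C p) + 2 * (u ^ Y' * (16 / 15 * x * Y')) := by
    rw [sum_add_distrib]
    have h1 : ∑ p : Fin m × Bool, u ^ Y' * (1 - kc a β C p) =
        u ^ Y' * (2 * m - ∑ p, kc a β C p) := by
      rw [← mul_sum, sum_sub_distrib]
      congr 2
      simp [Fintype.card_prod]
      ring
    have h2 : ∑ p : Fin m × Bool, (u ^ (Y' - zc (a + 1) β C p.1) - u ^ Y') ≤
        2 * (u ^ Y' * (16 / 15 * x * Y')) := by
      rw [Fintype.sum_prod_type]
      have h3 : ∀ i : Fin m, ∑ _b : Bool, (u ^ (Y' - zc (a + 1) β C i) - u ^ Y') =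
          2 * (u ^ (Y' - zc (a + 1) β C i) - u ^ Y') := by
        intro i
        simp
        ring
      rw [sum_congr rfl fun i _ => h3 i, ← mul_sum]
      refine mul_le_mul_of_nonneg_left ?_ (by norm_num)
      refine (sum_le_sum fun i _ => hrow i).trans ?_
      rw [← mul_sum, ← mul_sum]
      have h4 : ∑ i, (zc (a + 1) β C i : ℝ) = Y' := by
        have := sum_zc (a + 1) β C
        rw [hY', ← this]
        push_cast
        rfl
      rw [h4]
    rw [h1]
    linarith
  refine hsplit.trans ?_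
  -- the slot
  have hK := sum_kc a β C
  rw [← hY'] at hK
  set K := ∑ p, kc a β C p with hKdef
  have hYa : Y' ≤ Yc a β C := by
    rw [hY']
    unfold Yc
    refine card_le_card ?_
    intro e he
    rw [mem_filter] at *
    exact ⟨he.1, by omega, he.2.2⟩
  obtain ⟨y, hy⟩ : ∃ y, Yc a β C = Y' + y := ⟨Yc a β C - Y', by omega⟩
  rw [hy, pow_add]
  rw [hy] at hK
  push_cast at hK
  have hyK : (y : ℝ) ≤ K := by linarith
  have hK2 : K ≤ 2 * m := by
    rw [hKdef]
    have h1 : ∑ p : Fin m × Bool, kc a β C p ≤ ∑ _p : Fin m × Bool, (1 : ℝ) := by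
      refine sum_le_sum fun p _ => ?_
      unfold kc
      split_ifs <;> norm_num
    refine h1.trans (le_of_eq ?_)
    simp [Fintype.card_prod]
    ring
  have hYD : (Y' : ℝ) ≤ D := by
    have h1 : Y' ≤ C.card := by
      rw [hY']
      unfold Yc
      exact card_filter_le _ _
    exact_mod_cast h1.trans hC
  have hby := bern y
  have hD0 : (0 : ℝ) ≤ D := Nat.cast_nonneg _
  have hγ : (0 : ℝ) ≤ D / (12 * m ^ 2) := by positivity
  have hyx : (y : ℝ) * x ≤ 1 / 8 := by
    calc (y : ℝ) * x ≤ (2 * m) * x := mul_le_mul_of_nonneg_right (by linarith) hx0.le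
      _ = 2 * (x * m) := by ring
      _ = 1 / 8 := by rw [hxm]; norm_num
  have hmx : 2 * (m : ℝ) * (y * x) = y / 8 := by
    calc 2 * (m : ℝ) * (y * x) = 2 * y * (x * m) := by ring
      _ = y / 8 := by rw [hxm]; ring
  have hy0 : (0 : ℝ) ≤ y := Nat.cast_nonneg _
  have hgm : 2 * (m : ℝ) * (D / (12 * m ^ 2)) = D / (6 * m) := by
    field_simp
    ring
  have hxD : x * D = D / (16 * m) := by rw [hx]; ring
  -- it remains: 2m - K + (32/15) x Y' ≤ 2m (1 + g) u^y
  have key : 2 * m - K + 2 * (16 / 15 * x * Y') ≤ 2 * m * ((1 + D / (12 * m ^ 2)) * u ^ y) := by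
    have h1 : 2 * m * ((1 + D / (12 * m ^ 2)) * (1 - y * x)) ≤
        2 * m * ((1 + D / (12 * m ^ 2)) * u ^ y) := by
      refine mul_le_mul_of_nonneg_left ?_ (by positivity)
      exact mul_le_mul_of_nonneg_left hby (by positivity)
    refine le_trans ?_ h1
    have h2 : 2 * m * ((1 + D / (12 * m ^ 2)) * (1 - y * x)) =
        2 * m - y / 8 + D / (6 * m) * (1 - y * x) := by
      rw [← hmx, ← hgm]
      ring
    rw [h2]
    have h3 : D / (6 * m) * (7 / 8) ≤ D / (6 * m) * (1 - (y : ℝ) * x) :=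
      mul_le_mul_of_nonneg_left (by linarith) (by positivity)
    have h4 : x * Y' ≤ D / (16 * m) := by
      rw [← hxD]
      exact mul_le_mul_of_nonneg_left hYD hx0.le
    have h5 : 32 / 15 * ((D : ℝ) / (16 * m)) ≤ D / (6 * m) * (7 / 8) := by
      have h6 : (D : ℝ) / (16 * m) = D / m * (1 / 16) := by ring
      have h7 : (D : ℝ) / (6 * m) = D / m * (1 / 6) := by ring
      rw [h6, h7]
      have h8 : (0 : ℝ) ≤ D / m := by positivity
      nlinarith
    nlinarith
  calc u ^ Y' * (2 * m - K) + 2 * (u ^ Y' * (16 / 15 * x * Y'))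
      = u ^ Y' * (2 * m - K + 2 * (16 / 15 * x * Y')) := by ring
    _ ≤ u ^ Y' * (2 * m * ((1 + D / (12 * m ^ 2)) * u ^ y)) :=
        mul_le_mul_of_nonneg_left key hUp.le
    _ = 2 * m * ((1 + D / (12 * m ^ 2)) * (u ^ Y' * u ^ y)) := by ring

theorem step_all (hmn : n < m) {δ : Type*} (V : Finset δ) (C : δ → Finset (Fin m × Fin n)) {D : ℕ}
    (hC : ∀ d ∈ V, (C d).card ≤ D) (a : ℕ) (β : Finset (Fin m × Fin n)) :
    ∃ p, ∑ d ∈ V, phi (1 - 1 / (16 * m)) (a + 1) (addE a β p) (C d) ≤
      (1 + D / (12 * m ^ 2)) * ∑ d ∈ V, phi (1 - 1 / (16 * m)) a β (C d) := by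
  classical
  have hm : (0 : ℝ) < m := by exact_mod_cast (by omega : 0 < m)
  have h1 : ∑ p : Fin m × Bool, ∑ d ∈ V,
      phi (1 - 1 / (16 * m)) (a + 1) (addE a β p) (C d) ≤
      ∑ _p : Fin m × Bool, (1 + D / (12 * (m : ℝ) ^ 2)) *
        ∑ d ∈ V, phi (1 - 1 / (16 * m)) a β (C d) := by
    rw [sum_comm]
    refine (sum_le_sum fun d hd => step_one hmn a β (C d) (hC d hd)).trans (le_of_eq ?_)
    rw [sum_const, card_univ, Fintype.card_prod, Fintype.card_bool, Fintype.card_fin,
      nsmul_eq_mul, ← mul_sum, ← mul_sum]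
    push_cast
    ring
  have : Nonempty (Fin m × Bool) := ⟨⟨⟨0, by omega⟩, true⟩⟩
  obtain ⟨p, _, hp⟩ := exists_le_of_sum_le (univ_nonempty (α := Fin m × Bool)) h1
  exact ⟨p, hp⟩

/-- The invariant of the construction: the base matching uses at most one hole of each slot before
`a`. -/
structure Slots (a : ℕ) (β : Finset (Fin m × Fin n)) : Prop where
  pm : IsPartialMatching β
  lt : ∀ e ∈ β, e.2.val / 2 < a
  one : ∀ e ∈ β, ∀ f ∈ β, e.2.val / 2 = f.2.val / 2 → e = f

theorem hol_div (a : ℕ) (b : Bool) : hol a b / 2 = a := by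
  unfold hol
  split_ifs <;> omega

theorem Slots.step {a : ℕ} {β : Finset (Fin m × Fin n)} (h : Slots a β) (p : Fin m × Bool) :
    Slots (a + 1) (addE a β p) := by
  classical
  unfold addE
  split_ifs with hp
  · have hnew : ∀ e ∈ insert (p.1, (⟨hol a p.2, hp.1⟩ : Fin n)) β,
        e = (p.1, (⟨hol a p.2, hp.1⟩ : Fin n)) ∨ e ∈ β := fun e he => mem_insert.1 he
    refine ⟨?_, ?_, ?_⟩
    · intro e he f hf hef
      rcases hnew e he with rfl | he <;> rcases hnew f hf with rfl | hf
      · rfl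
      · exfalso
        rcases hef with h1 | h1
        · exact hp.2 f.2 (by
            have : (p.1, f.2) = f := Prod.ext h1 rfl
            rw [this]; exact hf)
        · have h2 := h.lt f hf
          have h3 := hol_div a p.2
          rw [← h1] at h2
          simp only at h2
          omega
      · exfalso
        rcases hef with h1 | h1
        · exact hp.2 e.2 (by
            have : (p.1, e.2) = e := Prod.ext h1.symm rfl
            rw [this]; exact he)
        · have h2 := h.lt e he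
          have h3 := hol_div a p.2
          rw [h1] at h2
          simp only at h2
          omega
      · exact h.pm e he f hf hef
    · intro e he
      rcases hnew e he with rfl | he
      · simp only
        rw [hol_div]
        omega
      · have := h.lt e he
        omega
    · intro e he f hf hef
      rcases hnew e he with rfl | he <;> rcases hnew f hf with rfl | hf
      · rfl
      · exfalso
        simp only [hol_div] at hef
        have := h.lt f hf
        omega
      · exfalso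
        simp only [hol_div] at hef
        have := h.lt e he
        omega
      · exact h.one e he f hf hef
  · exact ⟨h.pm, fun e he => by have := h.lt e he; omega, h.one⟩

theorem nibble (hmn : n < m) {δ : Type*} (V : Finset δ) (C : δ → Finset (Fin m × Fin n)) {D : ℕ}
    (hC : ∀ d ∈ V, (C d).card = D) (a : ℕ) :
    ∃ β, Slots a β ∧ ∑ d ∈ V, phi (1 - 1 / (16 * m)) a β (C d) ≤
      (1 + D / (12 * (m : ℝ) ^ 2)) ^ a * (V.card * (1 - 1 / (16 * (m : ℝ))) ^ D) := by
  classical
  induction a with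
  | zero =>
    refine ⟨∅, ⟨fun e he => absurd he (notMem_empty _), fun e he => absurd he (notMem_empty _),
      fun e he => absurd he (notMem_empty _)⟩, ?_⟩
    rw [pow_zero, one_mul, ← nsmul_eq_mul, ← sum_const]
    refine sum_le_sum fun d hd => ?_
    unfold phi
    rw [if_neg (by rintro ⟨e, he, _⟩; exact notMem_empty _ he)]
    have h1 : Yc 0 ∅ (C d) = D := by
      unfold Yc
      rw [← hC d hd]
      congr 1
      rw [filter_eq_self]
      intro e _
      exact ⟨Nat.zero_le _, fun j h => notMem_empty _ h⟩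
    rw [h1]
  | succ a ih =>
    obtain ⟨β, h1, h2⟩ := ih
    obtain ⟨p, hp⟩ := step_all hmn V C (fun d hd => (hC d hd).le) a β
    refine ⟨addE a β p, h1.step p, hp.trans ?_⟩
    have h3 : (0 : ℝ) ≤ 1 + D / (12 * (m : ℝ) ^ 2) := by positivity
    calc (1 + D / (12 * (m : ℝ) ^ 2)) * ∑ d ∈ V, phi (1 - 1 / (16 * m)) a β (C d)
        ≤ (1 + D / (12 * (m : ℝ) ^ 2)) * ((1 + D / (12 * (m : ℝ) ^ 2)) ^ a *
            (V.card * (1 - 1 / (16 * (m : ℝ))) ^ D)) := mul_le_mul_of_nonneg_left h2 h3
      _ = (1 + D / (12 * (m : ℝ) ^ 2)) ^ (a + 1) *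
            (V.card * (1 - 1 / (16 * (m : ℝ))) ^ D) := by rw [pow_succ]; ring

/-- A family of fewer than `2 ^ q` sets of `64 m q` edges is hit by a matching which leaves one
hole of each pair free. -/
theorem exists_kill (hmn : n < m) {δ : Type*} (V : Finset δ) (C : δ → Finset (Fin m × Fin n))
    (q : ℕ) (hC : ∀ d ∈ V, 64 * m * q ≤ (C d).card) (hV : V.card < 2 ^ q) :
    ∃ β : Finset (Fin m × Fin n), IsPartialMatching β ∧
      (∀ s < n / 2, ∃ j : Fin n, j.val / 2 = s ∧ FreeHole β j) ∧
      ∀ d ∈ V, ∃ e ∈ β, e ∈ C d := by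
  classical
  have hsub : ∀ d ∈ V, ∃ C' ⊆ C d, C'.card = 64 * m * q := fun d hd =>
    exists_subset_card_eq (hC d hd)
  choose! C' hC1 hC2 using hsub
  obtain ⟨β, h1, h2⟩ := nibble hmn V C' hC2 ((n + 1) / 2)
  refine ⟨β, h1.pm, ?_, ?_⟩
  · intro s hs
    by_cases h3 : FreeHole β (⟨2 * s, by omega⟩ : Fin n)
    · exact ⟨_, by simp, h3⟩
    · refine ⟨⟨2 * s + 1, by omega⟩, by simp only; omega, ?_⟩
      unfold FreeHole at h3
      push Not at h3
      obtain ⟨i, hi⟩ := h3
      intro i' hi'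
      have h4 := h1.one _ hi _ hi' (by simp only; omega)
      have h5 := congrArg (fun e : Fin m × Fin n => e.2.val) h4
      simp only at h5
      omega
  · by_contra hcon
    push Not at hcon
    obtain ⟨d, hd, hnk⟩ := hcon
    have hm : (0 : ℝ) < m := by exact_mod_cast (by omega : 0 < m)
    have hm1 : (1 : ℝ) ≤ m := by exact_mod_cast (by omega : 1 ≤ m)
    have hu0 : (0 : ℝ) ≤ 1 - 1 / (16 * m) := by
      have : 1 / (16 * (m : ℝ)) ≤ 1 / 16 := one_div_le_one_div_of_le (by norm_num) (by linarith)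
      linarith
    have h3 : (1 : ℝ) ≤ ∑ d ∈ V, phi (1 - 1 / (16 * m)) ((n + 1) / 2) β (C' d) := by
      have h4 : phi (1 - 1 / (16 * (m : ℝ))) ((n + 1) / 2) β (C' d) = 1 := by
        unfold phi
        rw [if_neg]
        · have h5 : Yc ((n + 1) / 2) β (C' d) = 0 := by
            unfold Yc
            rw [card_eq_zero, filter_eq_empty_iff]
            intro e _ h6
            have := e.2.isLt
            omega
          rw [h5, pow_zero]
        · rintro ⟨e, he, he'⟩
          exact hnk e he (hC1 d hd he')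
      refine h4.symm.le.trans (single_le_sum
        (f := fun d => phi (1 - 1 / (16 * (m : ℝ))) ((n + 1) / 2) β (C' d)) (fun d _ => ?_) hd)
      unfold phi
      split_ifs
      · exact le_rfl
      · exact pow_nonneg hu0 _
    have h4 := h3.trans h2
    have hq0 : (0 : ℝ) ≤ q := Nat.cast_nonneg _
    -- the growth
    have h5 : (1 + ((64 * m * q : ℕ) : ℝ) / (12 * (m : ℝ) ^ 2)) ^ ((n + 1) / 2) ≤
        Real.exp (3 * q) := by
      have h6 : 1 + ((64 * m * q : ℕ) : ℝ) / (12 * (m : ℝ) ^ 2) ≤ Real.exp (16 * q / (3 * m)) := by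
        have h7 := Real.add_one_le_exp (16 * (q : ℝ) / (3 * m))
        refine le_trans (le_of_eq ?_) h7
        push_cast
        field_simp
        ring
      calc (1 + ((64 * m * q : ℕ) : ℝ) / (12 * (m : ℝ) ^ 2)) ^ ((n + 1) / 2)
          ≤ Real.exp (16 * q / (3 * m)) ^ ((n + 1) / 2) := by
            refine pow_le_pow_left₀ (by positivity) h6 _
        _ = Real.exp (((n + 1) / 2 : ℕ) * (16 * q / (3 * m))) := by rw [← Real.exp_nat_mul]
        _ ≤ Real.exp (3 * q) := by
            rw [Real.exp_le_exp]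
            have h8 : (((n + 1) / 2 : ℕ) : ℝ) ≤ m / 2 := by
              have h9 : 2 * ((n + 1) / 2) ≤ m := by omega
              have h10 : (2 : ℝ) * (((n + 1) / 2 : ℕ) : ℝ) ≤ m := by exact_mod_cast h9
              linarith
            calc (((n + 1) / 2 : ℕ) : ℝ) * (16 * q / (3 * m))
                ≤ (m / 2) * (16 * q / (3 * m)) :=
                  mul_le_mul_of_nonneg_right h8 (by positivity)
              _ = 8 / 3 * q := by field_simp; ring
              _ ≤ 3 * q := by nlinarith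
    have h6 : (1 - 1 / (16 * (m : ℝ))) ^ (64 * m * q) ≤ Real.exp (-(4 * q)) := by
      have h7 := Real.add_one_le_exp (-(1 / (16 * (m : ℝ))))
      have h8 : (1 - 1 / (16 * (m : ℝ))) ≤ Real.exp (-(1 / (16 * (m : ℝ)))) := by linarith
      calc (1 - 1 / (16 * (m : ℝ))) ^ (64 * m * q)
          ≤ Real.exp (-(1 / (16 * (m : ℝ)))) ^ (64 * m * q) := pow_le_pow_left₀ hu0 h8 _
        _ = Real.exp ((64 * m * q : ℕ) * -(1 / (16 * (m : ℝ)))) := by rw [← Real.exp_nat_mul]
        _ = Real.exp (-(4 * q)) := by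
            congr 1
            push_cast
            field_simp
            ring
    have h7 : (V.card : ℝ) < Real.exp q := by
      have h8 : (V.card : ℝ) < 2 ^ q := by exact_mod_cast hV
      refine h8.trans_le ?_
      have h9 : (2 : ℝ) ≤ Real.exp 1 := by
        have := Real.add_one_le_exp (1 : ℝ)
        linarith
      calc (2 : ℝ) ^ q ≤ Real.exp 1 ^ q := pow_le_pow_left₀ (by norm_num) h9 _
        _ = Real.exp q := by rw [← Real.exp_nat_mul, mul_one]
    have h8 : (V.card : ℝ) * (1 - 1 / (16 * (m : ℝ))) ^ (64 * m * q) ≤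
        V.card * Real.exp (-(4 * q)) := mul_le_mul_of_nonneg_left h6 (Nat.cast_nonneg _)
    have h9 : (V.card : ℝ) * Real.exp (-(4 * q)) < Real.exp q * Real.exp (-(4 * q)) :=
      mul_lt_mul_of_pos_right h7 (Real.exp_pos _)
    have h10 : (1 : ℝ) < Real.exp (3 * q) * (Real.exp q * Real.exp (-(4 * q))) := by
      calc (1 : ℝ) ≤ (1 + ((64 * m * q : ℕ) : ℝ) / (12 * (m : ℝ) ^ 2)) ^ ((n + 1) / 2) *
            (V.card * (1 - 1 / (16 * (m : ℝ))) ^ (64 * m * q)) := h4
        _ ≤ Real.exp (3 * q) * (V.card * (1 - 1 / (16 * (m : ℝ))) ^ (64 * m * q)) :=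
            mul_le_mul_of_nonneg_right h5 (mul_nonneg (Nat.cast_nonneg _) (pow_nonneg hu0 _))
        _ < Real.exp (3 * q) * (Real.exp q * Real.exp (-(4 * q))) :=
            mul_lt_mul_of_pos_left (h8.trans_lt h9) (Real.exp_pos _)
    rw [← Real.exp_add, ← Real.exp_add] at h10
    have h11 : 3 * (q : ℝ) + (q + -(4 * q)) = 0 := by ring
    rw [h11, Real.exp_zero] at h10
    exact lt_irrefl _ h10

end Nibble

section Memory

variable {F : Type*} [Field F] {m n : ℕ}

/-- Exponent vectors. -/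
abbrev Mono (m n : ℕ) : Type := ((Fin m × Fin n) × Bool) →₀ ℕ

/-- The value of the monomial `d` at the point of `μ` is one. -/
def Alive (μ : Finset (Fin m × Fin n)) (d : Mono m n) : Prop :=
  (∀ e, d (e, true) ≠ 0 → e ∈ μ) ∧ ∀ e, d (e, false) ≠ 0 → e ∉ μ

open Classical in
/-- The free holes. -/
noncomputable def freeHoles (β : Finset (Fin m × Fin n)) : Finset (Fin n) :=
  univ.filter fun j => FreeHole β j

open Classical in
/-- The free holes `j` such that the barred variable of `(i, j)` occurs in the monomial `d`. -/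
noncomputable def barred (β : Finset (Fin m × Fin n)) (d : Mono m n) (i : Fin m) :
    Finset (Fin n) :=
  univ.filter fun j => FreeHole β j ∧ d ((i, j), false) ≠ 0

/-- The value of the monomial `d` is zero at all partial matchings which contain `β`. -/
def Zero (β : Finset (Fin m × Fin n)) (d : Mono m n) : Prop :=
  ∀ ν, IsPartialMatching ν → β ⊆ ν → ¬ Alive ν d

theorem eval_mono (μ : Finset (Fin m × Fin n)) (d : Mono m n)
    [Decidable (Alive μ d)] :
    d.prod (fun v k => point F μ v ^ k) = if Alive μ d then 1 else 0 := by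
  classical
  split_ifs with h
  · obtain ⟨h1, h2⟩ := h
    refine Finset.prod_eq_one ?_
    rintro ⟨e, b⟩ hv
    rw [Finsupp.mem_support_iff] at hv
    have : point F μ (e, b) = 1 := by
      unfold point
      cases b with
      | true => simp [h1 e hv]
      | false => simp [h2 e hv]
    change point F μ (e, b) ^ d (e, b) = 1
    rw [this, one_pow]
  · unfold Alive at h
    rw [not_and_or] at h
    rcases h with h | h
    · push Not at h
      obtain ⟨e, hd, hem⟩ := h
      refine Finset.prod_eq_zero (i := (e, true)) (by rwa [Finsupp.mem_support_iff]) ?_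
      have : point F μ (e, true) = 0 := by simp [point, hem]
      change point F μ (e, true) ^ d (e, true) = 0
      rw [this, zero_pow hd]
    · push Not at h
      obtain ⟨e, hd, hem⟩ := h
      refine Finset.prod_eq_zero (i := (e, false)) (by rwa [Finsupp.mem_support_iff]) ?_
      have : point F μ (e, false) = 0 := by simp [point, hem]
      change point F μ (e, false) ^ d (e, false) = 0
      rw [this, zero_pow hd]

theorem eval_congr' {μ ν : Finset (Fin m × Fin n)} {p : Poly F m n}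
    (h : ∀ d ∈ p.support, (Alive μ d ↔ Alive ν d)) :
    eval (point F μ) p = eval (point F ν) p := by
  classical
  rw [MvPolynomial.eval_eq, MvPolynomial.eval_eq]
  refine Finset.sum_congr rfl fun d hd => ?_
  have h1 := h d hd
  have e1 := eval_mono (F := F) μ d
  have e2 := eval_mono (F := F) ν d
  have e3 : (∏ v ∈ d.support, point F μ v ^ d v) = ∏ v ∈ d.support, point F ν v ^ d v := by
    change d.prod (fun v k => point F μ v ^ k) = d.prod (fun v k => point F ν v ^ k)
    rw [e1, e2]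
    by_cases h3 : Alive ν d
    · rw [if_pos h3, if_pos (h1.2 h3)]
    · rw [if_neg h3, if_neg (fun h4 => h3 (h1.1 h4))]
  rw [e3]

/-- The edge `e` kills the monomial `d`. -/
def KillE (e : Fin m × Fin n) (d : Mono m n) : Prop :=
  d (e, false) ≠ 0 ∨ ∃ j, j ≠ e.2 ∧ d ((e.1, j), true) ≠ 0

/-- The monomial `d` has a full row. -/
def Full (d : Mono m n) : Prop := ∃ i, ∀ j, d ((i, j), false) ≠ 0

/-- Some edge of `ν` kills the monomial `d`. -/
def Kill (ν : Finset (Fin m × Fin n)) (d : Mono m n) : Prop := ∃ e ∈ ν, KillE e d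

theorem Kill.mono {ν ν' : Finset (Fin m × Fin n)} {d : Mono m n} (h : Kill ν d)
    (hs : ν ⊆ ν') : Kill ν' d := by
  obtain ⟨e, he, h'⟩ := h
  exact ⟨e, hs he, h'⟩

theorem Kill.not_alive {ν : Finset (Fin m × Fin n)} (hν : IsPartialMatching ν) {d : Mono m n}
    (h : Kill ν d) : ¬ Alive ν d := by
  obtain ⟨e, he, h' | ⟨j, hj, h'⟩⟩ := h
  · exact fun ha => ha.2 e h' he
  · intro ha
    have h1 := ha.1 _ h'
    have h2 := hν _ h1 _ he (Or.inl rfl)
    exact hj (congrArg Prod.snd h2)

theorem dec_mono {ν ν' : Finset (Fin m × Fin n)} {d : Mono m n} (h : Alive ν d ∨ Kill ν d)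
    (hs : ν ⊆ ν') : Alive ν' d ∨ Kill ν' d := by
  rcases h with h | h
  · by_cases h1 : ∃ e ∈ ν', d (e, false) ≠ 0
    · obtain ⟨e, he, h2⟩ := h1
      exact Or.inr ⟨e, he, Or.inl h2⟩
    · push Not at h1
      exact Or.inl ⟨fun e he => hs (h.1 e he), fun e he he' => he (h1 e he')⟩
  · exact Or.inr (h.mono hs)

/-- The monomial `d` is decided by `ν`. -/
def Dec (ν : Finset (Fin m × Fin n)) (d : Mono m n) : Prop := (Alive ν d ∧ ¬ Full d) ∨ Kill ν d

theorem Dec.mono {ν ν' : Finset (Fin m × Fin n)} {d : Mono m n} (h : Dec ν d)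
    (hs : ν ⊆ ν') : Dec ν' d := by
  rcases h with ⟨h, hf⟩ | h
  · exact (dec_mono (Or.inl h) hs).imp (fun h' => ⟨h', hf⟩) id
  · exact Or.inr (h.mono hs)

/-- A block: a set of alternatives. -/
abbrev Block (m n : ℕ) : Type := Finset (Finset (Fin m × Fin n))

/-- The holes of a block. -/
def hs (b : Block m n) : Finset (Fin n) := b.biUnion fun μ => μ.image Prod.snd

theorem mem_hs {b : Block m n} {μ : Finset (Fin m × Fin n)} (hμ : μ ∈ b) {e : Fin m × Fin n}
    (he : e ∈ μ) : e.2 ∈ hs b :=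
  mem_biUnion.2 ⟨μ, hμ, mem_image.2 ⟨e, he, rfl⟩⟩

/-- Some block covers the pigeon `i`. -/
def Cov (B : Finset (Block m n)) (i : Fin m) : Prop := ∃ b ∈ B, ∃ μ ∈ b, ∃ j, (i, j) ∈ μ

theorem Cov.mono {B B' : Finset (Block m n)} {i : Fin m} (h : Cov B i) (hs : B ⊆ B') :
    Cov B' i := by
  obtain ⟨b, hb, h⟩ := h
  exact ⟨b, hs hb, h⟩

/-- `c` chooses an alternative of each block. -/
def Ch (B : Finset (Block m n)) (c : Block m n → Finset (Fin m × Fin n)) : Prop :=
  ∀ b ∈ B, c b ∈ b

/-- The data of the construction. -/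
structure Par (m n : ℕ) where
  β : Finset (Fin m × Fin n)
  κ : ℕ
  Δ : ℕ
  hβ : IsPartialMatching β
  hΔ : Δ ≤ (freeHoles β).card

namespace Par

variable (P : Par m n)

open Classical in
/-- The free pigeons at which the monomials of `T` together have more than `κ` barred
variables. -/
noncomputable def busy (T : Finset (Mono m n)) : Finset (Fin m) :=
  univ.filter fun i => FreePigeon P.β i ∧
    P.κ < ((T.filter fun d => ¬ Zero P.β d ∧ ¬ Full d).biUnion fun d => barred P.β d i).card

/-- The matching of a choice. -/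
def rho (B : Finset (Block m n)) (c : Block m n → Finset (Fin m × Fin n)) :
    Finset (Fin m × Fin n) := P.β ∪ B.biUnion c

/-- The properties of the blocks of a state. -/
structure Good (B : Finset (Block m n)) : Prop where
  ne : ∀ b ∈ B, b.Nonempty
  pm : ∀ b ∈ B, ∀ μ ∈ b, IsPartialMatching μ
  dom : ∀ b ∈ B, ∀ μ ∈ b, ∀ μ' ∈ b, ∀ e ∈ μ, ∃ j, (e.1, j) ∈ μ'
  flip : ∀ b ∈ B, ∀ μ ∈ b, ∀ e ∈ μ, ∃ μ' ∈ b, ∃ j, j ≠ e.2 ∧ (e.1, j) ∈ μ'
  disj : ∀ b ∈ B, ∀ b' ∈ B, ∀ μ ∈ b, ∀ μ' ∈ b', ∀ e ∈ μ, ∀ e' ∈ μ',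
    (e.1 = e'.1 ∨ e.2 = e'.2) → b = b'
  free : ∀ b ∈ B, ∀ μ ∈ b, ∀ e ∈ μ, FreePigeon P.β e.1 ∧ FreeHole P.β e.2
  holes : ∀ b ∈ B, (hs b).card ≤ 4

/-- `B'` extends `B` by blocks whose edges do not occur barred in `T`. -/
structure Ext (T : Finset (Mono m n)) (B B' : Finset (Block m n)) : Prop where
  sub : B ⊆ B'
  good : P.Good B'
  av : ∀ b ∈ B', b ∉ B → ∀ μ ∈ b, ∀ e ∈ μ, ∀ d ∈ T, ¬ Zero P.β d ∧ ¬ Full d → d (e, false) = 0

/-- All choices decide the monomial `d`. -/
def Ready (B : Finset (Block m n)) (d : Mono m n) : Prop :=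
  ∀ c, Ch B c → Dec (P.rho B c) d

variable {P}

theorem base_sub (B : Finset (Block m n)) (c : Block m n → Finset (Fin m × Fin n)) :
    P.β ⊆ P.rho B c := subset_union_left

theorem rho_mono {B B' : Finset (Block m n)} (h : B ⊆ B')
    (c : Block m n → Finset (Fin m × Fin n)) : P.rho B c ⊆ P.rho B' c :=
  union_subset_union_right (biUnion_subset_biUnion_of_subset_left _ h)

theorem Ready.mono {B B' : Finset (Block m n)} {d : Mono m n} (h : P.Ready B d) (hs : B ⊆ B') :
    P.Ready B' d := fun c hc =>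
  (h c fun b hb => hc b (hs hb)).mono (rho_mono hs c)

theorem Good.rho_pm {B : Finset (Block m n)} (h : P.Good B)
    {c : Block m n → Finset (Fin m × Fin n)} (hc : Ch B c) : IsPartialMatching (P.rho B c) := by
  intro e he f hf hef
  unfold rho at he hf
  rw [mem_union, mem_biUnion] at he hf
  rcases he with he | ⟨b, hb, he⟩ <;> rcases hf with hf | ⟨b', hb', hf⟩
  · exact P.hβ e he f hf hef
  · exfalso
    obtain ⟨h1, h2⟩ := h.free b' hb' _ (hc b' hb') f hf
    rcases hef with h3 | h3
    · exact h1 e.2 (by rw [← h3]; exact he)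
    · exact h2 e.1 (by rw [← h3]; exact he)
  · exfalso
    obtain ⟨h1, h2⟩ := h.free b hb _ (hc b hb) e he
    rcases hef with h3 | h3
    · exact h1 f.2 (by rw [h3]; exact hf)
    · exact h2 f.1 (by rw [h3]; exact hf)
  · have h1 := h.disj b hb b' hb' _ (hc b hb) _ (hc b' hb') e he f hf hef
    subst h1
    exact h.pm b hb _ (hc b hb) e he f hf hef

/-- A new block for an uncovered pigeon. -/
theorem add_block {T : Finset (Mono m n)} {B B' : Finset (Block m n)} (h : P.Ext T B B')
    (ho : ∀ i ∈ P.busy T, Cov B i) (X : Finset (Fin n))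
    (hc : 4 * B'.card + P.κ + X.card + 2 ≤ P.Δ) {i : Fin m} (hi : FreePigeon P.β i)
    (hi' : ¬ Cov B' i) :
    ∃ j j', j ≠ j' ∧ j ∉ X ∧ j' ∉ X ∧ P.Ext T B (insert {{(i, j)}, {(i, j')}} B') := by
  classical
  have hno : i ∉ P.busy T := fun h1 => hi' ((ho i h1).mono h.sub)
  have hk : ((T.filter fun d => ¬ Zero P.β d ∧ ¬ Full d).biUnion
      fun d => barred P.β d i).card ≤ P.κ := by
    by_contra h1
    exact hno (mem_filter.2 ⟨mem_univ _, hi, not_le.1 h1⟩)
  set Y := X ∪ (B'.biUnion hs ∪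
    (T.filter fun d => ¬ Zero P.β d ∧ ¬ Full d).biUnion fun d => barred P.β d i) with hY
  have hYc : Y.card ≤ X.card + (4 * B'.card + P.κ) := by
    refine (card_union_le _ _).trans (Nat.add_le_add_left ((card_union_le _ _).trans
      (Nat.add_le_add ?_ hk)) _)
    refine card_biUnion_le.trans ((sum_le_sum fun b hb => h.good.holes b hb).trans ?_)
    rw [sum_const, smul_eq_mul, mul_comm]
  have h1 : 1 < (freeHoles P.β \ Y).card := by
    have h2 := le_card_sdiff Y (freeHoles P.β)
    have h3 := P.hΔ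
    omega
  obtain ⟨j, hj, j', hj', hjj⟩ := one_lt_card.1 h1
  have hfact : ∀ a ∈ freeHoles P.β \ Y, FreeHole P.β a ∧ a ∉ X ∧
      (∀ b ∈ B', a ∉ hs b) ∧ ∀ d ∈ T, ¬ Zero P.β d ∧ ¬ Full d → d ((i, a), false) = 0 := by
    intro a ha
    rw [mem_sdiff] at ha
    unfold freeHoles at ha
    rw [mem_filter, hY, mem_union, mem_union, not_or, not_or] at ha
    refine ⟨ha.1.2, ha.2.1, fun b hb hab => ha.2.2.1 (mem_biUnion.2 ⟨b, hb, hab⟩), ?_⟩
    intro d hd hz
    by_contra h9
    refine ha.2.2.2 (mem_biUnion.2 ⟨d, mem_filter.2 ⟨hd, hz⟩, ?_⟩)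
    unfold barred
    exact mem_filter.2 ⟨mem_univ _, ha.1.2, h9⟩
  obtain ⟨a1, a2, a3, a4⟩ := hfact j hj
  obtain ⟨b1, b2, b3, b4⟩ := hfact j' hj'
  have hmem : ∀ μ ∈ ({{(i, j)}, {(i, j')}} : Block m n), μ = {(i, j)} ∨ μ = {(i, j')} := by
    intro μ hμ
    rw [mem_insert, mem_singleton] at hμ
    exact hμ
  have hedge : ∀ μ ∈ ({{(i, j)}, {(i, j')}} : Block m n), ∀ e ∈ μ, e = (i, j) ∨ e = (i, j') := by
    intro μ hμ e he
    rcases hmem μ hμ with rfl | rfl
    · exact Or.inl (mem_singleton.1 he)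
    · exact Or.inr (mem_singleton.1 he)
  have hcross : ∀ b ∈ B', ∀ μ ∈ b, ∀ e ∈ μ, ∀ μ' ∈ ({{(i, j)}, {(i, j')}} : Block m n),
      ∀ e' ∈ μ', ¬ (e.1 = e'.1 ∨ e.2 = e'.2) := by
    intro b hb μ hμ e he μ' hμ' e' he' hee
    rcases hedge μ' hμ' e' he' with rfl | rfl
    · rcases hee with h5 | h5
      · exact hi' ⟨b, hb, μ, hμ, e.2, by simp only at h5; rw [← h5]; exact he⟩
      · simp only at h5
        exact a3 b hb (by rw [← h5]; exact mem_hs hμ he)
    · rcases hee with h5 | h5
      · exact hi' ⟨b, hb, μ, hμ, e.2, by simp only at h5; rw [← h5]; exact he⟩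
      · simp only at h5
        exact b3 b hb (by rw [← h5]; exact mem_hs hμ he)
  refine ⟨j, j', hjj, a2, b2, h.sub.trans (subset_insert _ _), ⟨?_, ?_, ?_, ?_, ?_, ?_, ?_⟩, ?_⟩
  · intro b hb
    rw [mem_insert] at hb
    rcases hb with rfl | hb
    · exact insert_nonempty _ _
    · exact h.good.ne b hb
  · intro b hb μ hμ
    rw [mem_insert] at hb
    rcases hb with rfl | hb
    · intro e he f hf _
      rcases hmem μ hμ with rfl | rfl
      · rw [mem_singleton.1 he, mem_singleton.1 hf]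
      · rw [mem_singleton.1 he, mem_singleton.1 hf]
    · exact h.good.pm b hb μ hμ
  · intro b hb μ hμ μ' hμ' e he
    rw [mem_insert] at hb
    rcases hb with rfl | hb
    · have h6 : e.1 = i := by
        rcases hedge μ hμ e he with rfl | rfl <;> rfl
      rw [h6]
      rcases hmem μ' hμ' with rfl | rfl
      · exact ⟨j, mem_singleton_self _⟩
      · exact ⟨j', mem_singleton_self _⟩
    · exact h.good.dom b hb μ hμ μ' hμ' e he
  · intro b hb μ hμ e he
    rw [mem_insert] at hb
    rcases hb with rfl | hb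
    · rcases hedge μ hμ e he with rfl | rfl
      · exact ⟨{(i, j')}, mem_insert_of_mem (mem_singleton_self _), j', hjj.symm,
          mem_singleton_self _⟩
      · exact ⟨{(i, j)}, mem_insert_self _ _, j, hjj, mem_singleton_self _⟩
    · exact h.good.flip b hb μ hμ e he
  · intro b hb b' hb' μ hμ μ' hμ' e he e' he' hee
    rw [mem_insert] at hb hb'
    rcases hb with rfl | hb <;> rcases hb' with rfl | hb'
    · rfl
    · exact absurd (hee.imp Eq.symm Eq.symm) (hcross b' hb' μ' hμ' e' he' μ hμ e he)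
    · exact absurd hee (hcross b hb μ hμ e he μ' hμ' e' he')
    · exact h.good.disj b hb b' hb' μ hμ μ' hμ' e he e' he' hee
  · intro b hb μ hμ e he
    rw [mem_insert] at hb
    rcases hb with rfl | hb
    · rcases hedge μ hμ e he with rfl | rfl
      · exact ⟨hi, a1⟩
      · exact ⟨hi, b1⟩
    · exact h.good.free b hb μ hμ e he
  · intro b hb
    rw [mem_insert] at hb
    rcases hb with rfl | hb
    · have h7 : hs ({{(i, j)}, {(i, j')}} : Block m n) ⊆ {j, j'} := by
        intro a ha
        unfold hs at ha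
        rw [mem_biUnion] at ha
        obtain ⟨μ, hμ, ha⟩ := ha
        rw [mem_image] at ha
        obtain ⟨e, he, rfl⟩ := ha
        rcases hedge μ hμ e he with rfl | rfl
        · exact mem_insert_self _ _
        · exact mem_insert_of_mem (mem_singleton_self _)
      have h8 := (card_le_card h7).trans (card_le_two)
      omega
    · exact h.good.holes b hb
  · intro b hb hbB μ hμ e he d hd hz
    rw [mem_insert] at hb
    rcases hb with rfl | hb
    · rcases hedge μ hμ e he with rfl | rfl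
      · exact a4 d hd hz
      · exact b4 d hd hz
    · exact h.av b hb hbB μ hμ e he d hd hz

theorem add_pigeon {T : Finset (Mono m n)} {B B' : Finset (Block m n)} (h : P.Ext T B B')
    (ho : ∀ i ∈ P.busy T, Cov B i) (hc : 4 * B'.card + P.κ + 2 ≤ P.Δ) (i : Fin m) :
    ∃ B'', B' ⊆ B'' ∧ P.Ext T B B'' ∧ B''.card ≤ B'.card + 1 ∧ (¬ FreePigeon P.β i ∨ Cov B'' i) := by
  classical
  by_cases hi : ¬ FreePigeon P.β i ∨ Cov B' i
  · exact ⟨B', Subset.rfl, h, by omega, hi⟩
  rw [not_or, not_not] at hi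
  obtain ⟨j, j', _, _, _, g⟩ := add_block h ho ∅ (by simpa using hc) hi.1 hi.2
  exact ⟨_, subset_insert _ _, g, card_insert_le _ _, Or.inr ⟨_, mem_insert_self _ _, {(i, j)},
    mem_insert_self _ _, j, mem_singleton_self _⟩⟩

theorem match_set {T : Finset (Mono m n)} {B B' : Finset (Block m n)} (h : P.Ext T B B')
    (ho : ∀ i ∈ P.busy T, Cov B i) (H : Finset (Fin m)) :
    4 * (B'.card + H.card) + P.κ + 2 ≤ P.Δ →
    ∃ B'', B' ⊆ B'' ∧ P.Ext T B B'' ∧ B''.card ≤ B'.card + H.card ∧
      ∀ i ∈ H, (¬ FreePigeon P.β i ∨ Cov B'' i) := by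
  classical
  induction H using Finset.induction_on with
  | empty =>
    intro _
    exact ⟨B', Subset.rfl, h, by simp, fun i hi => absurd hi (notMem_empty _)⟩
  | insert i H hiH ih =>
    intro hc
    rw [card_insert_of_notMem hiH] at hc
    obtain ⟨ν₁, g1, g2, g3, g4⟩ := ih (by omega)
    obtain ⟨ν₂, f1, f2, f3, f4⟩ := add_pigeon g2 ho (by omega) i
    refine ⟨ν₂, g1.trans f1, f2, ?_, ?_⟩
    · rw [card_insert_of_notMem hiH]
      omega
    · intro i' hi'
      rw [mem_insert] at hi'
      rcases hi' with rfl | hi'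
      · exact f4
      · exact (g4 i' hi').imp id fun h5 => h5.mono f1

/-- One new block decides the monomial `d`. -/
theorem decide_one {T : Finset (Mono m n)} {B B' : Finset (Block m n)} (h : P.Ext T B B')
    (ho : ∀ i ∈ P.busy T, Cov B i) (hc : 4 * B'.card + P.κ + 3 ≤ P.Δ) (d : Mono m n) :
    ∃ B'', B' ⊆ B'' ∧ P.Ext T B B'' ∧ B''.card ≤ B'.card + 1 ∧ P.Ready B'' d := by
  classical
  by_cases hfull : Full d
  · obtain ⟨i, hi⟩ := hfull
    obtain ⟨B'', f1, f2, f3, f4⟩ := add_pigeon h ho (by omega) i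
    refine ⟨B'', f1, f2, f3, fun c hc' => Or.inr ?_⟩
    rcases f4 with h3 | ⟨b, hb, μ, hμ, j, hj⟩
    · unfold FreePigeon at h3
      push Not at h3
      obtain ⟨j, hj⟩ := h3
      exact ⟨(i, j), base_sub _ _ hj, Or.inl (hi j)⟩
    · obtain ⟨j', hj'⟩ := f2.good.dom b hb μ hμ _ (hc' b hb) _ hj
      exact ⟨(i, j'), mem_union_right _ (mem_biUnion.2 ⟨b, hb, hj'⟩), Or.inl (hi j')⟩
  by_cases h1 : ∃ i j, d ((i, j), true) ≠ 0 ∧ FreePigeon P.β i ∧ ¬ Cov B' i
  · obtain ⟨i, j₀, h2, h3, h4⟩ := h1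
    obtain ⟨j, j', _, hj, hj', g⟩ := add_block h ho {j₀} (by simpa using hc) h3 h4
    refine ⟨_, subset_insert _ _, g, card_insert_le _ _, fun c hc' => Or.inr ?_⟩
    have h5 := hc' _ (mem_insert_self _ _)
    have h6 : ∃ a, a ≠ j₀ ∧ (i, a) ∈ c {{(i, j)}, {(i, j')}} := by
      rw [mem_insert, mem_singleton] at h5
      rcases h5 with h5 | h5
      · exact ⟨j, fun h7 => hj (mem_singleton.2 h7), by rw [h5]; exact mem_singleton_self _⟩
      · exact ⟨j', fun h7 => hj' (mem_singleton.2 h7), by rw [h5]; exact mem_singleton_self _⟩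
    obtain ⟨a, ha, ha'⟩ := h6
    exact ⟨(i, a), mem_union_right _ (mem_biUnion.2 ⟨_, mem_insert_self _ _, ha'⟩),
      Or.inr ⟨j₀, fun h7 => ha h7.symm, h2⟩⟩
  · refine ⟨B', Subset.rfl, h, by omega, fun c hc' => ?_⟩
    by_cases hk : Kill (P.rho B' c) d
    · exact Or.inr hk
    refine Or.inl ⟨⟨fun e he => ?_, fun e he he' => hk ⟨e, he', Or.inl he⟩⟩, hfull⟩
    have h2 : ∃ j, (e.1, j) ∈ P.rho B' c := by
      by_cases h3 : FreePigeon P.β e.1
      · have h4 : Cov B' e.1 := by
          by_contra h5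
          exact h1 ⟨e.1, e.2, he, h3, h5⟩
        obtain ⟨b, hb, μ, hμ, j, hj⟩ := h4
        obtain ⟨j', hj'⟩ := h.good.dom b hb μ hμ _ (hc' b hb) _ hj
        exact ⟨j', mem_union_right _ (mem_biUnion.2 ⟨b, hb, hj'⟩)⟩
      · unfold FreePigeon at h3
        push Not at h3
        obtain ⟨j, hj⟩ := h3
        exact ⟨j, base_sub _ _ hj⟩
    obtain ⟨j, hj⟩ := h2
    by_cases h3 : e.2 = j
    · have h4 : e = (e.1, j) := Prod.ext rfl h3
      rw [h4]
      exact hj
    · exact absurd ⟨_, hj, Or.inr ⟨e.2, h3, he⟩⟩ hk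

theorem decide_all {T : Finset (Mono m n)} {B B' : Finset (Block m n)} (h : P.Ext T B B')
    (ho : ∀ i ∈ P.busy T, Cov B i) (E : Finset (Mono m n)) :
    4 * (B'.card + E.card) + P.κ + 3 ≤ P.Δ →
    ∃ B'', B' ⊆ B'' ∧ P.Ext T B B'' ∧ B''.card ≤ B'.card + E.card ∧
      ∀ d ∈ E, P.Ready B'' d := by
  classical
  induction E using Finset.induction_on with
  | empty =>
    intro _
    exact ⟨B', Subset.rfl, h, by simp, fun i hi => absurd hi (notMem_empty _)⟩
  | insert d E hdE ih =>
    intro hc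
    rw [card_insert_of_notMem hdE] at hc
    obtain ⟨ν₁, g1, g2, g3, g4⟩ := ih (by omega)
    obtain ⟨ν₂, f1, f2, f3, f4⟩ := decide_one g2 ho (by omega) d
    refine ⟨ν₂, g1.trans f1, f2, ?_, ?_⟩
    · rw [card_insert_of_notMem hdE]
      omega
    · intro d' hd'
      rw [mem_insert] at hd'
      rcases hd' with rfl | hd'
      · exact f4
      · exact (g4 d' hd').mono f1

/-- The monomials of `T` keep their values. -/
theorem alive_iff {T : Finset (Mono m n)} {B B' : Finset (Block m n)} (h : P.Ext T B B')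
    (hB : P.Good B) (hd : ∀ d ∈ T, ¬ Zero P.β d → P.Ready B d)
    {c : Block m n → Finset (Fin m × Fin n)} (hc : Ch B' c) {d : Mono m n} (hdT : d ∈ T) :
    Alive (P.rho B c) d ↔ Alive (P.rho B' c) d := by
  classical
  have hcB : Ch B c := fun b hb => hc b (h.sub hb)
  by_cases hz : Zero P.β d
  · exact iff_of_false (hz _ (hB.rho_pm hcB) (base_sub _ _))
      (hz _ (h.good.rho_pm hc) (base_sub _ _))
  rcases hd d hdT hz c hcB with ⟨h1, hf⟩ | h1
  · refine iff_of_true h1 ⟨fun e he => rho_mono h.sub c (h1.1 e he), fun e he he' => ?_⟩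
    have h2 := h1.2 e he
    unfold rho at he' h2
    rw [mem_union, mem_biUnion] at he' h2
    rw [not_or] at h2
    rcases he' with he' | ⟨b, hb, he'⟩
    · exact h2.1 he'
    · by_cases hbB : b ∈ B
      · exact h2.2 ⟨b, hbB, he'⟩
      · exact he (h.av b hb hbB _ (hc b hb) e he' d hdT ⟨hz, hf⟩)
  · exact iff_of_false (h1.not_alive (hB.rho_pm hcB))
      ((h1.mono (rho_mono h.sub c)).not_alive (h.good.rho_pm hc))

theorem isPM_pair {a b : Fin m × Fin n} (h : ¬ (a.1 = b.1 ∨ a.2 = b.2)) :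
    IsPartialMatching ({a, b} : Finset (Fin m × Fin n)) := by
  intro e he f hf hef
  rw [mem_insert, mem_singleton] at he hf
  rcases he with rfl | rfl <;> rcases hf with rfl | rfl
  · rfl
  · exact absurd hef h
  · exact absurd (hef.imp Eq.symm Eq.symm) h
  · rfl

/-- Hall's theorem gives two own values for each element outside a maximal set which is
contracted. -/
theorem exists_split {α γ : Type*} [DecidableEq α] [DecidableEq γ] (U : Finset α)
    (N : α → Finset γ) (Z : Finset γ) :
    ∃ S ⊆ U, (S.biUnion N \ Z).card ≤ 2 * S.card ∧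
      ∃ f : {d // d ∈ U \ S} × Bool → γ, Function.Injective f ∧
        ∀ x, f x ∈ N x.1.1 ∧ f x ∉ S.biUnion N ∧ f x ∉ Z := by
  classical
  obtain ⟨S, hS, hmax⟩ := exists_max_image
    (U.powerset.filter fun S => (S.biUnion N \ Z).card ≤ 2 * S.card) Finset.card
    ⟨∅, by simp⟩
  rw [mem_filter, mem_powerset] at hS
  refine ⟨S, hS.1, hS.2, ?_⟩
  have hall : ∀ A : Finset ({d // d ∈ U \ S} × Bool),
      A.card ≤ (A.biUnion fun x => N x.1.1 \ (S.biUnion N ∪ Z)).card := by
    intro A
    set W : Finset α := A.image fun x => x.1.1 with hW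
    have h1 : A.card ≤ 2 * W.card := by
      have h2 : A.card ≤ (W ×ˢ (univ : Finset Bool)).card := by
        refine card_le_card_of_injOn (fun x => (x.1.1, x.2)) ?_ ?_
        · intro x hx
          rw [mem_coe] at hx
          rw [mem_coe]
          exact mem_product.2 ⟨mem_image.2 ⟨x, hx, rfl⟩, mem_univ _⟩
        · intro x _ y _ hxy
          obtain ⟨h3, h4⟩ := Prod.mk.inj hxy
          exact Prod.ext (Subtype.ext h3) h4
      rw [card_product, card_univ, Fintype.card_bool] at h2
      omega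
    refine h1.trans ?_
    have hWU : ∀ d ∈ W, d ∈ U ∧ d ∉ S := by
      intro d hd
      rw [hW, mem_image] at hd
      obtain ⟨x, _, rfl⟩ := hd
      exact mem_sdiff.1 x.1.2
    have h5 : (A.biUnion fun x => N x.1.1 \ (S.biUnion N ∪ Z)) =
        W.biUnion fun d => N d \ (S.biUnion N ∪ Z) := by
      rw [hW, image_biUnion]
    rw [h5]
    by_contra hcon
    push Not at hcon
    have hWne : W.Nonempty := by
      rw [nonempty_iff_ne_empty]
      intro h6
      rw [h6] at hcon
      simp at hcon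
    have hdisj : Disjoint S W := by
      rw [disjoint_left]
      intro d hd hd'
      exact (hWU d hd').2 hd
    have hcard : (S ∪ W).card = S.card + W.card := card_union_of_disjoint hdisj
    have h7 : ((S ∪ W).biUnion N \ Z).card ≤ 2 * (S ∪ W).card := by
      have h8 : (S ∪ W).biUnion N \ Z ⊆
          (S.biUnion N \ Z) ∪ W.biUnion fun d => N d \ (S.biUnion N ∪ Z) := by
        intro b hb
        rw [mem_sdiff, mem_biUnion] at hb
        obtain ⟨⟨d, hd, hb1⟩, hb2⟩ := hb
        rw [mem_union, mem_sdiff]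
        by_cases h9 : b ∈ S.biUnion N
        · exact Or.inl ⟨h9, hb2⟩
        · right
          rw [mem_union] at hd
          rcases hd with hd | hd
          · exact absurd (mem_biUnion.2 ⟨d, hd, hb1⟩) h9
          · refine mem_biUnion.2 ⟨d, hd, mem_sdiff.2 ⟨hb1, ?_⟩⟩
            rw [mem_union, not_or]
            exact ⟨h9, hb2⟩
      have h9 := (card_le_card h8).trans (card_union_le _ _)
      rw [hcard]
      have := hS.2
      omega
    have h10 := hmax (S ∪ W) (mem_filter.2
      ⟨mem_powerset.2 (union_subset hS.1 fun d hd => (hWU d hd).1), h7⟩)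
    have h11 := card_pos.2 hWne
    omega
  obtain ⟨f, hf1, hf2⟩ := (all_card_le_biUnion_card_iff_exists_injective _).1 hall
  refine ⟨f, hf1, fun x => ?_⟩
  have h := hf2 x
  rw [mem_sdiff, mem_union, not_or] at h
  exact ⟨h.1, h.2.1, h.2.2⟩

/-- A small state with the same values. -/
theorem reduce {B : Finset (Block m n)} (hB : P.Good B) (T : Finset (Mono m n))
    (hT : ∀ d ∈ T, ¬ Zero P.β d → P.Ready B d) (H : Finset (Fin m)) (hH : ∀ i ∈ H, Cov B i) :
    ∃ B' : Finset (Block m n), P.Good B' ∧ B'.card ≤ 2 * T.card + H.card ∧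
      (∀ d ∈ T, ¬ Zero P.β d → P.Ready B' d) ∧ (∀ i ∈ H, Cov B' i) ∧
      ∀ c', Ch B' c' → ∃ c, Ch B c ∧ ∀ d ∈ T,
        (Alive (P.rho B' c') d ↔ Alive (P.rho B c) d) := by
  classical
  set Z : Finset (Block m n) := B.filter fun b => ∃ i ∈ H, ∃ μ ∈ b, ∃ j, (i, j) ∈ μ with hZ
  have hZc : Z.card ≤ H.card := by
    let g : Fin m → Block m n := fun i => if h : Cov B i then h.choose else ∅
    have h1 : Z ⊆ H.image g := by
      intro b hb
      obtain ⟨hb1, i, hi, μ, hμ, j, hj⟩ := mem_filter.1 hb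
      have hc : Cov B i := ⟨b, hb1, μ, hμ, j, hj⟩
      refine mem_image.2 ⟨i, hi, ?_⟩
      simp only [g, dif_pos hc]
      obtain ⟨h2, μ', hμ', j', hj'⟩ := hc.choose_spec
      exact hB.disj _ h2 b hb1 μ' hμ' μ hμ _ hj' _ hj (Or.inl rfl)
    exact (card_le_card h1).trans card_image_le
  set U := T.filter (fun d => ¬ Zero P.β d) with hU
  set N : Mono m n → Finset (Block m n) := fun d => B.filter fun b => ∃ μ ∈ b, Kill μ d with hN
  obtain ⟨S, hSU, hSc, f, hfi, hf⟩ := exists_split U N Z
  set R := S.biUnion N ∪ Z with hR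
  have hRB : R ⊆ B := union_subset (biUnion_subset.2 fun d _ => filter_subset _ _)
    (filter_subset _ _)
  have hfB : ∀ x, f x ∈ B := fun x => (mem_filter.1 (hf x).1).1
  have hfR : ∀ x, f x ∉ R := fun x => by
    rw [hR, mem_union, not_or]
    exact ⟨(hf x).2.1, (hf x).2.2⟩
  have hx : ∀ x, ∃ (μ μ' : Finset (Fin m × Fin n)) (e e' : Fin m × Fin n), μ ∈ f x ∧
      μ' ∈ f x ∧ e ∈ μ ∧ e' ∈ μ' ∧ e'.1 = e.1 ∧ e'.2 ≠ e.2 ∧ KillE e x.1.1 := by
    intro x
    obtain ⟨_, μ, hμ, e, he, hk⟩ := mem_filter.1 (hf x).1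
    obtain ⟨μ', hμ', j, hj, hj'⟩ := hB.flip _ (hfB x) μ hμ e he
    exact ⟨μ, μ', e, (e.1, j), hμ, hμ', he, hj', rfl, hj, hk⟩
  choose μ μ' e e' hμ hμ' he he' h11 h22 hk using hx
  have hE : ∀ x a, (a = e x ∨ a = e' x) → ∃ ν ∈ f x, a ∈ ν := by
    rintro x a (rfl | rfl)
    · exact ⟨μ x, hμ x, he x⟩
    · exact ⟨μ' x, hμ' x, he' x⟩
  have hxy : ∀ x y a a', (a = e x ∨ a = e' x) → (a' = e y ∨ a' = e' y) →
      (a.1 = a'.1 ∨ a.2 = a'.2) → x = y := by
    intro x y a a' ha ha' h
    obtain ⟨ν, hν, haν⟩ := hE x a ha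
    obtain ⟨ν', hν', haν'⟩ := hE y a' ha'
    exact hfi (hB.disj _ (hfB x) _ (hfB y) ν hν ν' hν' a haν a' haν' h)
  have hxR : ∀ x a, (a = e x ∨ a = e' x) → ∀ b ∈ R, ∀ ν ∈ b, ∀ a' ∈ ν,
      ¬ (a.1 = a'.1 ∨ a.2 = a'.2) := by
    intro x a ha b hb ν hν a' ha' h
    obtain ⟨ν', hν', haν'⟩ := hE x a ha
    have h1 := hB.disj _ (hfB x) b (hRB hb) ν' hν' ν hν a haν' a' ha' h
    exact hfR x (by rw [h1]; exact hb)
  let nb : {d // d ∈ U \ S} → Block m n := fun d =>
    {{e (d, true), e' (d, false)}, {e' (d, true), e (d, false)}}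
  have hnb : ∀ d, ∀ ν ∈ nb d,
      ν = {e (d, true), e' (d, false)} ∨ ν = {e' (d, true), e (d, false)} := by
    intro d ν hν
    simp only [nb] at hν
    rw [mem_insert, mem_singleton] at hν
    exact hν
  have hnbe : ∀ d, ∀ ν ∈ nb d, ∀ a ∈ ν,
      ∃ x : {d // d ∈ U \ S} × Bool, x.1 = d ∧ (a = e x ∨ a = e' x) := by
    intro d ν hν a ha
    rcases hnb d ν hν with rfl | rfl <;> rw [mem_insert, mem_singleton] at ha
    · rcases ha with rfl | rfl
      · exact ⟨(d, true), rfl, Or.inl rfl⟩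
      · exact ⟨(d, false), rfl, Or.inr rfl⟩
    · rcases ha with rfl | rfl
      · exact ⟨(d, true), rfl, Or.inr rfl⟩
      · exact ⟨(d, false), rfl, Or.inl rfl⟩
  have hnbd : ∀ (x : {d // d ∈ U \ S} × Bool), ∀ ν ∈ nb x.1, e x ∈ ν ∨ e' x ∈ ν := by
    rintro ⟨d, b⟩ ν hν
    rcases hnb d ν hν with rfl | rfl <;> cases b <;> simp
  have hnbf : ∀ (x : {d // d ∈ U \ S} × Bool),
      (∃ ν ∈ nb x.1, e x ∈ ν) ∧ ∃ ν ∈ nb x.1, e' x ∈ ν := by
    rintro ⟨d, b⟩
    cases b
    · exact ⟨⟨{e' (d, true), e (d, false)}, by simp [nb], by simp⟩,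
        ⟨{e (d, true), e' (d, false)}, by simp [nb], by simp⟩⟩
    · exact ⟨⟨{e (d, true), e' (d, false)}, by simp [nb], by simp⟩,
        ⟨{e' (d, true), e (d, false)}, by simp [nb], by simp⟩⟩
  set B' := R ∪ univ.image nb with hB'
  have hB'mem : ∀ b ∈ B', b ∈ R ∨ ∃ d, nb d = b := by
    intro b hb
    rw [hB', mem_union, mem_image] at hb
    rcases hb with hb | ⟨d, _, hb⟩
    · exact Or.inl hb
    · exact Or.inr ⟨d, hb⟩
  have hnbB : ∀ d, nb d ∈ B' := fun d => mem_union_right _ (mem_image.2 ⟨d, mem_univ _, rfl⟩)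
  have hgood : P.Good B' := by
    refine ⟨?_, ?_, ?_, ?_, ?_, ?_, ?_⟩
    · intro b hb
      rcases hB'mem b hb with hb | ⟨d, rfl⟩
      · exact hB.ne b (hRB hb)
      · exact insert_nonempty _ _
    · intro b hb ν hν
      rcases hB'mem b hb with hb | ⟨d, rfl⟩
      · exact hB.pm b (hRB hb) ν hν
      · have hne : ∀ a a', (a = e (d, true) ∨ a = e' (d, true)) →
            (a' = e (d, false) ∨ a' = e' (d, false)) → ¬ (a.1 = a'.1 ∨ a.2 = a'.2) := by
          intro a a' ha ha' h
          have := hxy (d, true) (d, false) a a' ha ha' h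
          simp at this
        rcases hnb d ν hν with rfl | rfl
        · exact isPM_pair (hne _ _ (Or.inl rfl) (Or.inr rfl))
        · exact isPM_pair (hne _ _ (Or.inr rfl) (Or.inl rfl))
    · intro b hb ν hν ν' hν' a ha
      rcases hB'mem b hb with hb | ⟨d, rfl⟩
      · exact hB.dom b (hRB hb) ν hν ν' hν' a ha
      · obtain ⟨x, rfl, hx⟩ := hnbe d ν hν a ha
        have ha1 : a.1 = (e x).1 := by
          rcases hx with rfl | rfl
          · rfl
          · exact h11 x
        rw [ha1]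
        rcases hnbd x ν' hν' with h | h
        · exact ⟨(e x).2, h⟩
        · exact ⟨(e' x).2, by rw [← h11 x]; exact h⟩
    · intro b hb ν hν a ha
      rcases hB'mem b hb with hb | ⟨d, rfl⟩
      · exact hB.flip b (hRB hb) ν hν a ha
      · obtain ⟨x, rfl, hx⟩ := hnbe d ν hν a ha
        obtain ⟨⟨ν1, hν1, h1⟩, ⟨ν2, hν2, h2⟩⟩ := hnbf x
        rcases hx with rfl | rfl
        · exact ⟨ν2, hν2, (e' x).2, h22 x, by rw [← h11 x]; exact h2⟩
        · exact ⟨ν1, hν1, (e x).2, (h22 x).symm, by rw [h11 x]; exact h1⟩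
    · intro b hb b' hb' ν hν ν' hν' a ha a' ha' h
      rcases hB'mem b hb with hb | ⟨d, rfl⟩ <;> rcases hB'mem b' hb' with hb' | ⟨d', rfl⟩
      · exact hB.disj b (hRB hb) b' (hRB hb') ν hν ν' hν' a ha a' ha' h
      · obtain ⟨x, rfl, hx⟩ := hnbe d' ν' hν' a' ha'
        exact absurd (h.imp Eq.symm Eq.symm) (hxR x a' hx b hb ν hν a ha)
      · obtain ⟨x, rfl, hx⟩ := hnbe d ν hν a ha
        exact absurd h (hxR x a hx b' hb' ν' hν' a' ha')
      · obtain ⟨x, rfl, hx⟩ := hnbe d ν hν a ha
        obtain ⟨y, rfl, hy⟩ := hnbe d' ν' hν' a' ha'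
        rw [hxy x y a a' hx hy h]
    · intro b hb ν hν a ha
      rcases hB'mem b hb with hb | ⟨d, rfl⟩
      · exact hB.free b (hRB hb) ν hν a ha
      · obtain ⟨x, rfl, hx⟩ := hnbe d ν hν a ha
        obtain ⟨ν', hν', ha'⟩ := hE x a hx
        exact hB.free _ (hfB x) ν' hν' a ha'
    · intro b hb
      rcases hB'mem b hb with hb | ⟨d, rfl⟩
      · exact hB.holes b (hRB hb)
      · have h1 : hs (nb d) ⊆ {(e (d, true)).2, (e' (d, true)).2, (e (d, false)).2,
            (e' (d, false)).2} := by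
          intro j hj
          unfold hs at hj
          rw [mem_biUnion] at hj
          obtain ⟨ν, hν, hj⟩ := hj
          rw [mem_image] at hj
          obtain ⟨a, ha, rfl⟩ := hj
          rcases hnb d ν hν with rfl | rfl <;> rw [mem_insert, mem_singleton] at ha <;>
            rcases ha with rfl | rfl <;> simp
        exact (card_le_card h1).trans card_le_four
  have hcard : B'.card ≤ 2 * T.card + H.card := by
    have h1 : B'.card ≤ R.card + (univ.image nb).card := card_union_le _ _
    have h2 : (univ.image nb).card ≤ (U \ S).card := by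
      refine card_image_le.trans (le_of_eq ?_)
      rw [card_univ, Fintype.card_coe]
    have h3 : R.card ≤ (S.biUnion N \ Z).card + Z.card := by
      have h4 : R ⊆ (S.biUnion N \ Z) ∪ Z := by
        intro b hb
        rw [hR, mem_union] at hb
        rw [mem_union, mem_sdiff]
        tauto
      exact (card_le_card h4).trans (card_union_le _ _)
    have h5 := card_sdiff_of_subset hSU
    have h6 := card_le_card hSU
    have h7 : U.card ≤ T.card := card_filter_le _ _
    omega
  have hchoice : ∀ c', Ch B' c' → ∃ c, Ch B c ∧ (∀ b ∈ R, c b = c' b) ∧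
      P.rho B' c' ⊆ P.rho B c := by
    intro c' hc'
    have hsel : ∀ x : {d // d ∈ U \ S} × Bool, ∃ ν ∈ f x, ∀ a ∈ c' (nb x.1),
        (a = e x ∨ a = e' x) → a ∈ ν := by
      intro x
      have hp := hgood.pm _ (hnbB x.1) _ (hc' _ (hnbB x.1))
      rcases hnbd x _ (hc' _ (hnbB x.1)) with h | h
      · refine ⟨μ x, hμ x, fun a ha hax => ?_⟩
        have h1 : a = e x := by
          refine hp a ha _ h (Or.inl ?_)
          rcases hax with rfl | rfl
          · rfl
          · exact h11 x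
        rw [h1]
        exact he x
      · refine ⟨μ' x, hμ' x, fun a ha hax => ?_⟩
        have h1 : a = e' x := by
          refine hp a ha _ h (Or.inl ?_)
          rcases hax with rfl | rfl
          · exact (h11 x).symm
          · rfl
        rw [h1]
        exact he' x
    choose sel hsel1 hsel2 using hsel
    let c : Block m n → Finset (Fin m × Fin n) := fun b =>
      if b ∈ R then c' b else if h : ∃ x, f x = b then sel h.choose
      else if h : b.Nonempty then h.choose else ∅
    have hcR : ∀ b ∈ R, c b = c' b := fun b hb => by simp only [c, if_pos hb]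
    have hcf : ∀ x, c (f x) = sel x := by
      intro x
      have h : ∃ y, f y = f x := ⟨x, rfl⟩
      simp only [c]
      rw [if_neg (hfR x), dif_pos h, hfi h.choose_spec]
    refine ⟨c, ?_, hcR, ?_⟩
    · intro b hb
      by_cases h1 : b ∈ R
      · rw [hcR b h1]
        exact hc' b (mem_union_left _ h1)
      · by_cases h2 : ∃ x, f x = b
        · obtain ⟨x, rfl⟩ := h2
          rw [hcf]
          exact hsel1 x
        · have h3 := hB.ne b hb
          simp only [c]
          rw [if_neg h1, dif_neg h2, dif_pos h3]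
          exact h3.choose_spec
    · unfold rho
      refine union_subset_union_right ?_
      rw [biUnion_subset]
      intro b hb a ha
      rcases hB'mem b hb with h1 | ⟨d, rfl⟩
      · exact mem_biUnion.2 ⟨b, hRB h1, by rw [hcR b h1]; exact ha⟩
      · obtain ⟨x, rfl, hx⟩ := hnbe d _ (hc' _ hb) a ha
        exact mem_biUnion.2 ⟨f x, hfB x, by rw [hcf]; exact hsel2 x a ha hx⟩
  have hval : ∀ c', Ch B' c' → ∃ c, Ch B c ∧ ∀ d ∈ T, ¬ Zero P.β d →
      Dec (P.rho B' c') d ∧
      (Alive (P.rho B' c') d ↔ Alive (P.rho B c) d) := by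
    intro c' hc'
    obtain ⟨c, hc, hcR, hsub⟩ := hchoice c' hc'
    refine ⟨c, hc, fun d hd hz => ?_⟩
    have hpm' := hgood.rho_pm hc'
    have hpm := hB.rho_pm hc
    have hkill : Kill (P.rho B' c') d → Dec (P.rho B' c') d ∧
        (Alive (P.rho B' c') d ↔ Alive (P.rho B c) d) :=
      fun h => ⟨Or.inr h, iff_of_false (h.not_alive hpm') ((h.mono hsub).not_alive hpm)⟩
    have hdU : d ∈ U := mem_filter.2 ⟨hd, hz⟩
    by_cases hdS : d ∈ S
    · have hkeep : ∀ b ∈ B, (∃ μ ∈ b, Kill μ d) → b ∈ R := fun b hb h =>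
        mem_union_left _ (mem_biUnion.2 ⟨d, hdS, mem_filter.2 ⟨hb, h⟩⟩)
      have hR' : ∀ b ∈ R, ∀ a ∈ c b, a ∈ P.rho B' c' := fun b hb a ha =>
        mem_union_right _ (mem_biUnion.2 ⟨b, mem_union_left _ hb, by
          rw [← hcR b hb]; exact ha⟩)
      rcases hT d hd hz c hc with ⟨h, hf⟩ | ⟨a, ha, h⟩
      · have h1 : Alive (P.rho B' c') d := by
          refine ⟨fun a ha => ?_, fun a ha ha' => h.2 a ha (hsub ha')⟩
          have h2 := h.1 a ha
          unfold rho at h2
          rw [mem_union, mem_biUnion] at h2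
          rcases h2 with h2 | ⟨b, hb, h2⟩
          · exact base_sub _ _ h2
          · obtain ⟨ν, hν, j, hj, hj'⟩ := hB.flip b hb _ (hc b hb) a h2
            exact hR' b (hkeep b hb ⟨ν, hν, (a.1, j), hj', Or.inr ⟨a.2, hj.symm, ha⟩⟩) a h2
        exact ⟨Or.inl ⟨h1, hf⟩, iff_of_true h1 h⟩
      · refine hkill ⟨a, ?_, h⟩
        unfold rho at ha
        rw [mem_union, mem_biUnion] at ha
        rcases ha with ha | ⟨b, hb, ha⟩
        · exact base_sub _ _ ha
        · exact hR' b (hkeep b hb ⟨c b, hc b hb, a, ha, h⟩) a ha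
    · have hdd : d ∈ U \ S := mem_sdiff.2 ⟨hdU, hdS⟩
      refine hkill ?_
      have hb : nb ⟨d, hdd⟩ ∈ B' := hnbB _
      have h1 : ∃ a ∈ c' (nb ⟨d, hdd⟩), KillE a d := by
        rcases hnb _ _ (hc' _ hb) with h | h
        · exact ⟨e (⟨d, hdd⟩, true), by rw [h]; simp, hk (⟨d, hdd⟩, true)⟩
        · exact ⟨e (⟨d, hdd⟩, false), by rw [h]; simp, hk (⟨d, hdd⟩, false)⟩
      obtain ⟨a, ha, h2⟩ := h1
      exact ⟨a, mem_union_right _ (mem_biUnion.2 ⟨_, hb, ha⟩), h2⟩
  refine ⟨B', hgood, hcard, fun d hd hz c' hc' => ?_, fun i hi => ?_, fun c' hc' => ?_⟩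
  · obtain ⟨c, hc, h⟩ := hval c' hc'
    exact (h d hd hz).1
  · obtain ⟨b, hb, μ0, hμ0, j, hj⟩ := hH i hi
    exact ⟨b, mem_union_left _ (mem_union_right _ (mem_filter.2 ⟨hb, i, hi, μ0, hμ0, j, hj⟩)),
      μ0, hμ0, j, hj⟩
  · obtain ⟨c, hc, h⟩ := hval c' hc'
    refine ⟨c, hc, fun d hd => ?_⟩
    by_cases hz : Zero P.β d
    · exact iff_of_false (hz _ (hgood.rho_pm hc') (base_sub _ _))
        (hz _ (hB.rho_pm hc) (base_sub _ _))
    · exact (h d hd hz).2

/-- The state before the step `t`. -/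
def Inv (P : Par m n) (s O : ℕ) (M : ℕ → Finset (Poly F m n)) (t : ℕ)
    (B : Finset (Block m n)) : Prop :=
  P.Good B ∧ B.card ≤ 2 * s + O ∧
    (∀ d ∈ monos (M t), ¬ Zero P.β d → P.Ready B d) ∧
    (∀ i ∈ P.busy (monos (M t)), Cov B i) ∧
    ∀ c, Ch B c → ∀ q ∈ M t, eval (point F (P.rho B c)) q = 0

theorem step_inv {M : ℕ → Finset (Poly F m n)} {J : Ideal (Poly F m n)} {t : ℕ}
    (hJ : J ≤ matchIdeal F m n) {a : Poly F m n} {i : Fin m}
    (ha : ∀ μ : Finset (Fin m × Fin n), IsPartialMatching μ → (∃ j, (i, j) ∈ μ) →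
      eval (point F μ) a = 0)
    (hstep : ∀ q ∈ M (t + 1), q ∈ Ideal.span (M t : Set (Poly F m n)) ⊔ J ⊔ Ideal.span {a})
    {O s : ℕ} (hs' : (monos (M (t + 1))).card ≤ s)
    (hO' : (P.busy (monos (M (t + 1)))).card ≤ O)
    (hc : 12 * s + 8 * O + P.κ + 3 ≤ P.Δ)
    {B : Finset (Block m n)} (hI : P.Inv s O M t B) :
    ∃ B', P.Inv s O M (t + 1) B' := by
  classical
  obtain ⟨h1, h2, h3, h4, h5⟩ := hI
  have hsupp : ∀ t, ∀ q ∈ M t, q.support ⊆ monos (M t) := by
    intro t q hq d hd
    unfold monos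
    rw [mem_biUnion]
    exact ⟨q, hq, hd⟩
  have g0 : P.Ext (monos (M t)) B B := ⟨Subset.rfl, h1, fun b hb hb' => absurd hb hb'⟩
  obtain ⟨B₁, a1, a2, a3, a4⟩ := decide_all g0 h4 (monos (M (t + 1))) (by omega)
  obtain ⟨B₂, b1, b2, b3, b4⟩ := match_set a2 h4 (P.busy (monos (M (t + 1)))) (by omega)
  obtain ⟨B₃, c1, c2, c3, c4⟩ := add_pigeon b2 h4 (by omega) i
  have hready : ∀ d ∈ monos (M (t + 1)), ¬ Zero P.β d → P.Ready B₃ d := fun d hd _ =>
    (a4 d hd).mono (b1.trans c1)
  have hbusy : ∀ i ∈ P.busy (monos (M (t + 1))), Cov B₃ i := by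
    intro i' hi'
    have hf : FreePigeon P.β i' := (mem_filter.1 hi').2.1
    rcases b4 i' hi' with h | h
    · exact absurd hf h
    · exact h.mono c1
  have hvan : ∀ c, Ch B₃ c → ∀ q ∈ M (t + 1), eval (point F (P.rho B₃ c)) q = 0 := by
    intro c hc' q hq
    have hpm := c2.good.rho_pm hc'
    have h8 : Ideal.span (M t : Set (Poly F m n)) ⊔ J ⊔ Ideal.span {a} ≤
        RingHom.ker (eval (point F (P.rho B₃ c))) := by
      refine sup_le (sup_le ?_ ?_) ?_
      · rw [Ideal.span_le]
        intro r hr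
        refine RingHom.mem_ker.2 ?_
        rw [← eval_congr' (μ := P.rho B c)]
        · exact h5 c (fun b hb => hc' b (c2.sub hb)) r hr
        · intro d hd'
          exact alive_iff c2 h1 h3 hc' (hsupp t r hr hd')
      · refine hJ.trans ?_
        unfold matchIdeal
        exact iInf₂_le (P.rho B₃ c) hpm
      · rw [Ideal.span_le]
        intro r hr
        rw [Set.mem_singleton_iff] at hr
        subst hr
        refine RingHom.mem_ker.2 (ha _ hpm ?_)
        rcases c4 with h | ⟨b, hb, μ, hμ, j, hj⟩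
        · unfold FreePigeon at h
          push Not at h
          obtain ⟨j, hj⟩ := h
          exact ⟨j, base_sub _ _ hj⟩
        · obtain ⟨j', hj'⟩ := c2.good.dom b hb μ hμ _ (hc' b hb) _ hj
          exact ⟨j', mem_union_right _ (mem_biUnion.2 ⟨b, hb, hj'⟩)⟩
    exact RingHom.mem_ker.1 (h8 (hstep q hq))
  obtain ⟨B', d1, d2, d3, d4, d5⟩ := reduce c2.good (monos (M (t + 1))) hready
    (P.busy (monos (M (t + 1)))) hbusy
  refine ⟨B', d1, by omega, d3, d4, fun c' hc' q hq => ?_⟩
  obtain ⟨c, e1, e2⟩ := d5 c' hc'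
  rw [eval_congr' (ν := P.rho B₃ c)]
  · exact hvan c e1 q hq
  · intro d hd
    exact e2 d (hsupp (t + 1) q hq hd)

open Classical in
theorem card_busy {r k D κ : ℕ} {T : Finset (Mono m n)} (hκ : P.κ = k + κ)
    (h : Small r k D (bars (T.filter fun d => ¬ Zero P.β d ∧ ¬ Full d))) :
    (P.busy T).card ≤ r + D / (κ + 1) := by
  classical
  obtain ⟨R, hR1, hR2⟩ := h
  set A := T.filter (fun d => ¬ Zero P.β d ∧ ¬ Full d) with hA
  have h1 : (P.busy T \ R).card ≤ D / (κ + 1) := by
    rw [Nat.le_div_iff_mul_le (Nat.succ_pos _)]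
    have h2 : ∀ i ∈ P.busy T \ R, κ + 1 ≤ (row (bars A) i).card - k := by
      intro i hi
      rw [mem_sdiff] at hi
      have h3 := (mem_filter.1 hi.1).2.2
      rw [← hA, hκ] at h3
      have h5 : (A.biUnion fun d => barred P.β d i).card ≤ (row (bars A) i).card := by
        refine card_le_card ?_
        intro j hj
        rw [mem_biUnion] at hj
        obtain ⟨d, hd, hj⟩ := hj
        unfold barred at hj
        rw [mem_filter] at hj
        unfold row bars minus
        exact mem_filter.2 ⟨mem_univ _, mem_biUnion.2 ⟨d, hd, mem_filter.2 ⟨mem_univ _, hj.2.2⟩⟩⟩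
      omega
    calc (P.busy T \ R).card * (κ + 1) = ∑ _i ∈ P.busy T \ R, (κ + 1) := by
          rw [sum_const, smul_eq_mul]
      _ ≤ ∑ i ∈ P.busy T \ R, ((row (bars A) i).card - k) := sum_le_sum h2
      _ ≤ ∑ i ∈ univ \ R, ((row (bars A) i).card - k) :=
          sum_le_sum_of_subset (sdiff_subset_sdiff (subset_univ _) Subset.rfl)
      _ ≤ D := hR2
  have h2 : (P.busy T).card ≤ (P.busy T \ R).card + R.card := by
    have h3 : P.busy T ⊆ (P.busy T \ R) ∪ R := by
      intro i hi
      rw [mem_union, mem_sdiff]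
      tauto
    exact (card_le_card h3).trans (card_union_le _ _)
  omega

end Par

theorem bool_le : boolIdeal F m n ≤ matchIdeal F m n := by
  classical
  unfold boolIdeal matchIdeal
  rw [Ideal.span_le]
  rintro p ⟨e, rfl | rfl⟩
  · simp only [Submodule.coe_iInf, Set.mem_iInter, SetLike.mem_coe, RingHom.mem_ker]
    intro μ _
    by_cases h : e ∈ μ <;> simp [x, point, h]
  · simp only [Submodule.coe_iInf, Set.mem_iInter, SetLike.mem_coe, RingHom.mem_ker]
    intro μ _
    by_cases h : e ∈ μ <;> simp [x, xbar, point, h]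

theorem fPHP_sub {S : Finset (Fin m)} (hS : S.Nonempty) :
    fPHP F m n S ⊆ pigeonAxioms F m n S := by
  classical
  obtain ⟨i₀, hi₀⟩ := hS
  rintro p ((⟨i, i', j, hii, rfl⟩ | ⟨i, j, j', hjj, rfl⟩) | ⟨i, hiS, rfl⟩)
  · refine ⟨i₀, hi₀, fun μ hμ _ => ?_⟩
    by_cases h1 : (i, j) ∈ μ
    · by_cases h2 : (i', j) ∈ μ
      · have := hμ _ h1 _ h2 (Or.inr rfl)
        exact absurd (congrArg Prod.fst this) hii
      · simp [x, point, h2]
    · simp [x, point, h1]
  · refine ⟨i₀, hi₀, fun μ hμ _ => ?_⟩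
    by_cases h1 : (i, j) ∈ μ
    · by_cases h2 : (i, j') ∈ μ
      · have := hμ _ h1 _ h2 (Or.inl rfl)
        exact absurd (congrArg Prod.snd this) hjj
      · simp [x, point, h2]
    · simp [x, point, h1]
  · refine ⟨i, hiS, fun μ hμ hi => ?_⟩
    obtain ⟨j, hj⟩ := hi
    rw [map_prod]
    refine Finset.prod_eq_zero (i := j) (mem_univ _) ?_
    simp [xbar, point, hj]

theorem le_MSp {l t : ℕ} {M : ℕ → Finset (Poly F m n)} (ht : t ≤ l) :
    (monos (M t)).card ≤ MSp l M := by
  unfold MSp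
  exact Finset.le_sup (f := fun t => (monos (M t)).card) (mem_range.2 (Nat.lt_succ_of_le ht))

theorem zero_mem {l : ℕ} {J : Ideal (Poly F m n)} {A : Set (Poly F m n)}
    {M : ℕ → Finset (Poly F m n)} (hM : IsRefutation J A l M) :
    (0 : ((Fin m × Fin n) × Bool) →₀ ℕ) ∈ monos (M l) := by
  classical
  unfold monos
  rw [mem_biUnion]
  refine ⟨1, hM.one_mem, ?_⟩
  rw [MvPolynomial.mem_support_iff]
  simp

open Classical in
theorem bound {β : Finset (Fin m × Fin n)} (hβ : IsPartialMatching β)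
    (κ r k D Δ : ℕ) (hΔ : Δ ≤ (freeHoles β).card)
    (hmn : n < m) (J : Ideal (Poly F m n)) (A : Set (Poly F m n))
    (hJ : J ≤ matchIdeal F m n) (hA : A ⊆ pigeonAxioms F m n univ) (l : ℕ)
    (M : ℕ → Finset (Poly F m n)) (hM : IsRefutation J A l M)
    (ht : ∀ t ≤ l, Small r k D (bars ((monos (M t)).filter fun d => ¬ Zero β d ∧ ¬ Full d))) :
    Δ ≤ 12 * MSp l M + 8 * (r + D / (κ + 1)) + (k + κ) + 2 := by
  classical
  by_contra hcon
  push Not at hcon
  let Q : Par m n := ⟨β, k + κ, Δ, hβ, hΔ⟩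
  have hstep : ∀ t < l, ∀ B, Q.Inv (MSp l M) (r + D / (κ + 1)) M t B →
      ∃ B', Q.Inv (MSp l M) (r + D / (κ + 1)) M (t + 1) B' := by
    intro t htl B hI
    obtain ⟨a, ha, hst⟩ := hM.step t htl
    obtain ⟨i, hi⟩ : ∃ i : Fin m, ∀ μ : Finset (Fin m × Fin n), IsPartialMatching μ →
        (∃ j, (i, j) ∈ μ) → eval (point F μ) a = 0 := by
      rcases ha with ha | ha
      · obtain ⟨i, _, hi⟩ := hA ha
        exact ⟨i, hi⟩
      · rw [Set.mem_singleton_iff] at ha
        subst ha
        exact ⟨⟨0, by omega⟩, fun μ _ _ => map_zero _⟩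
    have hov : (Q.busy (monos (M (t + 1)))).card ≤ r + D / (κ + 1) :=
      Par.card_busy (P := Q) rfl (ht (t + 1) (by omega))
    exact Par.step_inv (P := Q) hJ hi hst (le_MSp (by omega)) hov hcon hI
  have hinv : ∀ t ≤ l, ∃ B, Q.Inv (MSp l M) (r + D / (κ + 1)) M t B := by
    intro t
    induction t with
    | zero =>
      intro _
      have hm0 : monos (M 0) = ∅ := by
        rw [hM.zero]
        unfold monos
        simp
      refine ⟨∅, ⟨?_, ?_, ?_, ?_, ?_, ?_, ?_⟩, ?_, ?_, ?_, ?_⟩
      · exact fun b hb => absurd hb (notMem_empty _)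
      · exact fun b hb => absurd hb (notMem_empty _)
      · exact fun b hb => absurd hb (notMem_empty _)
      · exact fun b hb => absurd hb (notMem_empty _)
      · exact fun b hb => absurd hb (notMem_empty _)
      · exact fun b hb => absurd hb (notMem_empty _)
      · exact fun b hb => absurd hb (notMem_empty _)
      · simp
      · intro d hd
        rw [hm0] at hd
        exact absurd hd (notMem_empty _)
      · intro i hi
        rw [hm0] at hi
        unfold Par.busy at hi
        simp at hi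
      · intro c _ q hq
        rw [hM.zero] at hq
        exact absurd hq (Finset.notMem_empty _)
    | succ t ih =>
      intro htl
      obtain ⟨B, hB⟩ := ih (by omega)
      exact hstep t (by omega) B hB
  obtain ⟨B, h1, _, _, _, h5⟩ := hinv l le_rfl
  have h6 := h5 (fun b => if h : b.Nonempty then h.choose else ∅) (by
    intro b hb
    have h7 := h1.ne b hb
    simp only [dif_pos h7]
    exact h7.choose_spec) 1 hM.one_mem
  rw [map_one] at h6
  exact one_ne_zero h6

theorem card_free {β : Finset (Fin m × Fin n)}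
    (hslot : ∀ s < n / 2, ∃ j : Fin n, j.val / 2 = s ∧ FreeHole β j) :
    n / 2 ≤ (freeHoles β).card := by
  classical
  choose y hy1 hy2 using hslot
  have h1 : (univ : Finset (Fin (n / 2))).card = n / 2 := by
    rw [card_univ, Fintype.card_fin]
  conv_lhs => rw [← h1]
  refine card_le_card_of_injOn (fun b => y b.val b.isLt) ?_ ?_
  · intro b _
    rw [mem_coe]
    unfold freeHoles
    exact mem_filter.2 ⟨mem_univ _, hy2 _ _⟩
  · intro a _ b _ hab
    simp only at hab
    have h2 := hy1 _ a.isLt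
    have h3 := hy1 _ b.isLt
    rw [hab] at h2
    ext
    omega

theorem sum_row (E : Finset (Fin m × Fin n)) : ∑ i, (row E i).card = E.card := by
  classical
  rw [card_eq_sum_card_fiberwise (s := E) (f := Prod.fst) (t := univ)
    (fun _ _ => mem_coe.2 (mem_univ _))]
  refine sum_congr rfl fun i _ => ?_
  refine card_nbij (fun j => (i, j)) ?_ ?_ ?_
  · intro j hj
    unfold row at hj
    rw [mem_coe, mem_filter] at hj
    exact mem_coe.2 (mem_filter.2 ⟨hj.2, rfl⟩)
  · intro a _ b _ hab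
    exact (Prod.mk.inj hab).2
  · rintro ⟨i', j⟩ he
    rw [mem_coe, mem_filter] at he
    obtain ⟨h1, h2⟩ := he
    simp only at h2
    subst h2
    exact ⟨j, mem_coe.2 (mem_filter.2 ⟨mem_univ _, h1⟩), rfl⟩

theorem small_of_card {r k D : ℕ} {E : Finset (Fin m × Fin n)} (h : E.card ≤ D) :
    Small r k D E := by
  classical
  refine ⟨∅, by simp, ?_⟩
  rw [sdiff_empty]
  calc ∑ i, ((row E i).card - k) ≤ ∑ i, (row E i).card := sum_le_sum fun i _ => Nat.sub_le _ _
    _ = E.card := sum_row E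
    _ ≤ D := h

/-- The union of at most `s` small sets. -/
theorem small_bars {r k D s : ℕ} {A : Finset (Mono m n)} (hs : A.card ≤ s)
    (h : ∀ d ∈ A, Small r k D (minus d)) : Small (s * r) (s * k) (s * D) (bars A) := by
  classical
  unfold Small at h
  choose! R hR1 hR2 using h
  refine ⟨A.biUnion R, ?_, ?_⟩
  · refine card_biUnion_le.trans ((sum_le_sum hR1).trans ?_)
    rw [sum_const, smul_eq_mul]
    exact Nat.mul_le_mul_right _ hs
  · have h1 : ∀ i, (row (bars A) i).card - s * k ≤ ∑ d ∈ A, ((row (minus d) i).card - k) := by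
      intro i
      have h2 : (row (bars A) i).card ≤ ∑ d ∈ A, (row (minus d) i).card := by
        have h3 : row (bars A) i ⊆ A.biUnion fun d => row (minus d) i := by
          intro j hj
          unfold row bars at hj
          rw [mem_filter, mem_biUnion] at hj
          obtain ⟨_, d, hd, hj⟩ := hj
          unfold row
          exact mem_biUnion.2 ⟨d, hd, mem_filter.2 ⟨mem_univ _, hj⟩⟩
        exact (card_le_card h3).trans card_biUnion_le
      have h4 : ∑ d ∈ A, (row (minus d) i).card ≤ ∑ d ∈ A, (k + ((row (minus d) i).card - k)) :=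
        sum_le_sum fun d _ => by omega
      rw [sum_add_distrib, sum_const, smul_eq_mul] at h4
      have h5 : A.card * k ≤ s * k := Nat.mul_le_mul_right _ hs
      omega
    calc ∑ i ∈ univ \ A.biUnion R, ((row (bars A) i).card - s * k)
        ≤ ∑ i ∈ univ \ A.biUnion R, ∑ d ∈ A, ((row (minus d) i).card - k) :=
          sum_le_sum fun i _ => h1 i
      _ = ∑ d ∈ A, ∑ i ∈ univ \ A.biUnion R, ((row (minus d) i).card - k) := sum_comm
      _ ≤ ∑ _d ∈ A, D := by
          refine sum_le_sum fun d hd => le_trans (sum_le_sum_of_subset ?_) (hR2 d hd)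
          exact sdiff_subset_sdiff Subset.rfl (subset_biUnion_of_mem R hd)
      _ = A.card * D := by rw [sum_const, smul_eq_mul]
      _ ≤ s * D := Nat.mul_le_mul_right _ hs

theorem few (hmn : n < m) (J : Ideal (Poly F m n)) (A : Set (Poly F m n))
    (hJ : J ≤ matchIdeal F m n) (hA : A ⊆ pigeonAxioms F m n univ) (l : ℕ)
    (M : ℕ → Finset (Poly F m n)) (hM : IsRefutation J A l M) (q r k D : ℕ)
    (K : Finset (Finset (Fin m × Fin n))) (hK : ∀ C ∈ K, 64 * m * q ≤ C.card)
    (hq : K.card < 2 ^ q)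
    (h : ∀ t ≤ l, ∀ A ⊆ monos (M t), (∀ d ∈ A, ¬ Multiple d) →
      (∃ C ∈ K, C ⊆ bars A) ∨ Small r k D (bars A)) :
    n ^ 2 ≤ (58 * MSp l M + 32 * r + 4 * k) * n + 128 * D := by
  classical
  have hs1 : 1 ≤ MSp l M := (card_pos.2 ⟨_, zero_mem hM⟩).trans_le (le_MSp le_rfl)
  obtain ⟨β, hβ, hslot, hkill⟩ := exists_kill hmn K (fun C => C) q hK hq
  have hmain := bound hβ (n / 4) r k D (n / 2) (card_free hslot) hmn J A hJ hA l M hM ?_
  · set s := MSp l M with hs
    have e1 : D / (n / 4 + 1) * (n / 4 + 1) ≤ D := Nat.div_mul_le_self _ _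
    set a := D / (n / 4 + 1) with ha
    have e2 : n ≤ 4 * (n / 4 + 1) := by omega
    have e3 : a * n ≤ 4 * D := by
      calc a * n ≤ a * (4 * (n / 4 + 1)) := Nat.mul_le_mul_left _ e2
        _ = 4 * (a * (n / 4 + 1)) := by ring
        _ ≤ 4 * D := Nat.mul_le_mul_left _ e1
    have e4 : n ≤ 48 * s + 32 * r + 4 * k + 32 * a + 10 := by omega
    have e7 : n ≤ s * n := by
      calc n = 1 * n := by ring
        _ ≤ s * n := Nat.mul_le_mul_right _ hs1
    calc n ^ 2 = n * n := by ring
      _ ≤ (48 * s + 32 * r + 4 * k + 32 * a + 10) * n := Nat.mul_le_mul_right _ e4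
      _ = 48 * (s * n) + 32 * (r * n) + 4 * (k * n) + 32 * (a * n) + 10 * n := by ring
      _ ≤ 58 * (s * n) + 32 * (r * n) + 4 * (k * n) + 128 * D := by omega
      _ = (58 * s + 32 * r + 4 * k) * n + 128 * D := by ring
  · intro t ht
    have hnm : ∀ d ∈ (monos (M t)).filter fun d => ¬ Zero β d ∧ ¬ Full d, ¬ Multiple d := by
      intro d hd hm
      obtain ⟨_, hz, hf⟩ := mem_filter.1 hd
      refine hz fun ν hν _ ha => ?_
      rcases hm with ⟨i, i', j, h2, h3, h4⟩ | ⟨i, j, j', h2, h3, h4⟩ | hm | ⟨e, h3, h4⟩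
      · exact h2 (congrArg Prod.fst (hν _ (ha.1 _ h3) _ (ha.1 _ h4) (Or.inr rfl)))
      · exact h2 (congrArg Prod.snd (hν _ (ha.1 _ h3) _ (ha.1 _ h4) (Or.inl rfl)))
      · exact hf hm
      · exact ha.2 e h4 (ha.1 e h3)
    rcases h t ht _ (filter_subset _ _) hnm with ⟨C, hC, hCA⟩ | h1
    · exfalso
      obtain ⟨e, he, he'⟩ := hkill C hC
      have h2 := hCA he'
      unfold bars minus at h2
      rw [mem_biUnion] at h2
      obtain ⟨d, hd, h2⟩ := h2
      rw [mem_filter] at h2
      exact (mem_filter.1 hd).2.1 fun ν _ h3 h4 => h4.2 e h2.2 (h3 he)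
    · exact h1

theorem few_monomials {l q r k D : ℕ} {M : ℕ → Finset (Poly F m n)}
    (h : ∀ (q r k D : ℕ) (K : Finset (Finset (Fin m × Fin n))),
      (∀ C ∈ K, 64 * m * q ≤ C.card) → K.card < 2 ^ q →
      (∀ t ≤ l, ∀ A ⊆ monos (M t), (∀ d ∈ A, ¬ Multiple d) →
        (∃ C ∈ K, C ⊆ bars A) ∨ Small r k D (bars A)) →
      n ^ 2 ≤ (58 * MSp l M + 32 * r + 4 * k) * n + 128 * D)
    (hD : 64 * m * q ≤ D) (hq : (long r k D l M).card < 2 ^ q) :
    n ^ 2 ≤ ((58 + 32 * r + 4 * k) * n + 128 * D) * MSp l M := by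
  classical
  have h1 := h q (MSp l M * r) (MSp l M * k) (MSp l M * D) ((long r k D l M).image minus) (by
    intro C hC
    rw [mem_image] at hC
    obtain ⟨d, hd, rfl⟩ := hC
    refine hD.trans ?_
    have h1 := (mem_filter.1 hd).2.2
    by_contra h2
    exact h1 (small_of_card (not_le.1 h2).le)) (card_image_le.trans_lt hq) (by
    intro t ht A hA hm
    by_cases h2 : ∃ d ∈ A, ¬ Small r k D (minus d)
    · obtain ⟨d, hd, h2⟩ := h2
      refine Or.inl ⟨minus d, mem_image.2 ⟨d, mem_filter.2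
        ⟨mem_biUnion.2 ⟨t, mem_range.2 (by omega), hA hd⟩, hm d hd, h2⟩, rfl⟩, ?_⟩
      unfold bars
      exact subset_biUnion_of_mem minus hd
    · push Not at h2
      exact Or.inr (small_bars ((card_le_card hA).trans (le_MSp ht)) h2))
  refine h1.trans (le_of_eq ?_)
  ring

theorem few_steps {l p : ℕ} {M : ℕ → Finset (Poly F m n)} (hmn : n < m) (h0 : M 0 = ∅)
    (hs : 0 < MSp l M)
    (h : ∀ (q r k D : ℕ) (K : Finset (Finset (Fin m × Fin n))),
      (∀ C ∈ K, 64 * m * q ≤ C.card) → K.card < 2 ^ q →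
      (∀ t ≤ l, ∀ A ⊆ monos (M t), (∀ d ∈ A, ¬ Multiple d) →
        (∃ C ∈ K, C ⊆ bars A) ∨ Small r k D (bars A)) →
      n ^ 2 ≤ (58 * MSp l M + 32 * r + 4 * k) * n + 128 * D)
    (hp : l < 2 ^ p) : n ^ 2 ≤ 8250 * m * (MSp l M + p) := by
  classical
  set s := MSp l M with hs'
  let V : Finset (Finset (Mono m n)) :=
    ((range l).biUnion fun t => (monos (M (t + 1))).powerset)
  let K : Finset (Finset (Fin m × Fin n)) :=
    (V.image bars).filter fun C => 64 * m * (s + p) ≤ C.card
  have hV : V.card ≤ l * 2 ^ s := by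
    refine card_biUnion_le.trans ?_
    calc ∑ t ∈ range l, (monos (M (t + 1))).powerset.card ≤ ∑ _t ∈ range l, 2 ^ s := by
          refine sum_le_sum fun t ht => ?_
          rw [card_powerset]
          rw [mem_range] at ht
          exact Nat.pow_le_pow_right (by norm_num) (le_MSp (by omega))
      _ = l * 2 ^ s := by rw [sum_const, card_range, smul_eq_mul]
  have hK : K.card < 2 ^ (s + p) := by
    calc K.card ≤ (V.image bars).card := card_filter_le _ _
      _ ≤ V.card := card_image_le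
      _ ≤ l * 2 ^ s := hV
      _ < 2 ^ p * 2 ^ s := Nat.mul_lt_mul_of_pos_right hp (by positivity)
      _ = 2 ^ (s + p) := by rw [pow_add, mul_comm]
  have h1 := h (s + p) 0 0 (64 * m * (s + p)) K (fun C hC => (mem_filter.1 hC).2) hK (by
    intro t ht A hA _
    by_cases h2 : 64 * m * (s + p) ≤ (bars A).card
    · left
      refine ⟨bars A, mem_filter.2 ⟨mem_image.2 ⟨A, ?_, rfl⟩, h2⟩, Subset.rfl⟩
      rcases Nat.eq_zero_or_pos t with h3 | h3
      · exfalso
        subst h3
        have h4 : monos (M 0) = ∅ := by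
          rw [h0]
          unfold monos
          simp
        rw [h4, subset_empty] at hA
        rw [hA] at h2
        have h5 : (bars (∅ : Finset (Mono m n))).card = 0 := by
          unfold bars
          simp
        rw [h5] at h2
        have h6 : 0 < 64 * m * (s + p) := Nat.mul_pos (by omega) (by omega)
        omega
      · refine mem_biUnion.2 ⟨t - 1, mem_range.2 (by omega), mem_powerset.2 ?_⟩
        have h4 : t - 1 + 1 = t := by omega
        rw [h4]
        exact hA
    · exact Or.inr (small_of_card (not_le.1 h2).le))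
  refine h1.trans ?_
  have h4 : s * n ≤ m * (s + p) := by
    calc s * n ≤ (s + p) * m := Nat.mul_le_mul (by omega) hmn.le
      _ = m * (s + p) := by ring
  calc (58 * s + 32 * 0 + 4 * 0) * n + 128 * (64 * m * (s + p))
      = 58 * (s * n) + 8192 * (m * (s + p)) := by ring
    _ ≤ 58 * (m * (s + p)) + 8192 * (m * (s + p)) := by omega
    _ = 8250 * m * (s + p) := by ring

end Memory

section Sub

variable {F : Type*} [Field F] {m m' n : ℕ}

open Classical in
/-- The substitution which removes the pigeons outside the image of `ι`. -/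
noncomputable def sub (ι : Fin m' → Fin m) : Poly F m n →ₐ[F] Poly F m' n :=
  aeval fun v => if h : ∃ a, ι a = v.1.1 then X ((h.choose, v.1.2), v.2)
    else if v.2 = true then 0 else 1

/-- The image of a set of edges. -/
def lift (ι : Fin m' → Fin m) (μ : Finset (Fin m' × Fin n)) : Finset (Fin m × Fin n) :=
  μ.image fun e => (ι e.1, e.2)

theorem lift_pm {ι : Fin m' → Fin m} (hι : Function.Injective ι)
    {μ : Finset (Fin m' × Fin n)} (h : IsPartialMatching μ) : IsPartialMatching (lift ι μ) := by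
  intro e he f hf hef
  unfold lift at he hf
  rw [mem_image] at he hf
  obtain ⟨e', he', rfl⟩ := he
  obtain ⟨f', hf', rfl⟩ := hf
  rw [h e' he' f' hf' (hef.imp (fun h => hι h) id)]

theorem eval_sub {ι : Fin m' → Fin m} (hι : Function.Injective ι)
    (μ : Finset (Fin m' × Fin n)) (p : Poly F m n) :
    eval (point F μ) (sub ι p) = eval (point F (lift ι μ)) p := by
  classical
  have h : (eval (point F μ)).comp ((sub ι : Poly F m n →ₐ[F] Poly F m' n) : Poly F m n →+* _) =
      eval (point F (lift ι μ)) := by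
    refine MvPolynomial.ringHom_ext (fun r => ?_) ?_
    · simp [sub]
    · rintro ⟨⟨i, j⟩, b⟩
      have h0 : (sub ι : Poly F m n →ₐ[F] Poly F m' n) (X ((i, j), b)) =
          if h : ∃ a, ι a = i then X ((h.choose, j), b) else if b = true then 0 else 1 := by
        unfold sub
        rw [aeval_X]
      rw [RingHom.comp_apply]
      change eval (point F μ) ((sub ι : Poly F m n →ₐ[F] Poly F m' n) (X ((i, j), b))) = _
      rw [h0, eval_X]
      by_cases h1 : ∃ a, ι a = i
      · rw [dif_pos h1, eval_X]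
        have h2 : (i, j) ∈ lift ι μ ↔ (h1.choose, j) ∈ μ := by
          unfold lift
          rw [mem_image]
          constructor
          · rintro ⟨⟨a, j'⟩, ha, hae⟩
            obtain ⟨h3, h4⟩ := Prod.mk.inj hae
            have h5 : a = h1.choose := hι (h3.trans h1.choose_spec.symm)
            simp only at h4
            rw [← h5, ← h4]
            exact ha
          · intro ha
            exact ⟨_, ha, Prod.ext h1.choose_spec rfl⟩
        unfold point
        simp only [h2]
      · rw [dif_neg h1]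
        have h2 : (i, j) ∉ lift ι μ := by
          unfold lift
          rw [mem_image]
          rintro ⟨⟨a, j'⟩, _, hae⟩
          exact h1 ⟨a, (Prod.mk.inj hae).1⟩
        unfold point
        cases b <;> simp [h2]
  exact RingHom.congr_fun h p

theorem card_sub_monomial (ι : Fin m' → Fin m) (d : ((Fin m × Fin n) × Bool) →₀ ℕ) :
    ((sub ι : Poly F m n →ₐ[F] Poly F m' n) (monomial d 1)).support.card ≤ 1 := by
  classical
  have h : (sub ι : Poly F m n →ₐ[F] Poly F m' n) (monomial d 1) = 0 ∨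
      ∃ d', (sub ι : Poly F m n →ₐ[F] Poly F m' n) (monomial d 1) = monomial d' 1 := by
    unfold sub
    rw [aeval_monomial, map_one, one_mul]
    unfold Finsupp.prod
    refine Finset.prod_induction _ (fun p : Poly F m' n => p = 0 ∨ ∃ d', p = monomial d' 1)
      ?_ ?_ ?_
    · rintro p p' (rfl | ⟨d₁, rfl⟩) h
      · exact Or.inl (zero_mul _)
      · rcases h with rfl | ⟨d₂, rfl⟩
        · exact Or.inl (mul_zero _)
        · exact Or.inr ⟨d₁ + d₂, by rw [monomial_mul, one_mul]⟩
    · exact Or.inr ⟨0, rfl⟩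
    · intro v hv
      have hk : d v ≠ 0 := Finsupp.mem_support_iff.1 hv
      beta_reduce
      split_ifs with h1 h2
      · exact Or.inr ⟨_, X_pow_eq_monomial⟩
      · exact Or.inl (zero_pow hk)
      · exact Or.inr ⟨0, by rw [one_pow]; rfl⟩
  rcases h with h | ⟨d', h⟩
  · rw [h]
    simp
  · rw [h]
    refine (card_le_card support_monomial_subset).trans ?_
    rw [card_singleton]

theorem card_monos_sub (ι : Fin m' → Fin m) (C : Finset (Poly F m n)) [DecidableEq (Poly F m' n)] :
    (monos (C.image (sub ι : Poly F m n →ₐ[F] Poly F m' n))).card ≤ (monos C).card := by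
  classical
  have h : monos (C.image (sub ι : Poly F m n →ₐ[F] Poly F m' n)) ⊆ (monos C).biUnion fun d =>
      ((sub ι : Poly F m n →ₐ[F] Poly F m' n) (monomial d 1)).support := by
    intro d' hd'
    unfold monos at hd'
    rw [mem_biUnion] at hd'
    obtain ⟨q', hq', hd'⟩ := hd'
    rw [mem_image] at hq'
    obtain ⟨q, hq, rfl⟩ := hq'
    have h1 : (sub ι : Poly F m n →ₐ[F] Poly F m' n) q =
        ∑ d ∈ q.support, coeff d q • (sub ι : Poly F m n →ₐ[F] Poly F m' n) (monomial d 1) := by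
      conv_lhs => rw [q.as_sum]
      rw [map_sum]
      refine sum_congr rfl fun d _ => ?_
      rw [← map_smul, smul_monomial, smul_eq_mul, mul_one]
    rw [h1] at hd'
    have h2 := support_sum hd'
    rw [mem_biUnion] at h2
    obtain ⟨d, hd, h3⟩ := h2
    rw [mem_biUnion]
    refine ⟨d, ?_, support_smul h3⟩
    unfold monos
    rw [mem_biUnion]
    exact ⟨q, hq, hd⟩
  refine (card_le_card h).trans (card_biUnion_le.trans ?_)
  refine (sum_le_sum fun d _ => card_sub_monomial ι d).trans ?_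
  simp

open Classical in
theorem sub_ref {ι : Fin m' → Fin m} (hι : Function.Injective ι) {l : ℕ}
    {J : Ideal (Poly F m n)} {A : Set (Poly F m n)} {M : ℕ → Finset (Poly F m n)}
    (hJ : J ≤ matchIdeal F m n)
    (hA : ∀ p ∈ A, ∃ a : Fin m', ∀ μ : Finset (Fin m × Fin n), IsPartialMatching μ →
      (∃ j, (ι a, j) ∈ μ) → eval (point F μ) p = 0) (hM : IsRefutation J A l M) :
    IsRefutation (matchIdeal F m' n) (pigeonAxioms F m' n univ) l
      (fun t => (M t).image (sub ι : Poly F m n →ₐ[F] Poly F m' n)) := by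
  refine ⟨by simp [hM.zero], mem_image.2 ⟨1, hM.one_mem, map_one _⟩, fun t ht => ?_⟩
  obtain ⟨p, hp, h⟩ := hM.step t ht
  refine ⟨(sub ι : Poly F m n →ₐ[F] Poly F m' n) p, ?_, ?_⟩
  · rcases hp with hp | hp
    · left
      obtain ⟨a, ha⟩ := hA p hp
      refine ⟨a, mem_univ _, fun μ hμ hj => ?_⟩
      obtain ⟨j, hj⟩ := hj
      rw [eval_sub hι]
      refine ha _ (lift_pm hι hμ) ⟨j, ?_⟩
      unfold lift
      exact mem_image.2 ⟨(a, j), hj, rfl⟩
    · right
      rw [Set.mem_singleton_iff] at hp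
      rw [hp, map_zero]
      exact Set.mem_singleton _
  · intro q' hq'
    rw [mem_image] at hq'
    obtain ⟨q, hq, rfl⟩ := hq'
    have h1 := Ideal.mem_map_of_mem (sub ι : Poly F m n →ₐ[F] Poly F m' n) (h q hq)
    rw [Ideal.map_sup, Ideal.map_sup, Ideal.map_span, Ideal.map_span, Set.image_singleton] at h1
    have h3 : Ideal.span ((sub ι : Poly F m n →ₐ[F] Poly F m' n) '' (M t : Set (Poly F m n))) ≤
        Ideal.span ((((M t).image (sub ι : Poly F m n →ₐ[F] Poly F m' n) :
          Finset (Poly F m' n))) : Set (Poly F m' n)) := by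
      rw [coe_image]
    have h4 : Ideal.map (sub ι : Poly F m n →ₐ[F] Poly F m' n) J ≤ matchIdeal F m' n := by
      rw [Ideal.map_le_iff_le_comap]
      intro r hr
      rw [Ideal.mem_comap]
      unfold matchIdeal
      simp only [Submodule.mem_iInf, RingHom.mem_ker]
      intro μ hμ
      rw [eval_sub hι]
      have h2 := hJ hr
      unfold matchIdeal at h2
      simp only [Submodule.mem_iInf, RingHom.mem_ker] at h2
      exact h2 _ (lift_pm hι hμ)
    have h5 := sup_le_sup (sup_le_sup h3 h4)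
      (le_refl (Ideal.span {(sub ι : Poly F m n →ₐ[F] Poly F m' n) p}))
    exact h5 h1

theorem few_pigeons {J : Ideal (Poly F m n)} {A : Set (Poly F m n)} {l p : ℕ}
    {M : ℕ → Finset (Poly F m n)} {S : Finset (Fin m)} (hS : n < S.card)
    (hJ : J ≤ matchIdeal F m n) (hA : A ⊆ pigeonAxioms F m n S) (hM : IsRefutation J A l M)
    (hp : l < 2 ^ p) : n ^ 2 ≤ 8250 * S.card * (MSp l M + p) := by
  classical
  let ι : Fin S.card → Fin m := fun a => (S.equivFin.symm a).1
  have hι : Function.Injective ι := fun a b hab =>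
    S.equivFin.symm.injective (Subtype.ext hab)
  have h := sub_ref hι hJ (fun p hp => by
    obtain ⟨i, hi, h⟩ := hA hp
    refine ⟨S.equivFin ⟨i, hi⟩, fun μ hμ hj => h μ hμ ?_⟩
    have h1 : ι (S.equivFin ⟨i, hi⟩) = i := by simp [ι]
    rw [h1] at hj
    exact hj) hM
  have hMS : MSp l (fun t => (M t).image (sub ι : Poly F m n →ₐ[F] Poly F S.card n)) ≤
      MSp l M := by
    unfold MSp
    exact Finset.sup_mono_fun fun t _ => card_monos_sub ι (M t)
  have hs : 0 < MSp l (fun t => (M t).image (sub ι : Poly F m n →ₐ[F] Poly F S.card n)) :=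
    (card_pos.2 ⟨_, zero_mem h⟩).trans_le
      (le_MSp (M := fun t => (M t).image (sub ι : Poly F m n →ₐ[F] Poly F S.card n)) le_rfl)
  have h2 := few_steps hS h.zero hs
    (fun q r k D K hK hq h' => few hS _ _ le_rfl (fun _ h => h) l _ h q r k D K hK hq h') hp
  exact h2.trans (Nat.mul_le_mul_left _ (Nat.add_le_add_right hMS _))

end Sub

/-- Let `S` be a set of more than `n` pigeons and `M 0, …, M l` a semantic polynomial calculus
refutation of the functional pigeonhole principle with `m` pigeons and `n` holes over any field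
which uses only the totality clauses of the pigeons of `S` (all pigeons, if `S` is the set of all
pigeons), for the conventions of the problem, or more generally with the ideal of the Boolean axioms
enlarged to all polynomials which vanish at all partial matchings, and the axioms to all
polynomials which vanish at all partial matchings that match some fixed pigeon of `S`.
(1) If `l < 2 ^ p`, then `n ^ 2 ≤ 8250 |S| (MSp + p)`.
(2) Let `K` be a family of fewer than `2 ^ q` sets of at least `64 m q` edges. If,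
for each set `A` of monomials of a configuration none of which is a multiple of an encoded clause
or of some `x e * xbar e`, the set of the barred variables which occur in `A` contains a member of
`K` or is small for `r`, `k`, `D`, then `n ^ 2 ≤ (58 MSp + 32 r + 4 k) n + 128 D`.
(3) In particular, if `64 m q ≤ D` and fewer than `2 ^ q` distinct monomials of the refutation are
neither multiples as above nor have a small set of barred variables for `r`, `k`, `D`, then
`n ^ 2 ≤ ((58 + 32 r + 4 k) n + 128 D) MSp`. -/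
theorem result (F : Type*) [Field F] (m n : ℕ) (S : Finset (Fin m)) (hS : n < S.card) (l : ℕ)
    (M : ℕ → Finset (Poly F m n))
    (hM : IsRefutation (boolIdeal F m n) (fPHP F m n S) l M ∨
      IsRefutation (matchIdeal F m n) (pigeonAxioms F m n S) l M) :
    (∀ p : ℕ, l < 2 ^ p → n ^ 2 ≤ 8250 * S.card * (MSp l M + p)) ∧
    (∀ (q r k D : ℕ) (K : Finset (Finset (Fin m × Fin n))),
      (∀ C ∈ K, 64 * m * q ≤ C.card) → K.card < 2 ^ q →
      (∀ t ≤ l, ∀ A ⊆ monos (M t), (∀ d ∈ A, ¬ Multiple d) →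
        (∃ C ∈ K, C ⊆ bars A) ∨ Small r k D (bars A)) →
      n ^ 2 ≤ (58 * MSp l M + 32 * r + 4 * k) * n + 128 * D) ∧
    (∀ q r k D : ℕ, 64 * m * q ≤ D → (long r k D l M).card < 2 ^ q →
      n ^ 2 ≤ ((58 + 32 * r + 4 * k) * n + 128 * D) * MSp l M) := by
  classical
  have hSne : S.Nonempty := card_pos.1 (by omega)
  have hmn : n < m := by
    have h := card_le_univ S
    rw [Fintype.card_fin] at h
    omega
  have hsub : pigeonAxioms F m n S ⊆ pigeonAxioms F m n univ := by
    rintro p ⟨i, _, h⟩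
    exact ⟨i, mem_univ _, h⟩
  have h1 : ∀ (q r k D : ℕ) (K : Finset (Finset (Fin m × Fin n))),
      (∀ C ∈ K, 64 * m * q ≤ C.card) → K.card < 2 ^ q →
      (∀ t ≤ l, ∀ A ⊆ monos (M t), (∀ d ∈ A, ¬ Multiple d) →
        (∃ C ∈ K, C ⊆ bars A) ∨ Small r k D (bars A)) →
      n ^ 2 ≤ (58 * MSp l M + 32 * r + 4 * k) * n + 128 * D := by
    intro q r k D K hK hq h
    rcases hM with hM | hM
    · exact few hmn _ _ bool_le ((fPHP_sub hSne).trans hsub) l M hM q r k D K hK hq h
    · exact few hmn _ _ le_rfl hsub l M hM q r k D K hK hq h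
  refine ⟨fun p hp => ?_, h1, fun q r k D hD hq => few_monomials h1 hD hq⟩
  rcases hM with hM | hM
  · exact few_pigeons hS bool_le (fPHP_sub hSne) hM hp
  · exact few_pigeons hS le_rfl (fun _ h => h) hM hp

end Pool.Agent.Results.MP_96e433_lc.FewBarred
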