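import Mathlib

set_option autoImplicit false

open Finset MvPolynomial

namespace Pool.Agent.Results.MP_96e433_lc.MemoryPigeons

/-- Polynomials over `F` in the variables `x e` and their twins `xbar e`, where `e = (i, j)`
ranges over the pairs of a pigeon `i` and a hole `j`. -/
abbrev Poly (F : Type*) [CommRing F] (m n : ℕ) : Type _ :=
  MvPolynomial ((Fin m × Fin n) × Bool) F

section Defs

variable (F : Type*) [Field F] (m n : ℕ)

/-- The variable `x_{ij}`, `e = (i, j)`. -/
noncomputable def x (e : Fin m × Fin n) : Poly F m n := X (e, true)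

/-- The twin variable of `x_{ij}`, `e = (i, j)`. -/
noncomputable def xbar (e : Fin m × Fin n) : Poly F m n := X (e, false)

/-- The ideal `I` generated by the Boolean axioms. -/
noncomputable def boolIdeal : Ideal (Poly F m n) :=
  Ideal.span {p | ∃ e, p = x F m n e ^ 2 - x F m n e ∨ p = x F m n e + xbar F m n e - 1}

/-- The encodings of the clauses of `fPHP`: injectivity, functionality and totality. -/
def fPHP : Set (Poly F m n) :=
  {p | ∃ i i' j, i ≠ i' ∧ p = x F m n (i, j) * x F m n (i', j)} ∪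
  {p | ∃ i j j', j ≠ j' ∧ p = x F m n (i, j) * x F m n (i, j')} ∪
  {p | ∃ i, p = ∏ j, xbar F m n (i, j)}

variable {F m n}

/-- A semantic polynomial calculus refutation `M 0, …, M l` of `P` over the ideal `J`. -/
structure IsRefutation (J : Ideal (Poly F m n)) (P : Set (Poly F m n)) (l : ℕ)
    (M : ℕ → Finset (Poly F m n)) : Prop where
  zero : M 0 = ∅
  one_mem : 1 ∈ M l
  step : ∀ t < l, ∃ p ∈ P ∪ {0}, ∀ q ∈ M (t + 1),
    q ∈ Ideal.span (M t : Set (Poly F m n)) ⊔ J ⊔ Ideal.span {p}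

open Classical in
/-- The distinct monomials which occur in the polynomials of a configuration. -/
noncomputable def monos (C : Finset (Poly F m n)) : Finset (((Fin m × Fin n) × Bool) →₀ ℕ) :=
  C.biUnion fun p => p.support

/-- The monomial space of `M 0, …, M l`. -/
noncomputable def MSp (l : ℕ) (M : ℕ → Finset (Poly F m n)) : ℕ :=
  (range (l + 1)).sup fun t => (monos (M t)).card

/-- `μ` is a partial matching: two of its edges which share the pigeon or the hole are equal. -/
def IsPartialMatching (μ : Finset (Fin m × Fin n)) : Prop :=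
  ∀ e ∈ μ, ∀ f ∈ μ, (e.1 = f.1 ∨ e.2 = f.2) → e = f

variable (F) in
/-- The 0-1 point of `μ`: `x e = 1` and `xbar e = 0` for `e ∈ μ`, `x e = 0` and `xbar e = 1` for
`e ∉ μ`. -/
def point (μ : Finset (Fin m × Fin n)) : (Fin m × Fin n) × Bool → F :=
  fun v => if (decide (v.1 ∈ μ)) = v.2 then 1 else 0

variable (F m n)

/-- The ideal of all polynomials which vanish at all partial matchings. -/
noncomputable def matchIdeal : Ideal (Poly F m n) :=
  ⨅ (μ : Finset (Fin m × Fin n)) (_ : IsPartialMatching μ), RingHom.ker (eval (point F μ))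

/-- The polynomials `p` for which there is a pigeon `i` such that `p` vanishes at all partial
matchings which match `i`. -/
def pigeonAxioms : Set (Poly F m n) :=
  {p | ∃ i : Fin m, ∀ μ : Finset (Fin m × Fin n), IsPartialMatching μ → (∃ j, (i, j) ∈ μ) →
      eval (point F μ) p = 0}

variable {m n}

/-- The value of the monomial `d` at the point of `μ` is one. -/
def Alive (μ : Finset (Fin m × Fin n)) (d : ((Fin m × Fin n) × Bool) →₀ ℕ) : Prop :=
  (∀ e, d (e, true) ≠ 0 → e ∈ μ) ∧ ∀ e, d (e, false) ≠ 0 → e ∉ μ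

/-- The pigeon `i` is not matched by `β`. -/
def FreePigeon (β : Finset (Fin m × Fin n)) (i : Fin m) : Prop := ∀ j, (i, j) ∉ β

/-- The hole `j` is not matched by `β`. -/
def FreeHole (β : Finset (Fin m × Fin n)) (j : Fin n) : Prop := ∀ i, (i, j) ∉ β

open Classical in
/-- The free holes `j` such that `(i, j)` is in `G`. -/
noncomputable def avail (G β : Finset (Fin m × Fin n)) (i : Fin m) : Finset (Fin n) :=
  univ.filter fun j => (i, j) ∈ G ∧ FreeHole β j

open Classical in
/-- The free holes `j` such that `(i, j)` is in `G` and the barred variable of `(i, j)` occurs in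
the monomial `d`. -/
noncomputable def barred (G β : Finset (Fin m × Fin n)) (d : ((Fin m × Fin n) × Bool) →₀ ℕ)
    (i : Fin m) : Finset (Fin n) :=
  univ.filter fun j => (i, j) ∈ G ∧ FreeHole β j ∧ d ((i, j), false) ≠ 0

open Classical in
/-- The free holes `j` such that `(i, j)` is in `G` and the barred variable of `(i, j)` does not
occur in the monomial `d`. -/
noncomputable def missing (G β : Finset (Fin m × Fin n)) (d : ((Fin m × Fin n) × Bool) →₀ ℕ)
    (i : Fin m) : Finset (Fin n) :=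
  univ.filter fun j => (i, j) ∈ G ∧ FreeHole β j ∧ d ((i, j), false) = 0

/-- The value of the monomial `d` is zero at all partial matchings which contain `β` and all of
whose other edges are in `G`. -/
def Zero (G β : Finset (Fin m × Fin n)) (d : ((Fin m × Fin n) × Bool) →₀ ℕ) : Prop :=
  ∀ ν, IsPartialMatching ν → β ⊆ ν → (∀ e ∈ ν, e ∈ β ∨ e ∈ G) → ¬ Alive ν d

open Classical in
/-- The free pigeons for which the monomial `d` has an unbarred variable, or more than `k` barred
variables at free holes. -/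
noncomputable def heavy (G β : Finset (Fin m × Fin n)) (k : ℕ)
    (d : ((Fin m × Fin n) × Bool) →₀ ℕ) : Finset (Fin m) :=
  univ.filter fun i => FreePigeon β i ∧ ((∃ j, d ((i, j), true) ≠ 0) ∨ k < (barred G β d i).card)

/-- The kinds of monomials which are allowed. `G` is the set of the edges which are used, `β` the
base matching; a pigeon or hole is free if `β` does not match it, and barred variables count at the
free holes `j` with `(i, j) ∈ G` only. The kinds are: `d` vanishes at all partial matchings which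
contain `β` and have their other edges in `G`; all its heavy pigeons are in `S` and there are at
most `r` of them; it has an unbarred variable at a free pigeon outside `S`; it has, for some free
pigeon, all the barred variables; it has, for some free pigeon outside `S`, all but at most `k` of
them; it is rich: there are more than `T` free pigeons for which it has an unbarred variable or more
than `T` barred variables. -/
def Tame (S : Finset (Fin m)) (G β : Finset (Fin m × Fin n)) (T k r : ℕ)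
    (d : ((Fin m × Fin n) × Bool) →₀ ℕ) : Prop :=
  Zero G β d ∨
  (heavy G β k d ⊆ S ∧ (heavy G β k d).card ≤ r) ∨
  (∃ i ∉ S, FreePigeon β i ∧ ∃ j, d ((i, j), true) ≠ 0) ∨
  (∃ i, FreePigeon β i ∧ missing G β d i = ∅) ∨
  (∃ i ∉ S, FreePigeon β i ∧ (missing G β d i).card ≤ k) ∨
  T < (heavy G β T d).card

end Defs

section Proof

variable {F : Type*} [Field F] {m n : ℕ}

theorem eval_mono (μ : Finset (Fin m × Fin n)) (d : ((Fin m × Fin n) × Bool) →₀ ℕ)
    [Decidable (Alive μ d)] :
    d.prod (fun v k => point F μ v ^ k) = if Alive μ d then 1 else 0 := by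
  classical
  split_ifs with h
  · obtain ⟨h1, h2⟩ := h
    refine Finset.prod_eq_one ?_
    rintro ⟨e, b⟩ hv
    rw [Finsupp.mem_support_iff] at hv
    have : point F μ (e, b) = 1 := by
      unfold point
      cases b with
      | true => simp [h1 e hv]
      | false => simp [h2 e hv]
    change point F μ (e, b) ^ d (e, b) = 1
    rw [this, one_pow]
  · unfold Alive at h
    rw [not_and_or] at h
    rcases h with h | h
    · push Not at h
      obtain ⟨e, hd, hem⟩ := h
      refine Finset.prod_eq_zero (i := (e, true)) (by rwa [Finsupp.mem_support_iff]) ?_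
      have : point F μ (e, true) = 0 := by simp [point, hem]
      change point F μ (e, true) ^ d (e, true) = 0
      rw [this, zero_pow hd]
    · push Not at h
      obtain ⟨e, hd, hem⟩ := h
      refine Finset.prod_eq_zero (i := (e, false)) (by rwa [Finsupp.mem_support_iff]) ?_
      have : point F μ (e, false) = 0 := by simp [point, hem]
      change point F μ (e, false) ^ d (e, false) = 0
      rw [this, zero_pow hd]

theorem isPM_insert {μ : Finset (Fin m × Fin n)} (hμ : IsPartialMatching μ) {i : Fin m}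
    {j : Fin n} (hi : ∀ j', (i, j') ∉ μ) (hj : ∀ i', (i', j) ∉ μ) :
    IsPartialMatching (insert (i, j) μ) := by
  rintro ⟨a, b⟩ he ⟨c, d⟩ hf h
  rw [mem_insert] at he hf
  rcases he with he | he <;> rcases hf with hf | hf
  · rw [he, hf]
  · obtain ⟨rfl, rfl⟩ := Prod.mk.inj he
    rcases h with h | h
    · exact absurd hf (by simp only at h; rw [← h]; exact hi _)
    · exact absurd hf (by simp only at h; rw [← h]; exact hj _)
  · obtain ⟨rfl, rfl⟩ := Prod.mk.inj hf
    rcases h with h | h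
    · exact absurd he (by simp only at h; rw [h]; exact hi _)
    · exact absurd he (by simp only at h; rw [h]; exact hj _)
  · exact hμ _ he _ hf h


/-- Exponent vectors. -/
abbrev Mono (m n : ℕ) : Type := ((Fin m × Fin n) × Bool) →₀ ℕ

/-- The data of the theorem. -/
structure Par (m n : ℕ) where
  S : Finset (Fin m)
  G : Finset (Fin m × Fin n)
  β : Finset (Fin m × Fin n)
  T : ℕ
  Δ : ℕ
  k : Mono m n → ℕ
  r : Mono m n → ℕ
  hG : ∀ i, FreePigeon β i → Δ ≤ (avail G β i).card

/-- The edge `e` kills the monomial `d`. -/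
def KillE (e : Fin m × Fin n) (d : Mono m n) : Prop :=
  d (e, false) ≠ 0 ∨ ∃ j, j ≠ e.2 ∧ d ((e.1, j), true) ≠ 0

/-- Some edge of `ν` kills the monomial `d`. -/
def Kill (ν : Finset (Fin m × Fin n)) (d : Mono m n) : Prop := ∃ e ∈ ν, KillE e d

theorem Kill.mono {ν ν' : Finset (Fin m × Fin n)} {d : Mono m n} (h : Kill ν d)
    (hs : ν ⊆ ν') : Kill ν' d := by
  obtain ⟨e, he, h'⟩ := h
  exact ⟨e, hs he, h'⟩

theorem Kill.not_alive {ν : Finset (Fin m × Fin n)} (hν : IsPartialMatching ν) {d : Mono m n}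
    (h : Kill ν d) : ¬ Alive ν d := by
  obtain ⟨e, he, h' | ⟨j, hj, h'⟩⟩ := h
  · exact fun ha => ha.2 e h' he
  · intro ha
    have h1 := ha.1 _ h'
    have h2 := hν _ h1 _ he (Or.inl rfl)
    exact hj (congrArg Prod.snd h2)

namespace Par

variable (P : Par m n)

/-- The remembered monomials. -/
def L (d : Mono m n) : Prop :=
  ¬ Zero P.G P.β d ∧ heavy P.G P.β (P.k d) d ⊆ P.S ∧ (heavy P.G P.β (P.k d) d).card ≤ P.r d

/-- The monomials with an unbarred variable at a free pigeon outside `S`. -/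
def Out (d : Mono m n) : Prop :=
  ∃ e : Fin m × Fin n, e.1 ∉ P.S ∧ FreePigeon P.β e.1 ∧ d (e, true) ≠ 0

/-- The monomials with a full row. -/
def Full (d : Mono m n) : Prop := ∃ i, FreePigeon P.β i ∧ missing P.G P.β d i = ∅

/-- The monomials with a nearly full row outside `S`. -/
def Near (d : Mono m n) : Prop :=
  ∃ i, i ∉ P.S ∧ FreePigeon P.β i ∧ (missing P.G P.β d i).card ≤ P.k d

open Classical in
/-- The edges which are avoided because of the monomial `d`. -/
noncomputable def ex (d : Mono m n) : Finset (Fin m × Fin n) :=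
  if P.L d then
    univ.filter fun e => e.1 ∉ heavy P.G P.β (P.k d) d ∧ FreePigeon P.β e.1 ∧ e ∈ P.G ∧
      FreeHole P.β e.2 ∧ d (e, false) ≠ 0
  else if h : P.Out d then {h.choose}
  else if P.Full d then ∅
  else if h : P.Near d then
    univ.filter fun e => e.1 = h.choose ∧ e ∈ P.G ∧ FreeHole P.β e.2 ∧ d (e, false) = 0
  else ∅

open Classical in
/-- The number of holes which are excluded for a pigeon because of `d`. -/
noncomputable def xd (d : Mono m n) : ℕ := if P.L d then P.k d else if P.Out d then 1 else P.k d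

open Classical in
/-- The number of edges which are needed because of `d`. -/
noncomputable def ed (d : Mono m n) : ℕ :=
  if P.L d then max 1 (P.r d) else if P.Out d then 0 else max 1 (P.r d)

theorem xd_add_ed (d : Mono m n) : P.xd d + P.ed d ≤ P.k d + max 1 (P.r d) := by
  unfold xd ed
  split_ifs <;> omega

theorem card_ex (d : Mono m n) (i : Fin m) :
    (univ.filter fun j => (i, j) ∈ P.ex d).card ≤ P.xd d := by
  classical
  unfold ex xd
  split_ifs with h1 h2 h3 h4
  · by_cases hi : i ∉ heavy P.G P.β (P.k d) d ∧ FreePigeon P.β i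
    · have h5 : ¬ P.k d < (barred P.G P.β d i).card := by
        intro h
        refine hi.1 ?_
        unfold heavy
        rw [mem_filter]
        exact ⟨mem_univ _, hi.2, Or.inr h⟩
      refine le_trans (card_le_card ?_) (not_lt.1 h5)
      intro j hj
      rw [mem_filter, mem_filter] at hj
      unfold barred
      exact mem_filter.2 ⟨mem_univ _, hj.2.2.2.2.1, hj.2.2.2.2.2.1, hj.2.2.2.2.2.2⟩
    · refine le_trans (le_of_eq ?_) (Nat.zero_le _)
      rw [card_eq_zero, filter_eq_empty_iff]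
      intro j _ hj
      rw [mem_filter] at hj
      exact hi ⟨hj.2.1, hj.2.2.1⟩
  · refine card_le_one.2 ?_
    intro a ha b hb
    rw [mem_filter, mem_singleton] at ha hb
    exact (Prod.mk.inj (ha.2.trans hb.2.symm)).2
  · simp
  · by_cases hi : i = h4.choose
    · refine le_trans (card_le_card ?_) h4.choose_spec.2.2
      intro j hj
      rw [mem_filter, mem_filter] at hj
      refine mem_filter.2 ⟨mem_univ _, ?_, hj.2.2.2.2.1, ?_⟩
      · rw [← hi]
        exact hj.2.2.2.1
      · rw [← hi]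
        exact hj.2.2.2.2.2
    · refine le_trans (le_of_eq ?_) (Nat.zero_le _)
      rw [card_eq_zero, filter_eq_empty_iff]
      intro j _ hj
      rw [mem_filter] at hj
      exact hi hj.2.1
  · simp

/-- `ν` is a matching which extends `ρ` by edges that are not excluded. -/
structure Ext (D : Finset (Mono m n)) (ρ ν : Finset (Fin m × Fin n)) : Prop where
  sub : ρ ⊆ ν
  pm : IsPartialMatching ν
  av : ∀ e ∈ ν, e ∉ ρ → ∀ d ∈ D, e ∉ P.ex d
  al : ∀ e ∈ ν, e ∉ ρ → e ∈ P.G

variable {P}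

theorem add_edge {D : Finset (Mono m n)} {ρ ν : Finset (Fin m × Fin n)} (h : P.Ext D ρ ν)
    {i : Fin m} {j : Fin n} (hi : ∀ j', (i, j') ∉ ν) (hj : ∀ i', (i', j) ∉ ν)
    (hj' : ∀ d ∈ D, (i, j) ∉ P.ex d) (hG : (i, j) ∈ P.G) : P.Ext D ρ (insert (i, j) ν) := by
  classical
  refine ⟨h.sub.trans (subset_insert _ _), isPM_insert h.pm hi hj, ?_, ?_⟩
  · intro e he heρ d hd
    rw [mem_insert] at he
    rcases he with rfl | he
    · exact hj' d hd
    · exact h.av e he heρ d hd
  · intro e he heρ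
    rw [mem_insert] at he
    rcases he with rfl | he
    · exact hG
    · exact h.al e he heρ

theorem card_out {ρ ν : Finset (Fin m × Fin n)} (hβ : P.β ⊆ ρ) (h : ρ ⊆ ν) :
    (ν \ P.β).card + P.β.card = ν.card := by
  rw [card_sdiff_of_subset (hβ.trans h)]
  have := card_le_card (hβ.trans h)
  omega

/-- A hole for the pigeon `i` outside the small set `X`. -/
theorem add_any {D : Finset (Mono m n)} {ρ ν : Finset (Fin m × Fin n)} (h : P.Ext D ρ ν)
    (hβ : P.β ⊆ ρ) (X : Finset (Fin n))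
    (hc : ν.card + ∑ d ∈ D, P.xd d + X.card < P.β.card + P.Δ) {i : Fin m}
    (hi : ∀ j', (i, j') ∉ ν) :
    ∃ j, j ∉ X ∧ P.Ext D ρ (insert (i, j) ν) := by
  classical
  obtain ⟨j, hjG, hjF, hj⟩ : ∃ j, (i, j) ∈ P.G ∧ FreeHole P.β j ∧
      j ∉ X ∪ ((ν \ P.β).image Prod.snd ∪
        D.biUnion fun d => univ.filter fun j => (i, j) ∈ P.ex d) := by
    have h1 := P.hG i fun j hj => hi j (h.sub (hβ hj))
    have h3 := card_union_le X ((ν \ P.β).image Prod.snd ∪
      D.biUnion fun d => univ.filter fun j => (i, j) ∈ P.ex d)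
    have h5 := card_union_le ((ν \ P.β).image Prod.snd)
      (D.biUnion fun d => univ.filter fun j => (i, j) ∈ P.ex d)
    have h4 : ((ν \ P.β).image Prod.snd).card ≤ (ν \ P.β).card := card_image_le
    have h6 : (D.biUnion fun d => univ.filter fun j => (i, j) ∈ P.ex d).card ≤
        ∑ d ∈ D, P.xd d := card_biUnion_le.trans (sum_le_sum fun d _ => P.card_ex d i)
    have h8 := card_out hβ h.sub
    have h7 : (X ∪ ((ν \ P.β).image Prod.snd ∪
      D.biUnion fun d => univ.filter fun j => (i, j) ∈ P.ex d)).card < P.Δ := by omega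
    obtain ⟨j, hj1, hj2⟩ := exists_mem_notMem_of_card_lt_card (h7.trans_le h1)
    unfold avail at hj1
    rw [mem_filter] at hj1
    exact ⟨j, hj1.2.1, hj1.2.2, hj2⟩
  rw [mem_union, mem_union, not_or, not_or] at hj
  refine ⟨j, hj.1, add_edge h hi (fun i' h' => ?_) ?_ hjG⟩
  · exact hj.2.1 (mem_image.2 ⟨_, mem_sdiff.2 ⟨h', fun h'' => hjF i' h''⟩, rfl⟩)
  · intro d hd h'
    exact hj.2.2 (mem_biUnion.2 ⟨d, hd, mem_filter.2 ⟨mem_univ _, h'⟩⟩)

theorem add_pigeon {D : Finset (Mono m n)} {ρ ν : Finset (Fin m × Fin n)} (h : P.Ext D ρ ν)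
    (hβ : P.β ⊆ ρ) (hc : ν.card + ∑ d ∈ D, P.xd d < P.β.card + P.Δ) (i : Fin m) :
    ∃ ν', ν ⊆ ν' ∧ P.Ext D ρ ν' ∧ ν'.card ≤ ν.card + 1 ∧ ∃ j, (i, j) ∈ ν' := by
  classical
  by_cases hi : ∃ j, (i, j) ∈ ν
  · exact ⟨ν, Subset.rfl, h, by omega, hi⟩
  push Not at hi
  obtain ⟨j, _, g⟩ := add_any h hβ ∅ (by simpa using hc) hi
  exact ⟨_, subset_insert _ _, g, card_insert_le _ _, j, mem_insert_self _ _⟩

theorem match_set {D : Finset (Mono m n)} {ρ ν : Finset (Fin m × Fin n)} (h : P.Ext D ρ ν)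
    (hβ : P.β ⊆ ρ) (H : Finset (Fin m)) :
    ν.card + H.card + ∑ d ∈ D, P.xd d ≤ P.β.card + P.Δ →
    ∃ ν', ν ⊆ ν' ∧ P.Ext D ρ ν' ∧ ν'.card ≤ ν.card + H.card ∧ ∀ i ∈ H, ∃ j, (i, j) ∈ ν' := by
  classical
  induction H using Finset.induction_on with
  | empty =>
    intro _
    exact ⟨ν, Subset.rfl, h, by simp, fun i hi => absurd hi (notMem_empty _)⟩
  | insert i H hiH ih =>
    intro hc
    rw [card_insert_of_notMem hiH] at hc
    obtain ⟨ν', h1, h2, h3, h4⟩ := ih (by omega)
    obtain ⟨ν'', g1, g2, g3, g4⟩ := add_pigeon h2 hβ (by omega) i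
    refine ⟨ν'', h1.trans g1, g2, by rw [card_insert_of_notMem hiH]; omega, ?_⟩
    intro i' hi'
    rw [mem_insert] at hi'
    rcases hi' with rfl | hi'
    · exact g4
    · obtain ⟨j, hj⟩ := h4 i' hi'
      exact ⟨j, g1 hj⟩

/-- One more edge kills a monomial which is not remembered. -/
theorem add_kill {D : Finset (Mono m n)} {ρ ν : Finset (Fin m × Fin n)} (h : P.Ext D ρ ν)
    (hβ : P.β ⊆ ρ) (hS : ∀ e ∈ ρ, e ∈ P.β ∨ (e.1 ∈ P.S ∧ e ∈ P.G)) (hn : P.T < P.Δ)
    (hc : ν.card + 1 + ∑ d ∈ D, P.xd d ≤ P.β.card + P.T) {d : Mono m n} (hd : d ∈ D)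
    (ht : Tame P.S P.G P.β P.T (P.k d) (P.r d) d) (hZ : ¬ Zero P.G P.β d) (hL : ¬ P.L d)
    (hO : ¬ P.Out d) :
    ∃ ν', ν ⊆ ν' ∧ P.Ext D ρ ν' ∧ ν'.card ≤ ν.card + 1 ∧ Kill ν' d := by
  classical
  have hβν : P.β ⊆ ν := hβ.trans h.sub
  have hfree : ∀ ν' : Finset (Fin m × Fin n), P.Ext D ρ ν' → ∀ i j, FreePigeon P.β i →
      (i, j) ∈ ν' → FreeHole P.β j := by
    intro ν' h' i j hi hij i' hi'
    have h5 := h'.pm _ hij _ (h'.sub (hβ hi')) (Or.inr rfl)
    rw [← h5] at hi'
    exact hi j hi'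
  have hG : ∀ ν' : Finset (Fin m × Fin n), P.Ext D ρ ν' → ∀ i j, FreePigeon P.β i →
      (i, j) ∈ ν' → (i, j) ∈ P.G := by
    intro ν' h' i j hi hij
    by_cases h1 : (i, j) ∈ ρ
    · rcases hS _ h1 with h2 | h2
      · exact absurd h2 (hi j)
      · exact h2.2
    · exact h'.al _ hij h1
  by_cases hF : P.Full d
  · obtain ⟨i, hi, hm⟩ := hF
    obtain ⟨ν', g1, g2, g3, j, g4⟩ := add_pigeon h hβ (by omega) i
    refine ⟨ν', g1, g2, g3, _, g4, Or.inl ?_⟩
    intro h0
    have h1 : j ∈ missing P.G P.β d i :=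
      mem_filter.2 ⟨mem_univ _, hG ν' g2 i j hi g4, hfree ν' g2 i j hi g4, h0⟩
    rw [hm] at h1
    exact notMem_empty _ h1
  by_cases hN : P.Near d
  · obtain ⟨ν', g1, g2, g3, j, g4⟩ := add_pigeon h hβ (by omega) hN.choose
    refine ⟨ν', g1, g2, g3, _, g4, Or.inl ?_⟩
    intro h0
    have hρ : (hN.choose, j) ∉ ρ := by
      intro h1
      rcases hS _ h1 with h2 | h2
      · exact hN.choose_spec.2.1 j h2
      · exact hN.choose_spec.1 h2.1
    have h3 := g2.av _ g4 hρ d hd
    unfold ex at h3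
    rw [if_neg hL, dif_neg hO, if_neg hF, dif_pos hN, mem_filter] at h3
    exact h3 ⟨mem_univ _, rfl, hG ν' g2 _ j hN.choose_spec.2.1 g4,
      hfree ν' g2 _ j hN.choose_spec.2.1 g4, h0⟩
  have hR : P.T < (heavy P.G P.β P.T d).card := by
    rcases ht with ht | ht | ⟨i, h1, h2, j, h3⟩ | ht | ⟨i, h1, h2, h3⟩ | ht
    · exact absurd ht hZ
    · exact absurd ⟨hZ, ht⟩ hL
    · exact absurd ⟨(i, j), h1, h2, h3⟩ hO
    · exact absurd ht hF
    · exact absurd ⟨i, h1, h2, h3⟩ hN
    · exact ht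
  have hcs := card_out hβ h.sub
  obtain ⟨i, hi1, hi2⟩ : ∃ i ∈ heavy P.G P.β P.T d, ∀ j, (i, j) ∉ ν := by
    by_contra hcon
    push Not at hcon
    have h2 : heavy P.G P.β P.T d ⊆ (ν \ P.β).image Prod.fst := by
      intro i hi
      obtain ⟨j, hj⟩ := hcon i hi
      unfold heavy at hi
      rw [mem_filter] at hi
      exact mem_image.2 ⟨_, mem_sdiff.2 ⟨hj, hi.2.1 j⟩, rfl⟩
    have h3 := (card_le_card h2).trans card_image_le
    omega
  unfold heavy at hi1
  rw [mem_filter] at hi1
  obtain ⟨-, hif, ⟨j0, hj0⟩ | hT⟩ := hi1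
  · obtain ⟨j, hj, g⟩ := add_any h hβ {j0} (by rw [card_singleton]; omega) hi2
    rw [mem_singleton] at hj
    exact ⟨_, subset_insert _ _, g, card_insert_le _ _, (i, j), mem_insert_self _ _,
      Or.inr ⟨j0, fun h' => hj h'.symm, hj0⟩⟩
  · obtain ⟨j, hj1, hj2⟩ : ∃ j ∈ barred P.G P.β d i, j ∉ (ν \ P.β).image Prod.snd ∪
        D.biUnion fun d => univ.filter fun j => (i, j) ∈ P.ex d := by
      by_contra hcon
      push Not at hcon
      have h2 := card_le_card (fun j (hj : j ∈ barred P.G P.β d i) => hcon j hj)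
      have h3 := h2.trans (card_union_le _ _)
      have h4 : ((ν \ P.β).image Prod.snd).card ≤ (ν \ P.β).card := card_image_le
      have h6 : (D.biUnion fun d => univ.filter fun j => (i, j) ∈ P.ex d).card ≤
          ∑ d ∈ D, P.xd d := card_biUnion_le.trans (sum_le_sum fun d _ => P.card_ex d i)
      omega
    rw [mem_union, not_or] at hj2
    unfold barred at hj1
    rw [mem_filter] at hj1
    refine ⟨_, subset_insert _ _, add_edge h hi2 (j := j) ?_ ?_ hj1.2.1, card_insert_le _ _,
      (i, j), mem_insert_self _ _, Or.inl hj1.2.2.2⟩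
    · intro i' h'
      by_cases hb : (i', j) ∈ P.β
      · exact hj1.2.2.1 i' hb
      · exact hj2.1 (mem_image.2 ⟨_, mem_sdiff.2 ⟨h', hb⟩, rfl⟩)
    · intro d' hd' h'
      exact hj2.2 (mem_biUnion.2 ⟨d', hd', mem_filter.2 ⟨mem_univ _, h'⟩⟩)

/-- The monomial `d` has been dealt with. -/
def Done (P : Par m n) (ν : Finset (Fin m × Fin n)) (d : Mono m n) : Prop :=
  (P.L d → ∀ i ∈ heavy P.G P.β (P.k d) d, ∃ j, (i, j) ∈ ν) ∧
    (¬ Zero P.G P.β d → ¬ P.L d → ¬ P.Out d → Kill ν d)

theorem Done.mono {ν ν' : Finset (Fin m × Fin n)} {d : Mono m n} (h : P.Done ν d)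
    (hs : ν ⊆ ν') : P.Done ν' d := by
  refine ⟨fun hL i hi => ?_, fun h1 h2 h3 => (h.2 h1 h2 h3).mono hs⟩
  obtain ⟨j, hj⟩ := h.1 hL i hi
  exact ⟨j, hs hj⟩

theorem exists_done {D : Finset (Mono m n)} {ρ : Finset (Fin m × Fin n)}
    (hρ : IsPartialMatching ρ)
    (hβ : P.β ⊆ ρ) (hS : ∀ e ∈ ρ, e ∈ P.β ∨ (e.1 ∈ P.S ∧ e ∈ P.G)) (hn : P.T < P.Δ)
    (ht : ∀ d ∈ D, Tame P.S P.G P.β P.T (P.k d) (P.r d) d)
    (D' : Finset (Mono m n)) : D' ⊆ D →
    ρ.card + ∑ d ∈ D', P.ed d + ∑ d ∈ D, P.xd d ≤ P.β.card + P.T →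
    ∃ ν, P.Ext D ρ ν ∧ ν.card ≤ ρ.card + ∑ d ∈ D', P.ed d ∧ ∀ d ∈ D', P.Done ν d := by
  classical
  induction D' using Finset.induction_on with
  | empty =>
    intro _ _
    exact ⟨ρ, ⟨Subset.rfl, hρ, fun e h1 h2 => absurd h1 h2, fun e h1 h2 => absurd h1 h2⟩, by simp,
      fun d hd => absurd hd (notMem_empty _)⟩
  | insert d D' hdD' ih =>
    intro hsub hc
    rw [sum_insert hdD'] at hc
    obtain ⟨ν, h1, h2, h3⟩ := ih ((subset_insert _ _).trans hsub) (by omega)
    have hdD : d ∈ D := hsub (mem_insert_self _ _)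
    have key : ∃ ν', ν ⊆ ν' ∧ P.Ext D ρ ν' ∧ ν'.card ≤ ν.card + P.ed d ∧ P.Done ν' d := by
      by_cases hL : P.L d
      · have hed : P.ed d = max 1 (P.r d) := by unfold ed; rw [if_pos hL]
        have hr : (heavy P.G P.β (P.k d) d).card ≤ P.ed d := by
          rw [hed]; exact hL.2.2.trans (le_max_right _ _)
        obtain ⟨ν', g1, g2, g3, g4⟩ := match_set h1 hβ (heavy P.G P.β (P.k d) d) (by omega)
        exact ⟨ν', g1, g2, by omega, fun _ => g4, fun _ h => absurd hL h⟩
      · by_cases hZ : Zero P.G P.β d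
        · exact ⟨ν, Subset.rfl, h1, by omega, fun h => absurd h hL, fun h => absurd hZ h⟩
        by_cases hO : P.Out d
        · exact ⟨ν, Subset.rfl, h1, by omega, fun h => absurd h hL, fun _ _ h => absurd hO h⟩
        have hed : 1 ≤ P.ed d := by
          unfold ed; rw [if_neg hL, if_neg hO]; exact le_max_left _ _
        obtain ⟨ν', g1, g2, g3, g4⟩ := add_kill h1 hβ hS hn (by omega) hdD (ht d hdD) hZ hL hO
        exact ⟨ν', g1, g2, by omega, fun h => absurd h hL, fun _ _ _ => g4⟩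
    obtain ⟨ν', g1, g2, g3, g4⟩ := key
    refine ⟨ν', g2, by rw [sum_insert hdD']; omega, ?_⟩
    intro d' hd'
    rw [mem_insert] at hd'
    rcases hd' with rfl | hd'
    · exact g4
    · exact (h3 d' hd').mono g1

/-- The value of the remembered monomial `d` is decided by `ρ`. -/
def Dec (P : Par m n) (ρ : Finset (Fin m × Fin n)) (d : Mono m n) : Prop :=
  (Alive ρ d ∧ ∀ i ∈ heavy P.G P.β (P.k d) d, ∃ j, (i, j) ∈ ρ) ∨ Kill ρ d

theorem free_of_new {ρ ν : Finset (Fin m × Fin n)} (hβ : P.β ⊆ ρ) (hs : ρ ⊆ ν)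
    (hν : IsPartialMatching ν) {e : Fin m × Fin n} (he : e ∈ ν) (heρ : e ∉ ρ) :
    FreePigeon P.β e.1 ∧ FreeHole P.β e.2 := by
  constructor
  · intro j hj
    have h5 := hν _ he _ (hs (hβ hj)) (Or.inl rfl)
    exact heρ (h5 ▸ hβ hj)
  · intro i hi
    have h5 := hν _ he _ (hs (hβ hi)) (Or.inr rfl)
    exact heρ (h5 ▸ hβ hi)

/-- A new edge with a barred variable of a remembered monomial belongs to a heavy pigeon. -/
theorem heavy_of_new {D : Finset (Mono m n)} {ρ ν : Finset (Fin m × Fin n)} (h : P.Ext D ρ ν)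
    (hβ : P.β ⊆ ρ) {d : Mono m n} (hd : d ∈ D) (hL : P.L d) {e : Fin m × Fin n} (he : e ∈ ν)
    (heρ : e ∉ ρ) (hde : d (e, false) ≠ 0) : e.1 ∈ heavy P.G P.β (P.k d) d := by
  classical
  obtain ⟨h1, h2⟩ := free_of_new hβ h.sub h.pm he heρ
  by_contra h3
  have h4 := h.av e he heρ d hd
  unfold ex at h4
  rw [if_pos hL, mem_filter] at h4
  exact h4 ⟨mem_univ _, h3, h1, h.al e he heρ, h2, hde⟩

theorem alive_iff_of_dec {D : Finset (Mono m n)} {ρ ν : Finset (Fin m × Fin n)}
    (h : P.Ext D ρ ν) (hβ : P.β ⊆ ρ) {d : Mono m n} (hd : d ∈ D) (hL : P.L d)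
    (hdec : P.Dec ρ d) : Alive ν d ↔ Alive ρ d := by
  have hρ : IsPartialMatching ρ := fun e he f hf hef => h.pm e (h.sub he) f (h.sub hf) hef
  rcases hdec with ⟨h1, h2⟩ | h1
  · refine iff_of_true ⟨fun e he => h.sub (h1.1 e he), fun e he hν => ?_⟩ h1
    by_cases heρ : e ∈ ρ
    · exact h1.2 e he heρ
    · have h3 := heavy_of_new h hβ hd hL hν heρ he
      obtain ⟨j, hj⟩ := h2 _ h3
      have h4 := h.pm _ hν _ (h.sub hj) (Or.inl rfl)
      exact heρ (h4 ▸ hj)
  · exact iff_of_false ((h1.mono h.sub).not_alive h.pm) (h1.not_alive hρ)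

theorem not_alive_of_done {D : Finset (Mono m n)} {ρ ν : Finset (Fin m × Fin n)}
    (h : P.Ext D ρ ν) (hβ : P.β ⊆ ρ) (hS : ∀ e ∈ ρ, e ∈ P.β ∨ (e.1 ∈ P.S ∧ e ∈ P.G)) {d : Mono m n}
    (hd : d ∈ D) (hL : ¬ P.L d) (hdone : P.Done ν d) : ¬ Alive ν d := by
  classical
  by_cases hZ : Zero P.G P.β d
  · refine hZ ν h.pm (hβ.trans h.sub) fun e he => ?_
    by_cases h1 : e ∈ ρ
    · rcases hS e h1 with h2 | h2
      · exact Or.inl h2
      · exact Or.inr h2.2
    · exact Or.inr (h.al e he h1)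
  by_cases hO : P.Out d
  · intro ha
    have h1 := hO.choose_spec
    have h2 := ha.1 _ h1.2.2
    have h3 : hO.choose ∉ ρ := by
      intro h4
      rcases hS _ h4 with h5 | h5
      · exact h1.2.1 hO.choose.2 h5
      · exact h1.1 h5.1
    have h4 := h.av _ h2 h3 d hd
    unfold ex at h4
    rw [if_neg hL, dif_pos hO] at h4
    exact h4 (mem_singleton_self _)
  · exact (hdone.2 hZ hL hO).not_alive h.pm

/-- The edges of `ν` which have to be remembered for `d`. -/
theorem exists_memory {D : Finset (Mono m n)} {ρ ν : Finset (Fin m × Fin n)}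
    (h : P.Ext D ρ ν) (hβ : P.β ⊆ ρ) (hS : ∀ e ∈ ρ, e ∈ P.β ∨ (e.1 ∈ P.S ∧ e ∈ P.G)) {d : Mono m n}
    (hd : d ∈ D) (hL : P.L d) (hdone : P.Done ν d ∨ P.Dec ρ d) :
    ∃ w : Finset (Fin m × Fin n), w ⊆ ν ∧ w.card ≤ P.ed d ∧ (∀ e ∈ w, e ∈ P.β ∨ (e.1 ∈ P.S ∧ e ∈ P.G)) ∧
      ∀ ρ', P.β ⊆ ρ' → w ⊆ ρ' → ρ' ⊆ ν → P.Dec ρ' d ∧ (Alive ρ' d ↔ Alive ν d) := by
  classical
  have hed : P.ed d = max 1 (P.r d) := by unfold ed; rw [if_pos hL]
  have hβν : P.β ⊆ ν := hβ.trans h.sub
  have hin : ∀ e ∈ ν, FreePigeon P.β e.1 → e ∈ P.G := by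
    intro e he hf
    by_cases h1 : e ∈ ρ
    · rcases hS e h1 with h2 | h2
      · exact absurd h2 (hf e.2)
      · exact h2.2
    · exact h.al e he h1
  have hhf : ∀ i ∈ heavy P.G P.β (P.k d) d, FreePigeon P.β i := by
    intro i hi
    unfold heavy at hi
    exact (mem_filter.1 hi).2.1
  by_cases ha : Alive ν d
  · have hm : ∀ i ∈ heavy P.G P.β (P.k d) d, ∃ j, (i, j) ∈ ν := by
      rcases hdone with h1 | h1 | h1
      · exact h1.1 hL
      · intro i hi
        obtain ⟨j, hj⟩ := h1.2 i hi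
        exact ⟨j, h.sub hj⟩
      · exact absurd ha ((h1.mono h.sub).not_alive h.pm)
    refine ⟨ν.filter fun e => e.1 ∈ heavy P.G P.β (P.k d) d, filter_subset _ _, ?_, ?_, ?_⟩
    · rw [hed]
      refine le_trans ?_ (le_trans hL.2.2 (le_max_right _ _))
      refine card_le_card_of_injOn Prod.fst ?_ ?_
      · intro e he
        rw [mem_coe, mem_filter] at he
        exact he.2
      · intro e he f hf hef
        rw [mem_coe, mem_filter] at he hf
        exact h.pm e he.1 f hf.1 (Or.inl hef)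
    · intro e he
      rw [mem_filter] at he
      exact Or.inr ⟨hL.2.1 he.2, hin e he.1 (hhf _ he.2)⟩
    · intro ρ' h1 h2 h3
      have h4 : Alive ρ' d := by
        refine ⟨fun e he => ?_, fun e he hρ' => ha.2 e he (h3 hρ')⟩
        have h5 := ha.1 e he
        by_cases h6 : FreePigeon P.β e.1
        · refine h2 (mem_filter.2 ⟨h5, ?_⟩)
          unfold heavy
          exact mem_filter.2 ⟨mem_univ _, h6, Or.inl ⟨e.2, he⟩⟩
        · unfold FreePigeon at h6
          push Not at h6
          obtain ⟨j, hj⟩ := h6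
          have h7 := h.pm _ h5 _ (hβν hj) (Or.inl rfl)
          rw [h7]
          exact h1 hj
      refine ⟨Or.inl ⟨h4, fun i hi => ?_⟩, iff_of_true h4 ha⟩
      obtain ⟨j, hj⟩ := hm i hi
      exact ⟨j, h2 (mem_filter.2 ⟨hj, hi⟩)⟩
  · have hk : ∃ e ∈ ν, (e ∈ P.β ∨ (e.1 ∈ P.S ∧ e ∈ P.G)) ∧ KillE e d := by
      by_cases hkρ : Kill ρ d
      · obtain ⟨e, he, h'⟩ := hkρ
        exact ⟨e, h.sub he, hS e he, h'⟩
      have hm : ∀ i ∈ heavy P.G P.β (P.k d) d, ∃ j, (i, j) ∈ ν := by
        rcases hdone with h1 | h1 | h1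
        · exact h1.1 hL
        · intro i hi
          obtain ⟨j, hj⟩ := h1.2 i hi
          exact ⟨j, h.sub hj⟩
        · exact absurd h1 hkρ
      unfold Alive at ha
      rw [not_and_or] at ha
      rcases ha with ha | ha
      · push Not at ha
        obtain ⟨e, hde, heν⟩ := ha
        by_cases h6 : FreePigeon P.β e.1
        · have h7 : e.1 ∈ heavy P.G P.β (P.k d) d := by
            unfold heavy
            exact mem_filter.2 ⟨mem_univ _, h6, Or.inl ⟨e.2, hde⟩⟩
          obtain ⟨j, hj⟩ := hm _ h7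
          refine ⟨_, hj, Or.inr ⟨hL.2.1 h7, hin _ hj h6⟩, Or.inr ⟨e.2, ?_, hde⟩⟩
          intro h8
          exact heν (by
            have : e = (e.1, j) := Prod.ext rfl h8
            rw [this]; exact hj)
        · unfold FreePigeon at h6
          push Not at h6
          obtain ⟨j, hj⟩ := h6
          refine ⟨_, hβν hj, Or.inl hj, Or.inr ⟨e.2, ?_, hde⟩⟩
          intro h8
          exact heν (by
            have : e = (e.1, j) := Prod.ext rfl h8
            rw [this]; exact hβν hj)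
      · push Not at ha
        obtain ⟨e, hde, heν⟩ := ha
        by_cases heρ : e ∈ ρ
        · exact ⟨e, heν, hS e heρ, Or.inl hde⟩
        · exact ⟨e, heν, Or.inr ⟨hL.2.1 (heavy_of_new h hβ hd hL heν heρ hde), h.al e heν heρ⟩,
            Or.inl hde⟩
    obtain ⟨e, he, h1, h2⟩ := hk
    refine ⟨{e}, singleton_subset_iff.2 he, ?_, ?_, ?_⟩
    · rw [hed, card_singleton]; exact le_max_left _ _
    · intro f hf
      rw [mem_singleton] at hf
      rw [hf]; exact h1
    · intro ρ' _ h4 h5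
      have h6 : Kill ρ' d := ⟨e, h4 (mem_singleton_self _), h2⟩
      have hρ' : IsPartialMatching ρ' := fun a ha' b hb hab => h.pm a (h5 ha') b (h5 hb) hab
      exact ⟨Or.inr h6, iff_of_false (h6.not_alive hρ') ha⟩

open Classical in
/-- The value of the polynomial `p`, if only remembered monomials alive at `ρ` have value one. -/
noncomputable def vsum (P : Par m n) (ρ : Finset (Fin m × Fin n)) (p : Poly F m n) : F :=
  ∑ d ∈ p.support, coeff d p * (if P.L d ∧ Alive ρ d then 1 else 0)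

theorem eval_eq_vsum {ρ ν : Finset (Fin m × Fin n)} {p : Poly F m n}
    (h : ∀ d ∈ p.support, (Alive ν d ↔ P.L d ∧ Alive ρ d)) :
    eval (point F ν) p = P.vsum ρ p := by
  classical
  rw [MvPolynomial.eval_eq]
  unfold vsum
  refine Finset.sum_congr rfl fun d hd => ?_
  have h1 := h d hd
  have e1 := eval_mono (F := F) ν d
  have e3 : (∏ v ∈ d.support, point F ν v ^ d v) =
      if P.L d ∧ Alive ρ d then (1 : F) else 0 := by
    change d.prod (fun v k => point F ν v ^ k) = _
    rw [e1]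
    by_cases h3 : Alive ν d
    · rw [if_pos h3, if_pos (h1.1 h3)]
    · rw [if_neg h3, if_neg (fun h4 => h3 (h1.2 h4))]
  rw [e3]

open Classical in
/-- The state before the step `t`. -/
def Inv (P : Par m n) (M : ℕ → Finset (Poly F m n)) (t : ℕ) (ρ : Finset (Fin m × Fin n)) : Prop :=
  P.β ⊆ ρ ∧ IsPartialMatching ρ ∧ (∀ e ∈ ρ, e ∈ P.β ∨ (e.1 ∈ P.S ∧ e ∈ P.G)) ∧
    ρ.card ≤ P.β.card + ∑ d ∈ (monos (M t)).filter P.L, P.ed d ∧
    (∀ d ∈ monos (M t), P.L d → P.Dec ρ d) ∧ ∀ q ∈ M t, P.vsum ρ q = 0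

theorem step_inv {M : ℕ → Finset (Poly F m n)} {J : Ideal (Poly F m n)} {t : ℕ}
    (hJ : J ≤ matchIdeal F m n) {p : Poly F m n} {i : Fin m}
    (hp : ∀ μ : Finset (Fin m × Fin n), IsPartialMatching μ → (∃ j, (i, j) ∈ μ) →
      eval (point F μ) p = 0)
    (hstep : ∀ q ∈ M (t + 1), q ∈ Ideal.span (M t : Set (Poly F m n)) ⊔ J ⊔ Ideal.span {p})
    (hn : P.T < P.Δ)
    {D : Finset (Mono m n)} (hD : monos (M t) ⊆ D) (hD' : monos (M (t + 1)) ⊆ D)
    (ht : ∀ d ∈ D, Tame P.S P.G P.β P.T (P.k d) (P.r d) d)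
    (hc : ∑ d ∈ D, (P.k d + max 1 (P.r d)) ≤ P.T)
    {ρ : Finset (Fin m × Fin n)} (hI : P.Inv M t ρ) :
    ∃ ν ρ', (∀ q ∈ M (t + 1), eval (point F ν) q = 0) ∧ P.Inv M (t + 1) ρ' := by
  classical
  obtain ⟨h1, h2, h3, h4, h5, h6⟩ := hI
  have hsupp : ∀ t, ∀ q ∈ M t, q.support ⊆ monos (M t) := by
    intro t q hq d hd
    unfold monos
    rw [mem_biUnion]
    exact ⟨q, hq, hd⟩
  have hc' : ∑ d ∈ D, P.xd d +
      ∑ d ∈ D, P.ed d ≤ P.T := by
    rw [← sum_add_distrib]
    exact (sum_le_sum fun d _ => P.xd_add_ed d).trans hc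
  have hsub : (monos (M t)).filter P.L ⊆ D :=
    (filter_subset _ _).trans hD
  have hsplit := sum_sdiff (f := P.ed) hsub
  obtain ⟨ν, g1, g2, g3⟩ := exists_done h2 h1 h3 hn ht
    (D \ (monos (M t)).filter P.L) sdiff_subset (by omega)
  obtain ⟨ν', f1, f2, f3, f4⟩ := add_pigeon g1 h1 (by omega) i
  have hdn : ∀ d ∈ D, P.L d → (P.Done ν' d ∨ P.Dec ρ d) := by
    intro d hd hL
    by_cases hdt : d ∈ monos (M t)
    · exact Or.inr (h5 d hdt hL)
    · refine Or.inl ((g3 d ?_).mono f1)
      rw [mem_sdiff, mem_filter]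
      exact ⟨hd, fun h => hdt h.1⟩
  have hnL : ∀ d ∈ D, ¬ P.L d → ¬ Alive ν' d := by
    intro d hd hL
    refine not_alive_of_done f2 h1 h3 hd hL ((g3 d ?_).mono f1)
    rw [mem_sdiff, mem_filter]
    exact ⟨hd, fun h => hL h.2⟩
  have hvan : ∀ q ∈ M (t + 1), eval (point F ν') q = 0 := by
    intro q hq
    have h7 : Ideal.span (M t : Set (Poly F m n)) ⊔ J ⊔ Ideal.span {p} ≤
        RingHom.ker (eval (point F ν')) := by
      refine sup_le (sup_le ?_ ?_) ?_
      · rw [Ideal.span_le]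
        intro r hr
        refine RingHom.mem_ker.2 ?_
        rw [eval_eq_vsum (P := P) (ρ := ρ)]
        · exact h6 r hr
        · intro d hd
          have hd' := hsupp t r hr hd
          by_cases hL : P.L d
          · rw [alive_iff_of_dec f2 h1 (hD hd') hL (h5 d hd' hL)]
            exact ⟨fun h => ⟨hL, h⟩, fun h => h.2⟩
          · exact iff_of_false (hnL d (hD hd') hL) (fun h => hL h.1)
      · refine hJ.trans ?_
        unfold matchIdeal
        exact iInf₂_le ν' f2.pm
      · rw [Ideal.span_le]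
        intro r hr
        rw [Set.mem_singleton_iff] at hr
        subst hr
        exact RingHom.mem_ker.2 (hp ν' f2.pm f4)
    exact RingHom.mem_ker.1 (h7 (hstep q hq))
  have hmem : ∀ d ∈ (monos (M (t + 1))).filter P.L, ∃ w : Finset (Fin m × Fin n),
      w ⊆ ν' ∧ w.card ≤ P.ed d ∧ (∀ e ∈ w, e ∈ P.β ∨ (e.1 ∈ P.S ∧ e ∈ P.G)) ∧
      ∀ ρ', P.β ⊆ ρ' → w ⊆ ρ' → ρ' ⊆ ν' → P.Dec ρ' d ∧ (Alive ρ' d ↔ Alive ν' d) := by
    intro d hd
    rw [mem_filter] at hd
    exact exists_memory f2 h1 h3 (hD' hd.1) hd.2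
      (hdn d (hD' hd.1) hd.2)
  choose! w w1 w2 w3 w4 using hmem
  have hρ'ν : P.β ∪ ((monos (M (t + 1))).filter P.L).biUnion w ⊆ ν' := by
    refine union_subset (h1.trans f2.sub) ?_
    rw [biUnion_subset]
    exact w1
  have hall : ∀ d ∈ monos (M (t + 1)), P.L d →
      P.Dec (P.β ∪ ((monos (M (t + 1))).filter P.L).biUnion w) d ∧
      (Alive (P.β ∪ ((monos (M (t + 1))).filter P.L).biUnion w) d ↔ Alive ν' d) := by
    intro d hd hL
    have hdm : d ∈ (monos (M (t + 1))).filter P.L := mem_filter.2 ⟨hd, hL⟩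
    exact w4 d hdm _ subset_union_left
      ((subset_biUnion_of_mem w hdm).trans subset_union_right) hρ'ν
  refine ⟨ν', P.β ∪ ((monos (M (t + 1))).filter P.L).biUnion w, hvan, subset_union_left,
    fun a ha b hb hab => f2.pm a (hρ'ν ha) b (hρ'ν hb) hab, ?_, ?_, fun d hd hL =>
    (hall d hd hL).1, ?_⟩
  · intro e he
    rw [mem_union, mem_biUnion] at he
    rcases he with he | ⟨d, hd, he⟩
    · exact Or.inl he
    · exact w3 d hd e he
  · refine (card_union_le _ _).trans (Nat.add_le_add_left ?_ _)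
    exact card_biUnion_le.trans (sum_le_sum w2)
  · intro q hq
    rw [← eval_eq_vsum (P := P) (ν := ν')]
    · exact hvan q hq
    · intro d hd
      have hd' := hsupp (t + 1) q hq hd
      by_cases hL : P.L d
      · rw [(hall d hd' hL).2]
        exact ⟨fun h => ⟨hL, h⟩, fun h => h.2⟩
      · exact iff_of_false (hnL d (hD' hd') hL) (fun h => hL h.1)

end Par

theorem bool_le : boolIdeal F m n ≤ matchIdeal F m n := by
  classical
  unfold boolIdeal matchIdeal
  rw [Ideal.span_le]
  rintro p ⟨e, rfl | rfl⟩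
  · simp only [Submodule.coe_iInf, Set.mem_iInter, SetLike.mem_coe, RingHom.mem_ker]
    intro μ _
    by_cases h : e ∈ μ <;> simp [x, point, h]
  · simp only [Submodule.coe_iInf, Set.mem_iInter, SetLike.mem_coe, RingHom.mem_ker]
    intro μ _
    by_cases h : e ∈ μ <;> simp [x, xbar, point, h]

theorem fPHP_sub (hm : 0 < m) : fPHP F m n ⊆ pigeonAxioms F m n := by
  classical
  rintro p ((⟨i, i', j, hii, rfl⟩ | ⟨i, j, j', hjj, rfl⟩) | ⟨i, rfl⟩)
  · refine ⟨⟨0, hm⟩, fun μ hμ _ => ?_⟩
    by_cases h1 : (i, j) ∈ μ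
    · by_cases h2 : (i', j) ∈ μ
      · have := hμ _ h1 _ h2 (Or.inr rfl)
        exact absurd (congrArg Prod.fst this) hii
      · simp [x, point, h2]
    · simp [x, point, h1]
  · refine ⟨⟨0, hm⟩, fun μ hμ _ => ?_⟩
    by_cases h1 : (i, j) ∈ μ
    · by_cases h2 : (i, j') ∈ μ
      · have := hμ _ h1 _ h2 (Or.inl rfl)
        exact absurd (congrArg Prod.snd this) hjj
      · simp [x, point, h2]
    · simp [x, point, h1]
  · refine ⟨i, fun μ hμ hi => ?_⟩
    obtain ⟨j, hj⟩ := hi
    rw [map_prod]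
    refine Finset.prod_eq_zero (i := j) (mem_univ _) ?_
    simp [xbar, point, hj]

theorem le_MSp {l t : ℕ} {M : ℕ → Finset (Poly F m n)} (ht : t ≤ l) :
    (monos (M t)).card ≤ MSp l M := by
  unfold MSp
  exact Finset.le_sup (f := fun t => (monos (M t)).card) (mem_range.2 (Nat.lt_succ_of_le ht))

theorem bound {β : Finset (Fin m × Fin n)} (hβ : IsPartialMatching β) (S : Finset (Fin m))
    (G : Finset (Fin m × Fin n)) (Δ : ℕ)
    (hG : ∀ i, FreePigeon β i → Δ ≤ (avail G β i).card)
    (hmn : n < m) (J : Ideal (Poly F m n)) (P : Set (Poly F m n))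
    (hJ : J ≤ matchIdeal F m n) (hP : P ⊆ pigeonAxioms F m n) (l : ℕ)
    (M : ℕ → Finset (Poly F m n)) (hM : IsRefutation J P l M) (T : ℕ)
    (k r : (((Fin m × Fin n) × Bool) →₀ ℕ) → ℕ)
    (ht : ∀ t ≤ l, ∀ d ∈ monos (M t), Tame S G β T (k d) (r d) d)
    (hc : ∀ t < l, ∑ d ∈ monos (M t) ∪ monos (M (t + 1)), (k d + max 1 (r d)) ≤ T) :
    Δ ≤ T := by
  classical
  by_contra hcon
  push Not at hcon
  let Q : Par m n := ⟨S, G, β, T, Δ, k, r, hG⟩
  have hstep : ∀ t < l, ∀ ρ, Q.Inv M t ρ →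
      ∃ ν ρ', (∀ q ∈ M (t + 1), eval (point F ν) q = 0) ∧ Q.Inv M (t + 1) ρ' := by
    intro t htl ρ hI
    obtain ⟨p, hp, hst⟩ := hM.step t htl
    obtain ⟨i, hi⟩ : ∃ i : Fin m, ∀ μ : Finset (Fin m × Fin n), IsPartialMatching μ →
        (∃ j, (i, j) ∈ μ) → eval (point F μ) p = 0 := by
      rcases hp with hp | hp
      · exact hP hp
      · rw [Set.mem_singleton_iff] at hp
        subst hp
        exact ⟨⟨0, by omega⟩, fun μ _ _ => map_zero _⟩
    refine Par.step_inv (P := Q) hJ hi hst hcon subset_union_left subset_union_right ?_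
      (hc t htl) hI
    intro d hd
    rw [mem_union] at hd
    rcases hd with hd | hd
    · exact ht t htl.le d hd
    · exact ht (t + 1) htl d hd
  have hinv : ∀ t ≤ l, ∃ ρ, Q.Inv M t ρ := by
    intro t
    induction t with
    | zero =>
      intro _
      refine ⟨β, Subset.rfl, hβ, fun e he => Or.inl he, ?_, ?_, ?_⟩
      · exact Nat.le_add_right _ _
      · intro d hd
        rw [hM.zero] at hd
        unfold monos at hd
        simp at hd
      · intro q hq
        rw [hM.zero] at hq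
        exact absurd hq (Finset.notMem_empty _)
    | succ t ih =>
      intro htl
      obtain ⟨ρ, hρ⟩ := ih (by omega)
      obtain ⟨_, ρ', _, h⟩ := hstep t (by omega) ρ hρ
      exact ⟨ρ', h⟩
  have hlpos : 0 < l := by
    rcases Nat.eq_zero_or_pos l with h | h
    · exfalso
      have h1 := hM.one_mem
      rw [h, hM.zero] at h1
      exact absurd h1 (Finset.notMem_empty _)
    · exact h
  obtain ⟨ρ, hρ⟩ := hinv (l - 1) (by omega)
  obtain ⟨ν, _, h, _⟩ := hstep (l - 1) (by omega) ρ hρ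
  have h5 : l - 1 + 1 = l := by omega
  rw [h5] at h
  have h6 := h 1 hM.one_mem
  rw [map_one] at h6
  exact one_ne_zero h6

theorem bound' {β : Finset (Fin m × Fin n)} (hβ : IsPartialMatching β) (S : Finset (Fin m))
    (G : Finset (Fin m × Fin n)) (Δ : ℕ)
    (hG : ∀ i, FreePigeon β i → Δ ≤ (avail G β i).card)
    {k r : ℕ} (hr : 1 ≤ r)
    (hmn : n < m) (J : Ideal (Poly F m n)) (P : Set (Poly F m n))
    (hJ : J ≤ matchIdeal F m n) (hP : P ⊆ pigeonAxioms F m n) (l : ℕ)
    (M : ℕ → Finset (Poly F m n)) (hM : IsRefutation J P l M)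
    (hT : ∀ t ≤ l, ∀ d ∈ monos (M t), Tame S G β (2 * (k + r) * MSp l M) k r d) :
    Δ ≤ 2 * (k + r) * MSp l M := by
  classical
  refine bound hβ S G Δ hG hmn J P hJ hP l M hM _ (fun _ => k) (fun _ => r) hT ?_
  intro t ht
  have h1 := le_MSp (M := M) ht.le
  have h2 := le_MSp (M := M) (show t + 1 ≤ l by omega)
  have h3 := card_union_le (monos (M t)) (monos (M (t + 1)))
  rw [sum_const, smul_eq_mul, max_eq_right hr]
  have h5 : (monos (M t) ∪ monos (M (t + 1))).card * (k + r) ≤ (2 * MSp l M) * (k + r) :=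
    Nat.mul_le_mul_right _ (by omega)
  have h6 : (2 * MSp l M) * (k + r) = 2 * (k + r) * MSp l M := by ring
  omega

theorem card_avail (G β : Finset (Fin m × Fin n)) (i : Fin m) :
    (univ.filter fun j => (i, j) ∈ G).card ≤ β.card + (avail G β i).card := by
  classical
  have h1 : (univ.filter fun j => (i, j) ∈ G) ⊆ β.image Prod.snd ∪ avail G β i := by
    intro j hj
    rw [mem_filter] at hj
    rw [mem_union]
    by_cases h : FreeHole β j
    · right
      unfold avail
      exact mem_filter.2 ⟨mem_univ _, hj.2, h⟩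
    · left
      unfold FreeHole at h
      push Not at h
      obtain ⟨i', h'⟩ := h
      exact mem_image.2 ⟨_, h', rfl⟩
  have h2 := (card_le_card h1).trans (card_union_le _ _)
  have h3 : (β.image Prod.snd).card ≤ β.card := card_image_le
  omega

/-- The free holes are all but at most `|β|`. -/
theorem card_free (β : Finset (Fin m × Fin n)) (i : Fin m) :
    n - β.card ≤ (avail univ β i).card := by
  have h := card_avail (univ : Finset (Fin m × Fin n)) β i
  have h1 : (univ.filter fun j => (i, j) ∈ (univ : Finset (Fin m × Fin n))).card = n := by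
    simp
  rw [h1] at h
  omega

end Proof

/-- Let `M 0, …, M l` be a semantic polynomial calculus refutation of the functional pigeonhole
principle with `m > n` pigeons and `n` holes over any field, for the conventions of the problem, or
more generally with the ideal of the Boolean axioms enlarged to all polynomials which vanish at all
partial matchings, and the axioms to all polynomials which vanish at all partial matchings that
match some fixed pigeon. Let `β` be a partial matching (what it does not match is free) and `S` a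
set of pigeons.
(1) Let `G` be a set of edges with at least `Δ` edges from each free pigeon to free holes, `T` a
number and `k`, `r` functions of the monomial. If each monomial `d` of the refutation is tame
with `T`, `k d`, `r d`, and the sum of `k d + max 1 (r d)` over the monomials of `M t` and
`M (t + 1)` is at most `T` for all `t < l`, then `Δ ≤ T`.
(2) If, for some `k` and some `r ≥ 1`, all monomials of the refutation are tame (for the set of all
edges) with `T = 2 (k + r) MSp`, `k` and `r`, then `n ≤ |β| + 2 (k + r) MSp`. -/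
theorem result (F : Type*) [Field F] (m n : ℕ) (hmn : n < m) (l : ℕ)
    (M : ℕ → Finset (Poly F m n))
    (hM : IsRefutation (boolIdeal F m n) (fPHP F m n) l M ∨
      IsRefutation (matchIdeal F m n) (pigeonAxioms F m n) l M)
    (β : Finset (Fin m × Fin n)) (hβ : IsPartialMatching β) (S : Finset (Fin m)) :
    (∀ (G : Finset (Fin m × Fin n)) (Δ T : ℕ) (k r : (((Fin m × Fin n) × Bool) →₀ ℕ) → ℕ),
      (∀ i, FreePigeon β i → Δ ≤ (avail G β i).card) →
      (∀ t ≤ l, ∀ d ∈ monos (M t), Tame S G β T (k d) (r d) d) →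
      (∀ t < l, ∑ d ∈ monos (M t) ∪ monos (M (t + 1)), (k d + max 1 (r d)) ≤ T) →
      Δ ≤ T) ∧
    (∀ k r : ℕ, 1 ≤ r →
      (∀ t ≤ l, ∀ d ∈ monos (M t), Tame S univ β (2 * (k + r) * MSp l M) k r d) →
      n ≤ β.card + 2 * (k + r) * MSp l M) := by
  have hm : 0 < m := by omega
  rcases hM with hM | hM
  · refine ⟨fun G Δ T k r hG h h' =>
      bound hβ S G Δ hG hmn _ _ bool_le (fPHP_sub hm) l M hM T k r h h', fun k r hr h => ?_⟩
    have := bound' hβ S univ (n - β.card) (fun i _ => card_free β i) hr hmn _ _ bool_le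
      (fPHP_sub hm) l M hM h
    omega
  · refine ⟨fun G Δ T k r hG h h' =>
      bound hβ S G Δ hG hmn _ _ le_rfl (fun _ h => h) l M hM T k r h h', fun k r hr h => ?_⟩
    have := bound' hβ S univ (n - β.card) (fun i _ => card_free β i) hr hmn _ _ le_rfl
      (fun _ h => h) l M hM h
    omega

end Pool.Agent.Results.MP_96e433_lc.MemoryPigeons
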