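import Mathlib
import Pool.Agent.Lib.FPHPSp.Core

set_option autoImplicit false

open Finset MvPolynomial

namespace Pool.Agent.Results.MP_96e433_lc.SqrtBound

/-- Polynomials over `F` in the variables `x e` and their twins `xbar e`, where `e = (i, j)`
ranges over the pairs of a pigeon `i` and a hole `j`. -/
abbrev Poly (F : Type*) [CommRing F] (m n : ℕ) : Type _ :=
  MvPolynomial ((Fin m × Fin n) × Bool) F

section Defs

variable (F : Type*) [Field F] (m n : ℕ)

/-- The variable `x_{ij}`, `e = (i, j)`. -/
noncomputable def x (e : Fin m × Fin n) : Poly F m n := X (e, true)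

/-- The twin variable of `x_{ij}`, `e = (i, j)`. -/
noncomputable def xbar (e : Fin m × Fin n) : Poly F m n := X (e, false)

/-- The ideal `I` generated by the Boolean axioms. -/
noncomputable def boolIdeal : Ideal (Poly F m n) :=
  Ideal.span {p | ∃ e, p = x F m n e ^ 2 - x F m n e ∨ p = x F m n e + xbar F m n e - 1}

/-- The encodings of the clauses of `fPHP`: injectivity, functionality and totality. -/
def fPHP : Set (Poly F m n) :=
  {p | ∃ i i' j, i ≠ i' ∧ p = x F m n (i, j) * x F m n (i', j)} ∪
  {p | ∃ i j j', j ≠ j' ∧ p = x F m n (i, j) * x F m n (i, j')} ∪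
  {p | ∃ i, p = ∏ j, xbar F m n (i, j)}

variable {F m n}

/-- A semantic polynomial calculus refutation `M 0, …, M l` of `P` over the ideal `J`. -/
structure IsRefutation (J : Ideal (Poly F m n)) (P : Set (Poly F m n)) (l : ℕ)
    (M : ℕ → Finset (Poly F m n)) : Prop where
  zero : M 0 = ∅
  one_mem : 1 ∈ M l
  step : ∀ t < l, ∃ p ∈ P ∪ {0}, ∀ q ∈ M (t + 1),
    q ∈ Ideal.span (M t : Set (Poly F m n)) ⊔ J ⊔ Ideal.span {p}

open Classical in
/-- The distinct monomials which occur in the polynomials of a configuration. -/
noncomputable def monos (C : Finset (Poly F m n)) : Finset (((Fin m × Fin n) × Bool) →₀ ℕ) :=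
  C.biUnion fun p => p.support

/-- The monomial space of `M 0, …, M l`. -/
noncomputable def MSp (l : ℕ) (M : ℕ → Finset (Poly F m n)) : ℕ :=
  (range (l + 1)).sup fun t => (monos (M t)).card

/-- `μ` is a partial matching: two of its edges which share the pigeon or the hole are equal. -/
def IsPartialMatching (μ : Finset (Fin m × Fin n)) : Prop :=
  ∀ e ∈ μ, ∀ f ∈ μ, (e.1 = f.1 ∨ e.2 = f.2) → e = f

variable (F) in
/-- The 0-1 point of `μ`: `x e = 1` and `xbar e = 0` for `e ∈ μ`, `x e = 0` and `xbar e = 1` for
`e ∉ μ`. -/
def point (μ : Finset (Fin m × Fin n)) : (Fin m × Fin n) × Bool → F :=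
  fun v => if (decide (v.1 ∈ μ)) = v.2 then 1 else 0

variable (F m n)

/-- The ideal of all polynomials which vanish at all partial matchings. -/
noncomputable def matchIdeal : Ideal (Poly F m n) :=
  ⨅ (μ : Finset (Fin m × Fin n)) (_ : IsPartialMatching μ), RingHom.ker (eval (point F μ))

/-- The polynomials `p` for which there is a pigeon `i` such that `p` vanishes at all partial
matchings which match `i`, or there is a hole `j` such that `p` vanishes at all partial matchings
which match `j`. -/
def stepAxioms : Set (Poly F m n) :=
  {p | (∃ i : Fin m, ∀ μ : Finset (Fin m × Fin n), IsPartialMatching μ → (∃ j, (i, j) ∈ μ) →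
      eval (point F μ) p = 0) ∨
    (∃ j : Fin n, ∀ μ : Finset (Fin m × Fin n), IsPartialMatching μ → (∃ i, (i, j) ∈ μ) →
      eval (point F μ) p = 0)}

end Defs

open Pool.Agent.Lib.FPHPSp

section Proof

variable {F : Type*} [Field F] {m n : ℕ}

open Classical in
/-- The positive and the negative part of a monomial. -/
noncomputable def parts (d : ((Fin m × Fin n) × Bool) →₀ ℕ) :
    Finset (Fin m × Fin n) × Finset (Fin m × Fin n) :=
  (univ.filter fun e => d (e, true) ≠ 0, univ.filter fun e => d (e, false) ≠ 0)

open Classical in
theorem eval_mono (μ : Finset (Fin m × Fin n)) (d : ((Fin m × Fin n) × Bool) →₀ ℕ) :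
    d.prod (fun v k => point F μ v ^ k) = if Val μ (parts d) then 1 else 0 := by
  classical
  split_ifs with h
  · obtain ⟨h1, h2⟩ := h
    refine Finset.prod_eq_one ?_
    rintro ⟨e, b⟩ hv
    rw [Finsupp.mem_support_iff] at hv
    have : point F μ (e, b) = 1 := by
      unfold point
      cases b with
      | true =>
        have : e ∈ μ := h1 e (by simpa [parts] using hv)
        simp [this]
      | false =>
        have : e ∉ μ := h2 e (by simpa [parts] using hv)
        simp [this]
    change point F μ (e, b) ^ d (e, b) = 1
    rw [this, one_pow]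
  · unfold Val at h
    rw [not_and_or] at h
    rcases h with h | h
    · push Not at h
      obtain ⟨e, he, hem⟩ := h
      have hd : d (e, true) ≠ 0 := by simpa [parts] using he
      refine Finset.prod_eq_zero (i := (e, true)) (by rwa [Finsupp.mem_support_iff]) ?_
      have : point F μ (e, true) = 0 := by simp [point, hem]
      change point F μ (e, true) ^ d (e, true) = 0
      rw [this, zero_pow hd]
    · push Not at h
      obtain ⟨e, he, hem⟩ := h
      have hd : d (e, false) ≠ 0 := by simpa [parts] using he
      refine Finset.prod_eq_zero (i := (e, false)) (by rwa [Finsupp.mem_support_iff]) ?_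
      have : point F μ (e, false) = 0 := by simp [point, hem]
      change point F μ (e, false) ^ d (e, false) = 0
      rw [this, zero_pow hd]

open Classical in
theorem eval_eq_sum (μ : Finset (Fin m × Fin n)) (p : Poly F m n) :
    eval (point F μ) p = ∑ d ∈ p.support, coeff d p * (if Val μ (parts d) then 1 else 0) := by
  rw [MvPolynomial.eval_eq]
  refine Finset.sum_congr rfl fun d _ => ?_
  rw [← eval_mono (F := F)]
  rfl

theorem bound_of_vanish (hmn : n < m) (J : Ideal (Poly F m n)) (P : Set (Poly F m n))
    (hJ : J ≤ matchIdeal F m n) (hP : P ⊆ stepAxioms F m n) (l : ℕ)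
    (M : ℕ → Finset (Poly F m n)) (hM : IsRefutation J P l M) :
    2 * n < (MSp l M + 1) * (MSp l M + 4) := by
  classical
  let R : Run (Fin m) (Fin n) :=
    { len := l
      Q := fun t => (monos (M t)).image parts
      G := fun t μ => ∀ q ∈ M t, eval (point F μ) q = 0
      dep := by
        intro t μ ν _ _ h
        have key : ∀ q ∈ M t, eval (point F μ) q = eval (point F ν) q := by
          intro q hq
          rw [eval_eq_sum, eval_eq_sum]
          refine Finset.sum_congr rfl fun d hd => ?_
          have h1 : parts d ∈ (monos (M t)).image parts := by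
            refine mem_image_of_mem _ ?_
            unfold monos
            rw [mem_biUnion]
            exact ⟨q, hq, hd⟩
          have h2 := h _ h1
          by_cases h3 : Val μ (parts d)
          · rw [if_pos h3, if_pos (h2.1 h3)]
          · rw [if_neg h3, if_neg (fun h4 => h3 (h2.2 h4))]
        constructor
        · intro hg q hq
          rw [← key q hq]; exact hg q hq
        · intro hg q hq
          rw [key q hq]; exact hg q hq
      step := by
        intro t ht
        obtain ⟨p, hp, hstep⟩ := hM.step t ht
        have hi : ∃ i : Fin m ⊕ Fin n, ∀ μ : Finset (Fin m × Fin n), IsPartialMatching μ →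
            (∃ e ∈ μ, Sum.inl e.1 = i ∨ Sum.inr e.2 = i) → eval (point F μ) p = 0 := by
          rcases hp with hp | hp
          · rcases hP hp with ⟨i, hi⟩ | ⟨j, hj⟩
            · refine ⟨Sum.inl i, fun μ hμ h => ?_⟩
              obtain ⟨⟨i', j'⟩, he, h1 | h1⟩ := h
              · rw [Sum.inl.injEq] at h1
                exact hi μ hμ ⟨j', h1 ▸ he⟩
              · exact absurd h1 (by simp)
            · refine ⟨Sum.inr j, fun μ hμ h => ?_⟩
              obtain ⟨⟨i', j'⟩, he, h1 | h1⟩ := h
              · exact absurd h1 (by simp)
              · rw [Sum.inr.injEq] at h1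
                exact hj μ hμ ⟨i', h1 ▸ he⟩
          · rw [Set.mem_singleton_iff] at hp
            subst hp
            exact ⟨Sum.inl ⟨0, by omega⟩, fun μ _ _ => map_zero _⟩
        obtain ⟨i, hi⟩ := hi
        refine ⟨i, fun μ hμ hm' hg q hq => ?_⟩
        have h1 := hstep q hq
        have h2 : Ideal.span (M t : Set (Poly F m n)) ⊔ J ⊔ Ideal.span {p} ≤
            RingHom.ker (eval (point F μ)) := by
          refine sup_le (sup_le ?_ ?_) ?_
          · rw [Ideal.span_le]
            intro r hr
            exact RingHom.mem_ker.2 (hg r hr)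
          · refine hJ.trans ?_
            unfold matchIdeal
            exact iInf₂_le μ hμ
          · rw [Ideal.span_le]
            intro r hr
            rw [Set.mem_singleton_iff] at hr
            subst hr
            exact RingHom.mem_ker.2 (hi μ hμ hm')
        exact RingHom.mem_ker.1 (h2 h1) }
  have hlen : 0 < l := by
    rcases Nat.eq_zero_or_pos l with h | h
    · exfalso
      have h1 := hM.one_mem
      rw [h, hM.zero] at h1
      exact absurd h1 (Finset.notMem_empty _)
    · exact h
  have hb := R.bound (by rw [Fintype.card_fin, Fintype.card_fin]; exact hmn.le) hlen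
    (by
      intro μ _ q hq
      rw [hM.zero] at hq
      exact absurd hq (Finset.notMem_empty _))
    (by
      intro μ _ hg
      have := hg 1 hM.one_mem
      rw [map_one] at this
      exact one_ne_zero this)
    (MSp l M)
    (by
      intro t ht
      refine card_image_le.trans ?_
      unfold MSp
      exact Finset.le_sup (f := fun t => (monos (M t)).card)
        (mem_range.2 (Nat.lt_succ_of_le ht)))
  rw [Fintype.card_fin] at hb
  exact hb

theorem bool_le : boolIdeal F m n ≤ matchIdeal F m n := by
  classical
  unfold boolIdeal matchIdeal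
  rw [Ideal.span_le]
  rintro p ⟨e, rfl | rfl⟩
  · simp only [Submodule.coe_iInf, Set.mem_iInter, SetLike.mem_coe, RingHom.mem_ker]
    intro μ _
    by_cases h : e ∈ μ <;> simp [x, point, h]
  · simp only [Submodule.coe_iInf, Set.mem_iInter, SetLike.mem_coe, RingHom.mem_ker]
    intro μ _
    by_cases h : e ∈ μ <;> simp [x, xbar, point, h]

theorem fPHP_sub (hm : 0 < m) : fPHP F m n ⊆ stepAxioms F m n := by
  classical
  rintro p ((⟨i, i', j, hii, rfl⟩ | ⟨i, j, j', hjj, rfl⟩) | ⟨i, rfl⟩)
  · refine Or.inl ⟨⟨0, hm⟩, fun μ hμ _ => ?_⟩
    by_cases h1 : (i, j) ∈ μ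
    · by_cases h2 : (i', j) ∈ μ
      · have := hμ _ h1 _ h2 (Or.inr rfl)
        exact absurd (congrArg Prod.fst this) hii
      · simp [x, point, h2]
    · simp [x, point, h1]
  · refine Or.inl ⟨⟨0, hm⟩, fun μ hμ _ => ?_⟩
    by_cases h1 : (i, j) ∈ μ
    · by_cases h2 : (i, j') ∈ μ
      · have := hμ _ h1 _ h2 (Or.inl rfl)
        exact absurd (congrArg Prod.snd this) hjj
      · simp [x, point, h2]
    · simp [x, point, h1]
  · refine Or.inl ⟨i, fun μ hμ hi => ?_⟩
    obtain ⟨j, hj⟩ := hi
    rw [map_prod]
    refine Finset.prod_eq_zero (i := j) (mem_univ _) ?_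
    simp [xbar, point, hj]

end Proof

/-- Every semantic polynomial calculus refutation of `fPHP` with `m > n` pigeons and `n` holes has
monomial space `s` with `2 n < (s + 1) (s + 4)`, so `s > √(2 n) - 5/2`; this holds for every field
and every `m > n`. The same bound holds when the ideal of the Boolean axioms is enlarged to the
ideal of all polynomials which vanish at all partial matchings, and the axioms are enlarged to all
polynomials which vanish at all partial matchings that match some fixed pigeon, or some fixed hole
(so the onto axioms may be added). -/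
theorem result (F : Type*) [Field F] (m n : ℕ) (hmn : n < m) (l : ℕ)
    (M : ℕ → Finset (Poly F m n)) :
    (IsRefutation (boolIdeal F m n) (fPHP F m n) l M →
      2 * n < (MSp l M + 1) * (MSp l M + 4)) ∧
    (IsRefutation (matchIdeal F m n) (stepAxioms F m n) l M →
      2 * n < (MSp l M + 1) * (MSp l M + 4)) := by
  have hm : 0 < m := by omega
  exact ⟨bound_of_vanish hmn _ _ bool_le (fPHP_sub hm) l M,
    bound_of_vanish hmn _ _ le_rfl (fun _ h => h) l M⟩

end Pool.Agent.Results.MP_96e433_lc.SqrtBound
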